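import Pool.Agent.Y303.EA.Work

/-!
The work on the set where the head is large.
-/

set_option autoImplicit false
set_option linter.unusedSectionVars false

open MeasureTheory Set Filter Topology
open scoped InnerProductSpace ENNReal ContDiff NNReal

namespace Pool.Agent.Y303.EA

open H772R2.NS

/-- a smooth cut-off function -/
noncomputable def ch (x : ℝ) : ℝ := Real.smoothTransition (2 - x ^ 2)

theorem ch_nonneg (x : ℝ) : 0 ≤ ch x := Real.smoothTransition.nonneg _

theorem ch_le_one (x : ℝ) : ch x ≤ 1 := Real.smoothTransition.le_one _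

theorem ch_one {x : ℝ} (h : |x| ≤ 1) : ch x = 1 := by
  refine Real.smoothTransition.one_of_one_le ?_
  have : x ^ 2 ≤ 1 := by
    rw [← sq_abs]
    nlinarith [abs_nonneg x]
  linarith

theorem ch_zero {x : ℝ} (h : 2 ≤ |x|) : ch x = 0 := by
  refine Real.smoothTransition.zero_of_nonpos ?_
  have : 2 ≤ x ^ 2 := by
    rw [← sq_abs]
    nlinarith [abs_nonneg x]
  linarith

theorem cd_ch : ContDiff ℝ ∞ ch :=
  Real.smoothTransition.contDiff.comp (contDiff_const.sub (contDiff_id.pow 2))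

/-- its primitive -/
noncomputable def Sc (x : ℝ) : ℝ := ∫ y in (0 : ℝ)..x, ch y

theorem hasDeriv_Sc (x : ℝ) : HasDerivAt Sc (ch x) x :=
  intervalIntegral.integral_hasDerivAt_right (cd_ch.continuous.intervalIntegrable _ _)
    (cd_ch.continuous.stronglyMeasurableAtFilter _ _) cd_ch.continuous.continuousAt

theorem cd_Sc : ContDiff ℝ ∞ Sc := by
  rw [contDiff_infty_iff_deriv]
  refine ⟨fun x => (hasDeriv_Sc x).differentiableAt, ?_⟩
  have : deriv Sc = ch := funext fun x => (hasDeriv_Sc x).deriv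
  rw [this]
  exact cd_ch

theorem abs_Sc_le (x : ℝ) : |Sc x| ≤ 2 := by
  have key : ∀ y : ℝ, |∫ t in (0 : ℝ)..y, ch t| ≤ |y| := by
    intro y
    have := intervalIntegral.norm_integral_le_of_norm_le_const (a := 0) (b := y) (f := ch) (C := 1)
      (fun t _ => by
        rw [Real.norm_of_nonneg (ch_nonneg t)]
        exact ch_le_one t)
    rw [Real.norm_eq_abs, sub_zero, one_mul] at this
    exact this
  have hi : ∀ a b, IntervalIntegrable ch volume a b := fun a b =>
    cd_ch.continuous.intervalIntegrable a b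
  rcases le_total |x| 2 with h | h
  · exact (key x).trans h
  · rcases le_total 0 x with hx | hx
    · rw [abs_of_nonneg hx] at h
      have e : Sc x = ∫ t in (0 : ℝ)..2, ch t := by
        rw [Sc, ← intervalIntegral.integral_add_adjacent_intervals (hi 0 2) (hi 2 x)]
        have : ∫ t in (2 : ℝ)..x, ch t = 0 := by
          rw [intervalIntegral.integral_congr (g := fun _ => 0)]
          · simp
          · intro t ht
            rw [uIcc_of_le h] at ht
            exact ch_zero (by rw [abs_of_nonneg (by linarith [ht.1])]; exact ht.1)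
        rw [this, add_zero]
      rw [e]
      exact (key 2).trans (by simp)
    · rw [abs_of_nonpos hx] at h
      have e : Sc x = ∫ t in (0 : ℝ)..(-2), ch t := by
        rw [Sc, ← intervalIntegral.integral_add_adjacent_intervals (hi 0 (-2)) (hi (-2) x)]
        have : ∫ t in (-2 : ℝ)..x, ch t = 0 := by
          rw [intervalIntegral.integral_congr (g := fun _ => 0)]
          · simp
          · intro t ht
            rw [uIcc_of_ge (by linarith)] at ht
            exact ch_zero (by rw [abs_of_nonpos (by linarith [ht.2])]; linarith [ht.2])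
        rw [this, add_zero]
      rw [e]
      exact (key (-2)).trans (by simp)

/-- the scaled primitive -/
noncomputable def Sr (r x : ℝ) : ℝ := r * Sc (x / r)

theorem cd_Sr (r : ℝ) : ContDiff ℝ ∞ (Sr r) :=
  contDiff_const.mul (cd_Sc.comp (contDiff_id.div_const r))

theorem deriv_Sr {r : ℝ} (hr : r ≠ 0) (x : ℝ) : deriv (Sr r) x = ch (x / r) := by
  have h1 : HasDerivAt (fun y : ℝ => y / r) (1 / r) x := (hasDerivAt_id x).div_const r
  have h3 := (hasDeriv_Sc (x / r)).comp x h1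
  simp only [Function.comp_def] at h3
  have h2 : HasDerivAt (Sr r) (r * (ch (x / r) * (1 / r))) x := h3.const_mul r
  rw [h2.deriv]
  field_simp

theorem abs_Sr_le {r : ℝ} (hr : 0 ≤ r) (x : ℝ) : |Sr r x| ≤ 2 * r := by
  rw [Sr, abs_mul, abs_of_nonneg hr]
  have := abs_Sc_le (x / r)
  nlinarith

theorem abs_Sr_le' {r : ℝ} (hr : 0 < r) (x : ℝ) : |Sr r x| ≤ |x| := by
  have key : ∀ y : ℝ, |Sc y| ≤ |y| := by
    intro y
    have := intervalIntegral.norm_integral_le_of_norm_le_const (a := 0) (b := y) (f := ch) (C := 1)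
      (fun t _ => by
        rw [Real.norm_of_nonneg (ch_nonneg t)]
        exact ch_le_one t)
    rw [Real.norm_eq_abs, sub_zero, one_mul] at this
    exact this
  rw [Sr, abs_mul, abs_of_pos hr]
  have := key (x / r)
  rw [abs_div, abs_of_pos hr] at this
  calc r * |Sc (x / r)| ≤ r * (|x| / r) := by gcongr
    _ = |x| := by field_simp

variable {Ω : Set E3} (hΩ : IsOpen Ω) [IsFiniteMeasure ((volume : Measure E3).restrict Ω)]
include hΩ

/-- the identity for a bounded function of the head, with a better bound -/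
theorem stat_int2 {ε : ℝ} (hε : 0 < ε) {S : ℝ → ℝ} (hS : ContDiff ℝ ∞ S) {B : ℝ}
    (hB : ∀ x, |S x| ≤ B) (hS1 : ∀ x, |deriv S x| ≤ 1) (c : ℝ) {p : L2V Ω × L2M Ω}
    (hp : p ∈ graphW Ω)
    {q : Lp ℝ 1 ((volume : Measure E3).restrict Ω) × Lp E3 1 ((volume : Measure E3).restrict Ω)}
    (hq : q ∈ W11 Ω) :
    |∫ x in Ω, deriv S (hd c (p.1 x) (q.1 x))
      * (th ε (p.1 x) * wk c (p.1 x) (p.2 x) (q.2 x))|
      ≤ ∫ x in Ω, |S (hd c (p.1 x) (q.1 x))|
        * (ε * th ε (p.1 x) ^ 3 * (‖p.2 x‖ * ‖p.1 x‖ ^ 2)) := by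
  have h0 := statB hΩ hε hS hB hS1 c hp hq
  have i1 := (stat_int hΩ hε hS hB hS1 c hp hq).1
  have hm := aesm_hd c p.1 q.1
  have hz : Integrable (fun x => ‖p.2 x‖) (volume.restrict Ω) :=
    ((Lp.memLp p.2).mono_exponent (p := 1) (by norm_num)).integrable (le_refl _) |>.norm
  have hSm : AEStronglyMeasurable (fun x => S (hd c (p.1 x) (q.1 x))) (volume.restrict Ω) :=
    hS.continuous.comp_aestronglyMeasurable hm
  have hth := cont_th hε.le
  have hem : AEStronglyMeasurable (fun x => ε * th ε (p.1 x) ^ 3 * (‖p.2 x‖ * ‖p.1 x‖ ^ 2))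
      (volume.restrict Ω) := by
    have : Continuous fun q : E3 × M3 => ε * th ε q.1 ^ 3 * (‖q.2‖ * ‖q.1‖ ^ 2) := by fun_prop
    have h2 := aesm2 this p
    exact h2
  have i3 : Integrable (fun x => |S (hd c (p.1 x) (q.1 x))|
      * (ε * th ε (p.1 x) ^ 3 * (‖p.2 x‖ * ‖p.1 x‖ ^ 2))) (volume.restrict Ω) := by
    refine (hz.const_mul B).mono' (hSm.norm.mul hem) (Eventually.of_forall fun x => ?_)
    have h1 : 0 ≤ ε * th ε (p.1 x) ^ 3 * (‖p.2 x‖ * ‖p.1 x‖ ^ 2) := by
      have := th_pos hε.le (p.1 x)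
      positivity
    rw [Real.norm_of_nonneg (mul_nonneg (abs_nonneg _) h1)]
    exact mul_le_mul (hB _) (eth_le hε.le _ _) h1 ((abs_nonneg _).trans (hB 0))
  have hle : ∀ᵐ x ∂(volume.restrict Ω), ‖S (hd c (p.1 x) (q.1 x))
      * ∑ i, dt ε (p.1 x) (p.2 x) (i, i)‖
      ≤ |S (hd c (p.1 x) (q.1 x))| * (ε * th ε (p.1 x) ^ 3 * (‖p.2 x‖ * ‖p.1 x‖ ^ 2)) := by
    filter_upwards [trace_zero hp] with x hx
    rw [trace_dt, hx, mul_zero, zero_sub, Real.norm_eq_abs, abs_mul, abs_neg, abs_mul]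
    have hth := th_pos hε.le (p.1 x)
    rw [abs_of_nonneg (by positivity : 0 ≤ ε * th ε (p.1 x) ^ 3)]
    gcongr
    exact abs_tens_le _ _
  have hdt : AEStronglyMeasurable (fun x => S (hd c (p.1 x) (q.1 x))
      * ∑ i, dt ε (p.1 x) (p.2 x) (i, i)) (volume.restrict Ω) := by
    refine hSm.mul ?_
    have h1 := aesm2 (cont_dt hε.le) p
    have h3 : Continuous fun z : M3 => ∑ i, z (i, i) := by fun_prop
    have h4 := h3.comp_aestronglyMeasurable h1
    exact h4
  have i2 : Integrable (fun x => S (hd c (p.1 x) (q.1 x))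
      * ∑ i, dt ε (p.1 x) (p.2 x) (i, i)) (volume.restrict Ω) := i3.mono' hdt hle
  unfold SF at h0
  simp only [wk_eq] at h0
  rw [integral_add i1 i2] at h0
  have h1 : ∫ x in Ω, deriv S (hd c (p.1 x) (q.1 x))
      * (th ε (p.1 x) * wk c (p.1 x) (p.2 x) (q.2 x))
      = - ∫ x in Ω, S (hd c (p.1 x) (q.1 x)) * ∑ i, dt ε (p.1 x) (p.2 x) (i, i) := by linarith
  rw [h1, abs_neg, ← Real.norm_eq_abs]
  exact norm_integral_le_of_norm_le i3 hle

/-- the general form of the limit in the function `S` -/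
theorem stat_gen (c : ℝ) {σ : ℝ} (hσ : |σ| = 1) {p : L2V Ω × L2M Ω} (hp : p ∈ graphW Ω)
    {q : Lp ℝ 1 ((volume : Measure E3).restrict Ω) × Lp E3 1 ((volume : Measure E3).restrict Ω)}
    (hq : q ∈ W11 Ω) {S : ℕ → ℝ → ℝ} (hcd : ∀ n, ContDiff ℝ ∞ (S n)) {B : ℕ → ℝ}
    (hB : ∀ n x, |S n x| ≤ B n) {κ : ℝ → ℝ} (h0 : ∀ n x, 0 ≤ deriv (S n) x)
    (h1 : ∀ n x, deriv (S n) x ≤ κ x) (h2 : ∀ n x, deriv (S n) x ≤ 1)
    (hlim : ∀ x, Tendsto (fun n => deriv (S n) x) atTop (𝓝 (κ x))) :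
    ∫⁻ x in Ω, ENNReal.ofReal (κ (hd c (p.1 x) (q.1 x)) * (σ * wk c (p.1 x) (p.2 x) (q.2 x)))
    ≤ ∫⁻ x in Ω, ENNReal.ofReal (-(κ (hd c (p.1 x) (q.1 x))
      * (σ * wk c (p.1 x) (p.2 x) (q.2 x)))) := by
  have hm := aesm_hd c p.1 q.1
  have hw := aesm_wk c (Lp.aestronglyMeasurable p.1) (Lp.aestronglyMeasurable p.2)
        (Lp.aestronglyMeasurable q.2)
  refine fat (μ := (volume : Measure E3).restrict Ω)
    (ρ := fun n x => deriv (S n) (hd c (p.1 x) (q.1 x))) (κ := fun x => κ (hd c (p.1 x) (q.1 x)))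
    (w := fun x => σ * wk c (p.1 x) (p.2 x) (q.2 x)) (δ := fun _ => 0) (fun n => ?_)
    (fun n x => h0 n _) (fun n x => h1 n _) (fun x => hlim _) tendsto_const_nhds (fun n => ?_)
  · exact (((hcd n).continuous_deriv (by simp)).comp_aestronglyMeasurable hm).aemeasurable.mul
      (hw.aemeasurable.const_mul σ)
  · rw [ENNReal.ofReal_zero, add_zero]
    exact stat_one hΩ (hcd n) (hB n) (h0 n) (h2 n) c hσ hp hq

/-- the work on the set where the head is large -/
theorem cut_one (c : ℝ) {σ : ℝ} (hσ : |σ| = 1) {p : L2V Ω × L2M Ω} (hp : p ∈ graphW Ω)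
    {q : Lp ℝ 1 ((volume : Measure E3).restrict Ω) × Lp E3 1 ((volume : Measure E3).restrict Ω)}
    (hq : q ∈ W11 Ω) {r : ℝ} (hr : 0 < r) :
    ∫⁻ x in Ω, ENNReal.ofReal ((1 - ch (hd c (p.1 x) (q.1 x) / r))
      * (σ * wk c (p.1 x) (p.2 x) (q.2 x)))
    ≤ ∫⁻ x in Ω, ENNReal.ofReal (-((1 - ch (hd c (p.1 x) (q.1 x) / r))
      * (σ * wk c (p.1 x) (p.2 x) (q.2 x)))) := by
  have hm0 : ∀ n : ℕ, 0 < ((n : ℝ) + 2) * r := fun n => by positivity
  have hder : ∀ (n : ℕ) x, deriv (fun x => Sr (((n : ℝ) + 2) * r) x - Sr r x) x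
      = ch (x / (((n : ℝ) + 2) * r)) - ch (x / r) := by
    intro n x
    rw [deriv_fun_sub ((cd_Sr _).differentiable (by simp) x)
      ((cd_Sr _).differentiable (by simp) x), deriv_Sr (hm0 n).ne', deriv_Sr hr.ne']
  have hcmp : ∀ (n : ℕ) x, ch (x / r) ≤ ch (x / (((n : ℝ) + 2) * r)) := by
    intro n x
    rcases le_total |x / r| 2 with h | h
    · have h1 : |x / (((n : ℝ) + 2) * r)| ≤ 1 := by
        rw [abs_div, abs_of_pos (hm0 n), div_le_one (hm0 n)]
        rw [abs_div, abs_of_pos hr, div_le_iff₀ hr] at h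
        have : (0 : ℝ) ≤ n := Nat.cast_nonneg n
        nlinarith
      rw [ch_one h1]
      exact ch_le_one _
    · rw [ch_zero h]
      exact ch_nonneg _
  refine stat_gen hΩ c hσ hp hq (S := fun n x => Sr (((n : ℝ) + 2) * r) x - Sr r x)
    (B := fun n => 2 * (((n : ℝ) + 2) * r) + 2 * r) (κ := fun x => 1 - ch (x / r))
    (fun n => (cd_Sr _).sub (cd_Sr _)) (fun n x => ?_) (fun n x => ?_) (fun n x => ?_)
    (fun n x => ?_) (fun x => ?_)
  · have h1 := abs_Sr_le (hm0 n).le x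
    have h2 := abs_Sr_le hr.le x
    have := abs_sub (Sr (((n : ℝ) + 2) * r) x) (Sr r x)
    linarith
  · rw [hder]
    have := hcmp n x
    linarith
  · rw [hder]
    have := ch_le_one (x / (((n : ℝ) + 2) * r))
    linarith
  · rw [hder]
    have := ch_le_one (x / (((n : ℝ) + 2) * r))
    have := ch_nonneg (x / r)
    linarith
  · simp only [hder]
    have h1 : Tendsto (fun n : ℕ => x / (((n : ℝ) + 2) * r)) atTop (𝓝 0) := by
      have h2 : Tendsto (fun n : ℕ => ((n : ℝ) + 2) * r) atTop atTop :=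
        (tendsto_atTop_add_const_right _ 2 tendsto_natCast_atTop_atTop).atTop_mul_const hr
      exact tendsto_const_nhds.div_atTop h2
    have h2 := (cd_ch.continuous.tendsto 0).comp h1
    rw [ch_one (by simp)] at h2
    exact h2.sub_const _

/-- equality of the positive and the negative part on the set where the head is large -/
theorem cut_eq (c : ℝ) {p : L2V Ω × L2M Ω} (hp : p ∈ graphW Ω)
    {q : Lp ℝ 1 ((volume : Measure E3).restrict Ω) × Lp E3 1 ((volume : Measure E3).restrict Ω)}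
    (hq : q ∈ W11 Ω) {r : ℝ} (hr : 0 < r) :
    ∫⁻ x in Ω, ENNReal.ofReal ((1 - ch (hd c (p.1 x) (q.1 x) / r))
      * wk c (p.1 x) (p.2 x) (q.2 x))
    = ∫⁻ x in Ω, ENNReal.ofReal (-((1 - ch (hd c (p.1 x) (q.1 x) / r))
      * wk c (p.1 x) (p.2 x) (q.2 x))) := by
  refine le_antisymm ?_ ?_
  · simpa using cut_one hΩ c (σ := 1) (by simp) hp hq hr
  · simpa using cut_one hΩ c (σ := -1) (by simp) hp hq hr

end Pool.Agent.Y303.EA
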