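import Pool.Agent.Y303.RA.Pratt

/-!
Continuity of integral functionals with quadratic growth on `L² × L² × L¹ × L¹`.
-/

set_option autoImplicit false
set_option linter.unusedSectionVars false

open MeasureTheory Set Filter Topology
open scoped InnerProductSpace ENNReal ContDiff NNReal

namespace Pool.Agent.Y303.EA

open Pool.Agent.Y303.RA (pratt)

variable {α : Type*} {mα : MeasurableSpace α} {μ : Measure α}

theorem int_norm_sq {E : Type*} [NormedAddCommGroup E] [InnerProductSpace ℝ E] (v : Lp E 2 μ) :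
    ∫ x, ‖v x‖ ^ 2 ∂μ = ‖v‖ ^ 2 := by
  rw [← real_inner_self_eq_norm_sq, L2.inner_def]
  refine integral_congr_ae (Eventually.of_forall fun x => ?_)
  simp only [real_inner_self_eq_norm_sq]

theorem integrable_norm_sq {E : Type*} [NormedAddCommGroup E] [InnerProductSpace ℝ E]
    (v : Lp E 2 μ) : Integrable (fun x => ‖v x‖ ^ 2) μ := by
  have := L2.integrable_inner (𝕜 := ℝ) v v
  refine this.congr (Eventually.of_forall fun x => ?_)
  simp only [real_inner_self_eq_norm_sq]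

theorem integrable_norm_one {E : Type*} [NormedAddCommGroup E] (v : Lp E 1 μ) :
    Integrable (fun x => ‖v x‖) μ := (L1.integrable_coeFn v).norm

/-- an almost everywhere convergent subsequence -/
theorem sub_ae {E : Type*} [NormedAddCommGroup E] {p : ℝ≥0∞} [Fact (1 ≤ p)] {v : ℕ → Lp E p μ}
    {w : Lp E p μ} (h : Tendsto v atTop (𝓝 w)) :
    ∃ ns : ℕ → ℕ, StrictMono ns ∧ ∀ᵐ x ∂μ, Tendsto (fun n => v (ns n) x) atTop (𝓝 (w x)) :=
  (tendstoInMeasure_of_tendsto_Lp h).exists_seq_tendsto_ae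

variable {E F K K' P : Type*} [NormedAddCommGroup E] [InnerProductSpace ℝ E]
  [NormedAddCommGroup F] [InnerProductSpace ℝ F] [NormedAddCommGroup K] [NormedAddCommGroup K']
  [TopologicalSpace P]

theorem nem {h : α → P} (hh : AEStronglyMeasurable h μ) {f : P → E × F × K × K' → ℝ}
    (hf : Continuous (fun q : P × (E × F × K × K') => f q.1 q.2)) {g : α → ℝ}
    (hg : Integrable g μ) {C : ℝ}
    (hbd : ∀ᵐ x ∂μ, ∀ a b c d, |f (h x) (a, b, c, d)|
      ≤ g x + C * (‖a‖ ^ 2 + ‖b‖ ^ 2 + ‖c‖ + ‖d‖)) :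
    Continuous fun p : Lp E 2 μ × Lp F 2 μ × Lp K 1 μ × Lp K' 1 μ =>
      ∫ x, f (h x) (p.1 x, p.2.1 x, p.2.2.1 x, p.2.2.2 x) ∂μ := by
  rw [continuous_iff_seqContinuous]
  intro q p hq
  refine tendsto_of_subseq_tendsto fun ns hns => ?_
  have hq1 := hq.comp hns
  have t1 : Tendsto (fun n => (q (ns n)).1) atTop (𝓝 p.1) := (continuous_fst.tendsto p).comp hq1
  have t2 : Tendsto (fun n => (q (ns n)).2.1) atTop (𝓝 p.2.1) :=
    ((continuous_fst.comp continuous_snd).tendsto p).comp hq1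
  have t3 : Tendsto (fun n => (q (ns n)).2.2.1) atTop (𝓝 p.2.2.1) :=
    ((continuous_fst.comp (continuous_snd.comp continuous_snd)).tendsto p).comp hq1
  have t4 : Tendsto (fun n => (q (ns n)).2.2.2) atTop (𝓝 p.2.2.2) :=
    ((continuous_snd.comp (continuous_snd.comp continuous_snd)).tendsto p).comp hq1
  obtain ⟨m1, k1, a1⟩ := sub_ae t1
  obtain ⟨m2, k2, a2⟩ := sub_ae (t2.comp k1.tendsto_atTop)
  have s2 := k1.tendsto_atTop.comp k2.tendsto_atTop
  obtain ⟨m3, k3, a3⟩ := sub_ae (t3.comp s2)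
  have s3 := s2.comp k3.tendsto_atTop
  obtain ⟨m4, k4, a4⟩ := sub_ae (t4.comp s3)
  have s4 := s3.comp k4.tendsto_atTop
  set ms : ℕ → ℕ := m1 ∘ m2 ∘ m3 ∘ m4 with hms
  have hms' : Tendsto ms atTop atTop := s4
  refine ⟨ms, ?_⟩
  have b1 : ∀ᵐ x ∂μ, Tendsto (fun n => (q (ns (ms n))).1 x) atTop (𝓝 (p.1 x)) := by
    filter_upwards [a1] with x hx
    exact hx.comp (k2.tendsto_atTop.comp (k3.tendsto_atTop.comp k4.tendsto_atTop))
  have b2 : ∀ᵐ x ∂μ, Tendsto (fun n => (q (ns (ms n))).2.1 x) atTop (𝓝 (p.2.1 x)) := by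
    filter_upwards [a2] with x hx
    exact hx.comp (k3.tendsto_atTop.comp k4.tendsto_atTop)
  have b3 : ∀ᵐ x ∂μ, Tendsto (fun n => (q (ns (ms n))).2.2.1 x) atTop (𝓝 (p.2.2.1 x)) := by
    filter_upwards [a3] with x hx
    exact hx.comp k4.tendsto_atTop
  have b4 : ∀ᵐ x ∂μ, Tendsto (fun n => (q (ns (ms n))).2.2.2 x) atTop (𝓝 (p.2.2.2 x)) := a4
  have c1 := t1.comp hms'
  have c2 := t2.comp hms'
  have c3 := t3.comp hms'
  have c4 := t4.comp hms'
  refine (pratt (G := fun n x => g x + C * (‖(q (ns (ms n))).1 x‖ ^ 2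
    + ‖(q (ns (ms n))).2.1 x‖ ^ 2 + ‖(q (ns (ms n))).2.2.1 x‖ + ‖(q (ns (ms n))).2.2.2 x‖))
    (Γ := fun x => g x + C * (‖p.1 x‖ ^ 2 + ‖p.2.1 x‖ ^ 2 + ‖p.2.2.1 x‖ + ‖p.2.2.2 x‖))
    (fun n => ?_) (fun n => ?_) ?_ (fun n => ?_) ?_ ?_ ?_).2
  · exact hf.comp_aestronglyMeasurable (hh.prodMk ((Lp.aestronglyMeasurable _).prodMk
      ((Lp.aestronglyMeasurable _).prodMk ((Lp.aestronglyMeasurable _).prodMk
        (Lp.aestronglyMeasurable _)))))
  · exact hg.add ((((integrable_norm_sq _).add (integrable_norm_sq _)).add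
      (integrable_norm_one _)).add (integrable_norm_one _) |>.const_mul C)
  · exact hg.add ((((integrable_norm_sq _).add (integrable_norm_sq _)).add
      (integrable_norm_one _)).add (integrable_norm_one _) |>.const_mul C)
  · filter_upwards [hbd] with x hx
    exact hx _ _ _ _
  · filter_upwards [b1, b2, b3, b4] with x h1 h2 h3 h4
    exact (hf.tendsto (h x, (p.1 x, p.2.1 x, p.2.2.1 x, p.2.2.2 x))).comp
      (tendsto_const_nhds.prodMk_nhds (h1.prodMk_nhds (h2.prodMk_nhds (h3.prodMk_nhds h4))))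
  · filter_upwards [b1, b2, b3, b4] with x h1 h2 h3 h4
    exact tendsto_const_nhds.add (((((h1.norm.pow 2).add (h2.norm.pow 2)).add h3.norm).add
      h4.norm).const_mul C)
  · have e : ∀ r : Lp E 2 μ × Lp F 2 μ × Lp K 1 μ × Lp K' 1 μ,
        ∫ x, (g x + C * (‖r.1 x‖ ^ 2 + ‖r.2.1 x‖ ^ 2 + ‖r.2.2.1 x‖ + ‖r.2.2.2 x‖)) ∂μ
        = (∫ x, g x ∂μ) + C * (‖r.1‖ ^ 2 + ‖r.2.1‖ ^ 2 + ‖r.2.2.1‖ + ‖r.2.2.2‖) := by
      intro r
      have i1 : Integrable (fun x => ‖r.1 x‖ ^ 2 + ‖r.2.1 x‖ ^ 2) μ :=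
        (integrable_norm_sq _).add (integrable_norm_sq _)
      have i2 : Integrable (fun x => ‖r.1 x‖ ^ 2 + ‖r.2.1 x‖ ^ 2 + ‖r.2.2.1 x‖) μ :=
        i1.add (integrable_norm_one _)
      have i3 : Integrable (fun x => ‖r.1 x‖ ^ 2 + ‖r.2.1 x‖ ^ 2 + ‖r.2.2.1 x‖ + ‖r.2.2.2 x‖) μ :=
        i2.add (integrable_norm_one _)
      rw [integral_add hg (i3.const_mul C), integral_const_mul,
        integral_add i2 (integrable_norm_one _), integral_add i1 (integrable_norm_one _),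
        integral_add (integrable_norm_sq _) (integrable_norm_sq _), int_norm_sq, int_norm_sq,
        L1.norm_eq_integral_norm, L1.norm_eq_integral_norm]
    simp only [e]
    exact tendsto_const_nhds.add (((((c1.norm.pow 2).add (c2.norm.pow 2)).add c3.norm).add
      c4.norm).const_mul C)

end Pool.Agent.Y303.EA
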