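import Pool.Agent.H772R2.NS.Space1

/-!
The bounded truncation `v / √(1 + ε |v|²)` of a vector field and its gradient.
-/

set_option autoImplicit false
set_option linter.unusedSectionVars false

open MeasureTheory Set Filter Topology
open scoped InnerProductSpace ENNReal ContDiff NNReal

namespace Pool.Agent.Y303.EA

open H772R2.NS

/-- the weight -/
noncomputable def aa (ε : ℝ) (v : E3) : ℝ := √(1 + ε * ‖v‖ ^ 2)

/-- the reciprocal weight -/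
noncomputable def th (ε : ℝ) (v : E3) : ℝ := (aa ε v)⁻¹

/-- the truncation -/
noncomputable def Tr (ε : ℝ) (v : E3) : E3 := th ε v • v

/-- the potential of the truncation -/
noncomputable def Ph (ε : ℝ) (v : E3) : ℝ := ‖v‖ ^ 2 / (1 + aa ε v)

/-- transposed matrix times vector -/
noncomputable def mt (z : M3) (v : E3) : E3 := WithLp.toLp 2 fun j => ∑ i, z (i, j) * v i

/-- matrix times vector -/
noncomputable def mv (z : M3) (v : E3) : E3 := WithLp.toLp 2 fun i => ∑ j, z (i, j) * v j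

/-- the gradient of the truncation -/
noncomputable def dt (ε : ℝ) (v : E3) (z : M3) : M3 :=
  WithLp.toLp 2 fun p => th ε v * z p - ε * th ε v ^ 3 * (v p.1 * ∑ k, z (k, p.2) * v k)

theorem mt_apply (z : M3) (v : E3) (j : Fin 3) : mt z v j = ∑ i, z (i, j) * v i := rfl

theorem mv_apply (z : M3) (v : E3) (i : Fin 3) : mv z v i = ∑ j, z (i, j) * v j := rfl

theorem dt_apply (ε : ℝ) (v : E3) (z : M3) (p : Fin 3 × Fin 3) :
    dt ε v z p = th ε v * z p - ε * th ε v ^ 3 * (v p.1 * ∑ k, z (k, p.2) * v k) := rfl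

variable {ε : ℝ} {v w : E3} {z : M3}

theorem aa_sq (hε : 0 ≤ ε) (v : E3) : aa ε v ^ 2 = 1 + ε * ‖v‖ ^ 2 :=
  Real.sq_sqrt (by positivity)

theorem one_le_aa (hε : 0 ≤ ε) (v : E3) : 1 ≤ aa ε v :=
  Real.one_le_sqrt.2 (by nlinarith [mul_nonneg hε (sq_nonneg ‖v‖)])

theorem aa_pos (hε : 0 ≤ ε) (v : E3) : 0 < aa ε v := one_pos.trans_le (one_le_aa hε v)

theorem th_pos (hε : 0 ≤ ε) (v : E3) : 0 < th ε v := inv_pos.2 (aa_pos hε v)

theorem th_le_one (hε : 0 ≤ ε) (v : E3) : th ε v ≤ 1 := inv_le_one_of_one_le₀ (one_le_aa hε v)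

theorem th_sq (hε : 0 ≤ ε) (v : E3) : th ε v ^ 2 * (1 + ε * ‖v‖ ^ 2) = 1 := by
  rw [← aa_sq hε, th, ← mul_pow, inv_mul_cancel₀ (aa_pos hε v).ne', one_pow]

theorem th_sq_le (hε : 0 ≤ ε) (v : E3) : ε * th ε v ^ 2 * ‖v‖ ^ 2 ≤ 1 := by
  nlinarith [th_sq hε v, sq_nonneg (th ε v)]

theorem norm_Tr_le (hε : 0 ≤ ε) (v : E3) : ‖Tr ε v‖ ≤ ‖v‖ := by
  rw [Tr, norm_smul, Real.norm_of_nonneg (th_pos hε v).le]
  nlinarith [norm_nonneg v, th_le_one hε v]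

theorem norm_Tr_le' (hε : 0 < ε) (v : E3) : ‖Tr ε v‖ ≤ 1 / √ε := by
  have h1 := th_sq_le hε.le v
  have h2 : ‖Tr ε v‖ = th ε v * ‖v‖ := by
    rw [Tr, norm_smul, Real.norm_of_nonneg (th_pos hε.le v).le]
  rw [h2, le_div_iff₀ (Real.sqrt_pos.2 hε)]
  have h3 : (th ε v * ‖v‖ * √ε) ^ 2 ≤ 1 ^ 2 := by
    rw [mul_pow, Real.sq_sqrt hε.le]
    nlinarith
  exact (pow_le_pow_iff_left₀ (by have := (th_pos hε.le v).le; positivity) (by norm_num)
    (by norm_num)).1 h3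

theorem Ph_nonneg (hε : 0 ≤ ε) (v : E3) : 0 ≤ Ph ε v := by
  have := aa_pos hε v
  unfold Ph
  positivity

theorem Ph_le (hε : 0 ≤ ε) (v : E3) : Ph ε v ≤ ‖v‖ ^ 2 / 2 := by
  have := one_le_aa hε v
  unfold Ph
  gcongr
  linarith

theorem Ph_eq (hε : 0 < ε) (v : E3) : ε * Ph ε v = aa ε v - 1 := by
  have h1 := aa_sq hε.le v
  have h2 := aa_pos hε.le v
  unfold Ph
  rw [← mul_div_assoc, div_eq_iff (by positivity)]
  nlinarith

/-- convexity of the potential -/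
theorem conv (hε : 0 < ε) (v w : E3) : ⟪Tr ε v, w - v⟫_ℝ ≤ Ph ε w - Ph ε v := by
  have ha := aa_pos hε.le v
  have hb := aa_pos hε.le w
  have e1 : ⟪Tr ε v, w - v⟫_ℝ = th ε v * (⟪v, w⟫_ℝ - ‖v‖ ^ 2) := by
    rw [Tr, real_inner_smul_left, inner_sub_right, real_inner_self_eq_norm_sq]
  have h1 : ⟪v, w⟫_ℝ ≤ ‖v‖ * ‖w‖ := real_inner_le_norm v w
  have h2 : 1 + ε * (‖v‖ * ‖w‖) ≤ aa ε v * aa ε w := by
    have h3 : (1 + ε * (‖v‖ * ‖w‖)) ^ 2 ≤ (aa ε v * aa ε w) ^ 2 := by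
      rw [mul_pow, aa_sq hε.le, aa_sq hε.le]
      nlinarith [mul_nonneg hε.le (sq_nonneg (‖v‖ - ‖w‖))]
    exact (pow_le_pow_iff_left₀ (by positivity) (by positivity) (by norm_num)).1 h3
  have h4 : ε * ⟪Tr ε v, w - v⟫_ℝ ≤ ε * (Ph ε w - Ph ε v) := by
    rw [mul_sub, Ph_eq hε, Ph_eq hε, e1, th]
    have h5 : ε * ((aa ε v)⁻¹ * (⟪v, w⟫_ℝ - ‖v‖ ^ 2))
        = (ε * ⟪v, w⟫_ℝ - ε * ‖v‖ ^ 2) / aa ε v := by
      field_simp
    rw [h5, div_le_iff₀ ha]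
    have h6 := aa_sq hε.le v
    nlinarith [mul_le_mul_of_nonneg_left h1 hε.le]
  exact le_of_mul_le_mul_left h4 hε

theorem inner_mv (z : M3) (v : E3) : ⟪mv z v, v⟫_ℝ = ⟪z, tens v⟫_ℝ := by
  rw [inner_E3, inner_M3]
  refine Finset.sum_congr rfl fun i _ => ?_
  rw [mv_apply, Finset.sum_mul]
  refine Finset.sum_congr rfl fun j _ => ?_
  rw [tens_apply]
  ring

theorem inner_mt (z : M3) (v : E3) : ⟪mt z v, v⟫_ℝ = ⟪z, tens v⟫_ℝ := by
  rw [inner_E3, inner_M3, Finset.sum_comm]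
  refine Finset.sum_congr rfl fun i _ => ?_
  rw [mt_apply, Finset.sum_mul]
  refine Finset.sum_congr rfl fun j _ => ?_
  rw [tens_apply]
  ring

theorem norm_mt_le (z : M3) (v : E3) : ‖mt z v‖ ≤ ‖z‖ * ‖v‖ := by
  have h : ‖mt z v‖ ^ 2 ≤ (‖z‖ * ‖v‖) ^ 2 := by
    rw [norm_sq_E3, mul_pow, norm_sq_M3, norm_sq_E3, Finset.sum_comm, Finset.sum_mul]
    refine Finset.sum_le_sum fun j _ => ?_
    rw [mt_apply]
    exact Finset.sum_mul_sq_le_sq_mul_sq _ _ _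
  exact (pow_le_pow_iff_left₀ (norm_nonneg _) (by positivity) (by norm_num)).mp h

theorem norm_mv_le (z : M3) (v : E3) : ‖mv z v‖ ≤ ‖z‖ * ‖v‖ := by
  have h : ‖mv z v‖ ^ 2 ≤ (‖z‖ * ‖v‖) ^ 2 := by
    rw [norm_sq_E3, mul_pow, norm_sq_M3, norm_sq_E3, Finset.sum_mul]
    refine Finset.sum_le_sum fun j _ => ?_
    rw [mv_apply]
    exact Finset.sum_mul_sq_le_sq_mul_sq _ _ _
  exact (pow_le_pow_iff_left₀ (norm_nonneg _) (by positivity) (by norm_num)).mp h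

theorem norm_dt_le (hε : 0 ≤ ε) (v : E3) (z : M3) : ‖dt ε v z‖ ≤ ‖z‖ := by
  have h : ‖dt ε v z‖ ^ 2 ≤ ‖z‖ ^ 2 := by
    rw [norm_sq_M3, norm_sq_M3, Finset.sum_comm, Finset.sum_comm (γ := Fin 3) (s := Finset.univ)
      (f := fun i j => z (i, j) ^ 2)]
    refine Finset.sum_le_sum fun j _ => ?_
    simp only [dt_apply]
    set s : ℝ := ∑ k, z (k, j) * v k with hs
    set t := th ε v with ht
    have h0 : 0 < t := th_pos hε v
    have h1 : t ≤ 1 := th_le_one hε v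
    have h2 : ε * t ^ 2 * ‖v‖ ^ 2 ≤ 1 := th_sq_le hε v
    have e1 : ∑ i, (t * z (i, j) - ε * t ^ 3 * (v i * s)) ^ 2
        = t ^ 2 * (∑ i, z (i, j) ^ 2) - 2 * (ε * t ^ 4) * s * (∑ k, z (k, j) * v k)
          + (ε * t ^ 3 * s) ^ 2 * ‖v‖ ^ 2 := by
      rw [norm_sq_E3]
      clear_value s
      simp only [Fin.sum_univ_three]
      ring
    rw [e1, ← hs]
    have h3 : (ε * t ^ 3 * s) ^ 2 * ‖v‖ ^ 2 = (ε * t ^ 4 * s ^ 2) * (ε * t ^ 2 * ‖v‖ ^ 2) := by ring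
    rw [h3]
    have h4 : 0 ≤ ε * t ^ 4 * s ^ 2 := by positivity
    have h5 : 0 ≤ ∑ i, z (i, j) ^ 2 := Finset.sum_nonneg fun i _ => sq_nonneg _
    have h6 : t ^ 2 ≤ 1 := by nlinarith
    nlinarith [mul_le_mul_of_nonneg_left h2 h4, mul_le_mul_of_nonneg_right h6 h5]
  exact (pow_le_pow_iff_left₀ (norm_nonneg _) (norm_nonneg _) (by norm_num)).mp h

/-- the trace of the gradient of the truncation -/
theorem trace_dt (ε : ℝ) (v : E3) (z : M3) :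
    ∑ i, dt ε v z (i, i) = th ε v * ∑ i, z (i, i) - ε * th ε v ^ 3 * ⟪z, tens v⟫_ℝ := by
  rw [inner_M3]
  simp only [dt_apply, tens_apply, Fin.sum_univ_three]
  ring

theorem inner_dt (ε : ℝ) (v : E3) (z : M3) :
    ⟪z, dt ε v z⟫_ℝ = th ε v * ‖z‖ ^ 2 - ε * th ε v ^ 3 * ‖mt z v‖ ^ 2 := by
  rw [inner_M3, norm_sq_M3, norm_sq_E3]
  simp only [dt_apply, mt_apply, Fin.sum_univ_three]
  ring

theorem abs_tens_le (z : M3) (v : E3) : |⟪z, tens v⟫_ℝ| ≤ ‖z‖ * ‖v‖ ^ 2 := by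
  rw [← norm_tens]
  exact abs_real_inner_le_norm _ _

/-- smoothness of the reciprocal weight -/
theorem cd_th (hε : 0 ≤ ε) : ContDiff ℝ ∞ (th ε) := by
  unfold th aa
  refine ContDiff.inv (ContDiff.sqrt (contDiff_const.add (contDiff_const.mul
    (contDiff_norm_sq ℝ))) fun x => ?_) fun x => ?_
  · positivity
  · positivity

theorem cd_Tr (hε : 0 ≤ ε) : ContDiff ℝ ∞ (Tr ε) := (cd_th hε).smul contDiff_id

theorem Tr_zero (ε : ℝ) : Tr ε 0 = 0 := smul_zero _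

theorem hasDeriv_th (hε : 0 ≤ ε) (v : E3) :
    HasFDerivAt (th ε) (-(ε * th ε v ^ 3) • innerSL ℝ v) v := by
  have h1 : HasFDerivAt (fun x : E3 => 1 + ε * ‖x‖ ^ 2) (ε • ((2 : ℝ) • innerSL ℝ v)) v := by
    have h2 : HasFDerivAt (fun x : E3 => ‖x‖ ^ 2) ((2 : ℝ) • innerSL ℝ v) v := by
      have := (hasStrictFDerivAt_norm_sq v).hasFDerivAt
      exact_mod_cast this
    exact (h2.const_mul ε).const_add 1
  have h3 := aa_pos hε v
  have h4 : (1 + ε * ‖v‖ ^ 2) ≠ 0 := by positivity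
  have h5 := h1.sqrt h4
  have h8 : √(1 + ε * ‖v‖ ^ 2) ≠ 0 := h3.ne'
  have h6 : HasFDerivAt (th ε) _ v := (hasDerivAt_inv h8).comp_hasFDerivAt v h5
  refine h6.congr_fderiv ?_
  ext x
  simp only [smul_apply, innerSL_apply_apply, smul_eq_mul]
  rw [← aa]
  have h7 : th ε v = (aa ε v)⁻¹ := rfl
  rw [h7]
  field_simp

theorem jac_Tr (hε : 0 ≤ ε) {φ : E3 → E3} (hφ : ContDiff ℝ ∞ φ) (x : E3) :
    jac (fun y => Tr ε (φ y)) x = dt ε (φ x) (jac φ x) := by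
  have h1 : HasFDerivAt φ (fderiv ℝ φ x) x :=
    ((hφ.differentiable (by simp)) x).hasFDerivAt
  have h2 : HasFDerivAt (fun y => th ε (φ y))
      ((-(ε * th ε (φ x) ^ 3) • innerSL ℝ (φ x)) ∘L fderiv ℝ φ x) x :=
    (hasDeriv_th hε (φ x)).comp x h1
  have h3 := h2.smul h1
  have h4 : fderiv ℝ (fun y => Tr ε (φ y)) x = _ := h3.fderiv
  ext p
  rw [jac_apply, h4, dt_apply]
  simp only [add_apply, smul_apply,
    ContinuousLinearMap.smulRight_apply, ContinuousLinearMap.comp_apply, innerSL_apply_apply,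
    PiLp.add_apply, PiLp.smul_apply, smul_eq_mul, inner_E3, jac_apply]
  simp only [Fin.sum_univ_three]
  ring

/-- the truncation of a smooth compactly supported field -/
theorem supp_Tr {φ : E3 → E3} : tsupport (fun y => Tr ε (φ y)) ⊆ tsupport φ := by
  refine closure_mono ?_
  intro x hx
  rw [Function.mem_support] at hx ⊢
  intro h
  exact hx (by rw [h, Tr_zero])

theorem cont_aa (ε : ℝ) : Continuous (aa ε) := by
  unfold aa
  fun_prop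

theorem cont_th (hε : 0 ≤ ε) : Continuous (th ε) := (cd_th hε).continuous

theorem cont_Tr (hε : 0 ≤ ε) : Continuous (Tr ε) := (cd_Tr hε).continuous

theorem cont_Ph (hε : 0 ≤ ε) : Continuous (Ph ε) := by
  unfold Ph
  refine (continuous_norm.pow 2).div (continuous_const.add (cont_aa ε)) fun x => ?_
  have := aa_pos hε x
  positivity

theorem cont_mt : Continuous (fun p : M3 × E3 => mt p.1 p.2) := by
  unfold mt
  refine (PiLp.continuous_toLp 2 _).comp ?_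
  refine continuous_pi (fun p => ?_)
  fun_prop

theorem cont_mv : Continuous (fun p : M3 × E3 => mv p.1 p.2) := by
  unfold mv
  refine (PiLp.continuous_toLp 2 _).comp ?_
  refine continuous_pi (fun p => ?_)
  fun_prop

theorem cont_dt (hε : 0 ≤ ε) : Continuous (fun p : E3 × M3 => dt ε p.1 p.2) := by
  unfold dt
  refine (PiLp.continuous_toLp 2 _).comp ?_
  refine continuous_pi (fun p => ?_)
  have := cont_th hε
  fun_prop

/-- limits as `ε → 0` -/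
theorem tendsto_th (v : E3) : Tendsto (fun ε => th ε v) (𝓝[>] 0) (𝓝 1) := by
  have h : Continuous (fun ε : ℝ => √(1 + ε * ‖v‖ ^ 2)) := by fun_prop
  have h1 : Tendsto (fun ε : ℝ => √(1 + ε * ‖v‖ ^ 2)) (𝓝[>] 0) (𝓝 (√(1 + 0 * ‖v‖ ^ 2))) :=
    (h.tendsto 0).mono_left nhdsWithin_le_nhds
  have h2 : √(1 + 0 * ‖v‖ ^ 2) = 1 := by simp
  rw [h2] at h1
  have h3 := h1.inv₀ one_ne_zero
  rw [inv_one] at h3
  exact h3

theorem tendsto_Tr (v : E3) : Tendsto (fun ε => Tr ε v) (𝓝[>] 0) (𝓝 v) := by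
  have := (tendsto_th v).smul_const v
  rwa [one_smul] at this

theorem tendsto_Ph (v : E3) : Tendsto (fun ε => Ph ε v) (𝓝[>] 0) (𝓝 (‖v‖ ^ 2 / 2)) := by
  have h : Continuous (fun ε : ℝ => √(1 + ε * ‖v‖ ^ 2)) := by fun_prop
  have h1 : Tendsto (fun ε : ℝ => √(1 + ε * ‖v‖ ^ 2)) (𝓝[>] 0) (𝓝 (√(1 + 0 * ‖v‖ ^ 2))) :=
    (h.tendsto 0).mono_left nhdsWithin_le_nhds
  have h2 : √(1 + 0 * ‖v‖ ^ 2) = 1 := by simp
  rw [h2] at h1
  have h3 : Tendsto (fun ε => Ph ε v) (𝓝[>] 0) (𝓝 (‖v‖ ^ 2 / (1 + 1))) :=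
    (tendsto_const_nhds (x := ‖v‖ ^ 2)).div (tendsto_const_nhds.add h1) (by norm_num)
  norm_num at h3
  exact h3

theorem tendsto_eth (v : E3) (k : ℕ) : Tendsto (fun ε => ε * th ε v ^ k) (𝓝[>] 0) (𝓝 0) := by
  have h1 : Tendsto (fun ε : ℝ => ε) (𝓝[>] 0) (𝓝 0) := nhdsWithin_le_nhds
  have := h1.mul ((tendsto_th v).pow k)
  simpa using this

theorem tendsto_inner_dt (v : E3) (z : M3) :
    Tendsto (fun ε => ⟪z, dt ε v z⟫_ℝ) (𝓝[>] 0) (𝓝 (‖z‖ ^ 2)) := by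
  have h1 := ((tendsto_th v).mul_const (‖z‖ ^ 2)).sub
    ((tendsto_eth v 3).mul_const (‖mt z v‖ ^ 2))
  simp only [one_mul, zero_mul, sub_zero] at h1
  refine h1.congr fun ε => ?_
  rw [inner_dt]

end Pool.Agent.Y303.EA
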