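import Pool.Agent.H772R2.NS.Space3
import Pool.Agent.Y303.EA.Trn
import Pool.Agent.Y303.EA.Nem

/-!
Identities for the truncation of a field in `H¹_{0,σ}`.
-/

set_option autoImplicit false
set_option linter.unusedSectionVars false

open MeasureTheory Set Filter Topology
open scoped InnerProductSpace ENNReal ContDiff NNReal

namespace Pool.Agent.Y303.EA

open H772R2.NS

variable {Ω : Set E3} {φ : E3 → E3}

/-- integration by parts -/
theorem ibp (hΩ : IsOpen Ω) {ψ : E3 → ℝ} (hψ : ContDiffOn ℝ ∞ ψ Ω)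
    (h1 : ContDiff ℝ ∞ φ) (h2 : HasCompactSupport φ) (h3 : tsupport φ ⊆ Ω) :
    ∫ x in Ω, ((∑ i, fderiv ℝ ψ x (ev i) * φ x i) + ψ x * ∑ i, jac φ x (i, i)) = 0 := by
  set g : Fin 3 → E3 → ℝ := fun i x => ψ x * φ x i with hg
  have hoff : ∀ x, x ∉ Ω → ∀ i, g i =ᶠ[𝓝 x] 0 := by
    intro x hx i
    have h4 : x ∉ tsupport φ := fun h => hx (h3 h)
    filter_upwards [(isClosed_tsupport φ).isOpen_compl.mem_nhds h4] with y hy
    simp only [hg, Pi.zero_apply]
    rw [image_eq_zero_of_notMem_tsupport hy]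
    simp
  have hat : ∀ x ∈ Ω, ContDiffAt ℝ ∞ ψ x := fun x hx => hψ.contDiffAt (hΩ.mem_nhds hx)
  have hcd : ∀ i, ContDiff ℝ ∞ (g i) := by
    intro i
    rw [contDiff_iff_contDiffAt]
    intro x
    by_cases hx : x ∈ Ω
    · exact (hat x hx).mul (contDiff_coord h1 i).contDiffAt
    · exact contDiffAt_const.congr_of_eventuallyEq (hoff x hx i)
  have hcs : ∀ i, HasCompactSupport (g i) := fun i => (hasCompactSupport_coord h2 i).mul_left
  have hint : ∀ i, Integrable (fun x => fderiv ℝ (g i) x (ev i)) := fun i =>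
    (((hcd i).continuous_fderiv (by simp)).clm_apply
      continuous_const).integrable_of_hasCompactSupport ((hcs i).fderiv_apply ℝ (ev i))
  have hz : ∀ i, ∫ x, fderiv ℝ (g i) x (ev i) = 0 := by
    intro i
    have := integral_mul_fderiv_eq_neg_fderiv_mul_of_integrable (μ := volume) (v := ev i)
      (f := fun _ : E3 => (1 : ℝ)) (g := g i) (by simp) (by simpa using hint i)
      (by simpa using ((hcd i).continuous.integrable_of_hasCompactSupport (hcs i)))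
      (fun x _ => differentiableAt_const _)
      (fun x _ => ((hcd i).differentiable (by simp)) x)
    simpa using this
  have e1 : ∫ x in Ω, ((∑ i, fderiv ℝ ψ x (ev i) * φ x i) + ψ x * ∑ i, jac φ x (i, i))
      = ∫ x in Ω, ∑ i, fderiv ℝ (g i) x (ev i) := by
    refine setIntegral_congr_fun hΩ.measurableSet fun x hx => ?_
    simp only [Finset.mul_sum, ← Finset.sum_add_distrib]
    refine Finset.sum_congr rfl fun i _ => ?_
    have d1 : HasFDerivAt ψ (fderiv ℝ ψ x) x :=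
      ((hat x hx).differentiableAt (by simp)).hasFDerivAt
    have d2 : HasFDerivAt (fun y => φ y i) (fderiv ℝ (fun y => φ y i) x) x :=
      (((contDiff_coord h1 i).differentiable (by simp)) x).hasFDerivAt
    have d3 : fderiv ℝ (g i) x = _ := (d1.mul d2).fderiv
    rw [d3]
    simp only [add_apply, smul_apply, smul_eq_mul]
    rw [fderiv_coord h1, jac_apply]
    ring
  rw [e1, setIntegral_eq_integral_of_forall_compl_eq_zero, integral_finsetSum _ fun i _ => hint i]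
  · simp only [hz, Finset.sum_const_zero]
  · intro x hx
    refine Finset.sum_eq_zero fun i _ => ?_
    rw [(hoff x hx i).fderiv_eq]
    simp

/-- the gradient of a function -/
noncomputable def grd (ψ : E3 → ℝ) (x : E3) : E3 := WithLp.toLp 2 fun i => fderiv ℝ ψ x (ev i)

theorem grd_apply (ψ : E3 → ℝ) (x : E3) (i : Fin 3) : grd ψ x i = fderiv ℝ ψ x (ev i) := rfl

/-- integration by parts, with inner products -/
theorem ibp' (hΩ : IsOpen Ω) {ψ : E3 → ℝ} (hψ : ContDiffOn ℝ ∞ ψ Ω)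
    (h1 : ContDiff ℝ ∞ φ) (h2 : HasCompactSupport φ) (h3 : tsupport φ ⊆ Ω) :
    ∫ x in Ω, (⟪grd ψ x, φ x⟫_ℝ + ψ x * ∑ i, jac φ x (i, i)) = 0 := by
  have := ibp hΩ hψ h1 h2 h3
  simpa only [inner_E3, grd_apply] using this

theorem nem2 {P : Type*} [TopologicalSpace P] {h : E3 → P}
    (hh : AEStronglyMeasurable h (volume.restrict Ω)) {f : P → E3 × M3 → ℝ}
    (hf : Continuous (fun q : P × (E3 × M3) => f q.1 q.2)) {g : E3 → ℝ}
    (hg : Integrable g (volume.restrict Ω)) {C : ℝ}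
    (hbd : ∀ᵐ x ∂(volume.restrict Ω), ∀ a b, |f (h x) (a, b)| ≤ g x + C * (‖a‖ ^ 2 + ‖b‖ ^ 2)) :
    Continuous fun p : L2V Ω × L2M Ω => ∫ x in Ω, f (h x) (p.1 x, p.2 x) := by
  have h1 := nem (E := E3) (F := M3) (K := ℝ) (K' := ℝ) hh
    (f := fun y q => f y (q.1, q.2.1)) (g := g) (C := max C 0) (by fun_prop) hg (by
      filter_upwards [hbd] with x hx a b c d
      refine (hx a b).trans ?_
      have h1 : C * (‖a‖ ^ 2 + ‖b‖ ^ 2) ≤ max C 0 * (‖a‖ ^ 2 + ‖b‖ ^ 2) := by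
        gcongr
        exact le_max_left _ _
      have h2 : max C 0 * (‖a‖ ^ 2 + ‖b‖ ^ 2)
          ≤ max C 0 * (‖a‖ ^ 2 + ‖b‖ ^ 2 + ‖c‖ + ‖d‖) := by
        refine mul_le_mul_of_nonneg_left ?_ (le_max_right C 0)
        linarith [norm_nonneg c, norm_nonneg d]
      linarith)
  exact h1.comp (by fun_prop : Continuous fun p : L2V Ω × L2M Ω =>
    ((p.1, p.2, 0, 0) : L2V Ω × L2M Ω × Lp ℝ 1 (volume.restrict Ω) × Lp ℝ 1 (volume.restrict Ω)))

theorem div_Tst (hp : IsTest Ω φ) (ε : ℝ) (x : E3) :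
    ∑ i, dt ε (φ x) (jac φ x) (i, i) = - (ε * th ε (φ x) ^ 3 * ⟪jac φ x, tens (φ x)⟫_ℝ) := by
  rw [trace_dt, hp.divfree, mul_zero, zero_sub]

/-- the trace of the gradient vanishes -/
theorem trace_zero {p : L2V Ω × L2M Ω} (hp : p ∈ graphW Ω) :
    ∀ᵐ x ∂(volume.restrict Ω), ∑ i, p.2 x (i, i) = 0 := by
  have hcont := nem2 (Ω := Ω) (P := ℝ) (h := fun _ => 0) aestronglyMeasurable_const
    (f := fun _ q => (∑ i, q.2 (i, i)) ^ 2) (g := 0) (C := 3) (by fun_prop)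
    (integrable_zero _ _ _) (Eventually.of_forall fun x a b => by
      rw [abs_of_nonneg (sq_nonneg _), norm_sq_M3]
      simp only [Fin.sum_univ_three, Pi.zero_apply]
      nlinarith [sq_nonneg ‖a‖, sq_nonneg (b (0, 0) - b (1, 1)), sq_nonneg (b (0, 0) - b (2, 2)),
        sq_nonneg (b (1, 1) - b (2, 2)), sq_nonneg (b (0, 1)), sq_nonneg (b (0, 2)),
        sq_nonneg (b (1, 0)), sq_nonneg (b (1, 2)), sq_nonneg (b (2, 0)), sq_nonneg (b (2, 1))])
  have h0 := graphW_induction (fun p : L2V Ω × L2M Ω => ∫ x in Ω, (∑ i, p.2 x (i, i)) ^ 2)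
    hcont.continuousOn (by
      rintro q ⟨ψ, k1, k2, k3⟩
      refine integral_eq_zero_of_ae ?_
      filter_upwards [k3] with x hx
      rw [hx, k1.divfree]
      simp) hp
  have hi : Integrable (fun x => (∑ i, p.2 x (i, i)) ^ 2) (volume.restrict Ω) := by
    refine ((integrable_norm_sq p.2).const_mul 3).mono'
      ((by fun_prop : Continuous fun z : M3 => (∑ i, z (i, i)) ^ 2).comp_aestronglyMeasurable
        (Lp.aestronglyMeasurable _)) (Eventually.of_forall fun x => ?_)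
    rw [Real.norm_of_nonneg (sq_nonneg _), norm_sq_M3]
    generalize p.2 x = b
    simp only [Fin.sum_univ_three]
    nlinarith [sq_nonneg (b (0, 0) - b (1, 1)), sq_nonneg (b (0, 0) - b (2, 2)),
        sq_nonneg (b (1, 1) - b (2, 2)), sq_nonneg (b (0, 1)), sq_nonneg (b (0, 2)),
        sq_nonneg (b (1, 0)), sq_nonneg (b (1, 2)), sq_nonneg (b (2, 0)), sq_nonneg (b (2, 1))]
  have h1 := (integral_eq_zero_iff_of_nonneg (fun x => sq_nonneg _) hi).1 h0
  filter_upwards [h1] with x hx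
  exact pow_eq_zero_iff (two_ne_zero) |>.1 hx

theorem cd_Ph {ε : ℝ} (hε : 0 < ε) : ContDiff ℝ ∞ (Ph ε) := by
  have h1 : Ph ε = fun v => (aa ε v - 1) / ε := by
    funext v
    rw [eq_div_iff hε.ne', mul_comm]
    exact Ph_eq hε v
  rw [h1]
  unfold aa
  refine ((ContDiff.sqrt (contDiff_const.add (contDiff_const.mul
    (contDiff_norm_sq ℝ))) fun x => ?_).sub contDiff_const).div_const ε
  positivity

theorem hasDeriv_Ph {ε : ℝ} (hε : 0 < ε) (v : E3) :
    HasFDerivAt (Ph ε) (innerSL ℝ (Tr ε v)) v := by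
  have h0 : Ph ε = fun v => (aa ε v - 1) / ε := by
    funext v
    rw [eq_div_iff hε.ne', mul_comm]
    exact Ph_eq hε v
  have h1 : HasFDerivAt (fun x : E3 => 1 + ε * ‖x‖ ^ 2) (ε • ((2 : ℝ) • innerSL ℝ v)) v := by
    have h2 : HasFDerivAt (fun x : E3 => ‖x‖ ^ 2) ((2 : ℝ) • innerSL ℝ v) v := by
      have := (hasStrictFDerivAt_norm_sq v).hasFDerivAt
      exact_mod_cast this
    exact (h2.const_mul ε).const_add 1
  have h3 := aa_pos hε.le v
  have h4 : (1 + ε * ‖v‖ ^ 2) ≠ 0 := by positivity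
  have h5 := h1.sqrt h4
  have h6 : HasFDerivAt (fun v => (aa ε v - 1) / ε) _ v := ((h5.sub_const 1).mul_const ε⁻¹)
  rw [h0]
  refine h6.congr_fderiv ?_
  ext x
  simp only [smul_apply, innerSL_apply_apply, smul_eq_mul]
  rw [Tr, real_inner_smul_left, ← aa]
  have h7 : th ε v = (aa ε v)⁻¹ := rfl
  rw [h7]
  field_simp

/-- the gauge identity -/
theorem gauge (hΩ : IsOpen Ω) {ε : ℝ} (hε : 0 < ε) {p : L2V Ω × L2M Ω} (hp : p ∈ graphW Ω) :
    ∫ x in Ω, th ε (p.1 x) * ⟪p.2 x, tens (p.1 x)⟫_ℝ = 0 := by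
  have hth := cont_th hε.le
  have htens := continuous_tens
  have hcont := nem2 (Ω := Ω) (P := ℝ) (h := fun _ => 0) aestronglyMeasurable_const
    (f := fun _ q => th ε q.1 * ⟪q.2, tens q.1⟫_ℝ) (g := 0) (C := 1 / √ε) (by fun_prop)
    (integrable_zero _ _ _) (Eventually.of_forall fun x a b => by
      have h1 : th ε a * ⟪b, tens a⟫_ℝ = ⟪mv b a, Tr ε a⟫_ℝ := by
        rw [Tr, real_inner_smul_right, inner_mv]
      rw [h1, Pi.zero_apply, zero_add]
      refine (abs_real_inner_le_norm _ _).trans ?_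
      have h2 := norm_mv_le b a
      have h3 := norm_Tr_le' hε a
      calc ‖mv b a‖ * ‖Tr ε a‖ ≤ (‖b‖ * ‖a‖) * (1 / √ε) := by gcongr
        _ ≤ 1 / √ε * (‖a‖ ^ 2 + ‖b‖ ^ 2) := by
          rw [mul_comm]
          gcongr
          nlinarith [sq_nonneg (‖a‖ - ‖b‖), sq_nonneg ‖a‖, sq_nonneg ‖b‖])
  refine graphW_induction (fun p : L2V Ω × L2M Ω =>
    ∫ x in Ω, th ε (p.1 x) * ⟪p.2 x, tens (p.1 x)⟫_ℝ) hcont.continuousOn ?_ hp
  rintro q ⟨φ, k1, k2, k3⟩
  have h1 := ibp' hΩ (ψ := fun x => Ph ε (φ x)) ((cd_Ph hε).comp k1.smooth).contDiffOn k1.smooth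
    k1.compact k1.supp
  simp only [k1.divfree, mul_zero, add_zero] at h1
  rw [← h1]
  refine integral_congr_ae ?_
  filter_upwards [k2, k3] with x h2 h3
  rw [h2, h3]
  have h4 : HasFDerivAt (fun x => Ph ε (φ x)) _ x :=
    (hasDeriv_Ph hε (φ x)).comp x ((k1.smooth.differentiable (by simp)) x).hasFDerivAt
  have h5 : grd (fun x => Ph ε (φ x)) x = th ε (φ x) • mt (jac φ x) (φ x) := by
    ext i
    rw [grd_apply, h4.fderiv]
    simp only [ContinuousLinearMap.comp_apply, innerSL_apply_apply, PiLp.smul_apply, smul_eq_mul]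
    rw [Tr, real_inner_smul_left, inner_E3, mt_apply]
    congr 1
    refine Finset.sum_congr rfl fun j _ => ?_
    rw [jac_apply]
    ring
  rw [h5, real_inner_smul_left, inner_mt]

/-- the convective term -/
theorem convec (hΩ : IsOpen Ω) {p : L2V Ω × L2M Ω} (hp : p ∈ graphW Ω) {ψ : E3 → E3}
    (h1 : ContDiff ℝ ∞ ψ) (h2 : HasCompactSupport ψ) :
    ∫ x in Ω, (⟪tens (p.1 x), jac ψ x⟫_ℝ + ⟪mv (p.2 x) (p.1 x), ψ x⟫_ℝ) = 0 := by
  have hj := continuous_jac h1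
  have htens := continuous_tens
  have hmv := cont_mv
  obtain ⟨A, hA⟩ := h1.continuous.bounded_above_of_compact_support h2
  obtain ⟨B, hB⟩ := hj.bounded_above_of_compact_support (hasCompactSupport_jac h2)
  have hA0 : 0 ≤ A := (norm_nonneg _).trans (hA 0)
  have hB0 : 0 ≤ B := (norm_nonneg _).trans (hB 0)
  have hcont := nem2 (Ω := Ω) (P := E3 × M3) (h := fun x => (ψ x, jac ψ x))
    ((h1.continuous.prodMk hj).aestronglyMeasurable)
    (f := fun y q => ⟪tens q.1, y.2⟫_ℝ + ⟪mv q.2 q.1, y.1⟫_ℝ) (g := 0) (C := A + B)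
    (by
      have h3 : Continuous fun q : (E3 × M3) × (E3 × M3) => mv q.2.2 q.2.1 :=
        hmv.comp (by fun_prop : Continuous fun q : (E3 × M3) × (E3 × M3) => (q.2.2, q.2.1))
      fun_prop)
    (integrable_zero _ _ _) (Eventually.of_forall fun x a b => by
      simp only [Pi.zero_apply, zero_add]
      refine (abs_add_le _ _).trans ?_
      have e1 : |⟪tens a, jac ψ x⟫_ℝ| ≤ ‖a‖ ^ 2 * B := by
        refine (abs_real_inner_le_norm _ _).trans ?_
        rw [norm_tens]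
        gcongr
        exact hB x
      have e2 : |⟪mv b a, ψ x⟫_ℝ| ≤ ‖b‖ * ‖a‖ * A := by
        refine (abs_real_inner_le_norm _ _).trans ?_
        gcongr
        · exact norm_mv_le b a
        · exact hA x
      have e3 : ‖b‖ * ‖a‖ * A ≤ A * (‖a‖ ^ 2 + ‖b‖ ^ 2) := by
        rw [mul_comm]
        gcongr
        nlinarith [sq_nonneg (‖a‖ - ‖b‖), sq_nonneg ‖a‖, sq_nonneg ‖b‖]
      have e4 : ‖a‖ ^ 2 * B ≤ B * (‖a‖ ^ 2 + ‖b‖ ^ 2) := by
        nlinarith [mul_nonneg hB0 (sq_nonneg ‖b‖)]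
      nlinarith)
  refine graphW_induction (fun p : L2V Ω × L2M Ω =>
    ∫ x in Ω, (⟪tens (p.1 x), jac ψ x⟫_ℝ + ⟪mv (p.2 x) (p.1 x), ψ x⟫_ℝ)) hcont.continuousOn ?_ hp
  rintro q ⟨φ, k1, k2, k3⟩
  have hcd : ContDiff ℝ ∞ (fun x => ⟪φ x, ψ x⟫_ℝ) := k1.smooth.inner ℝ h1
  have h3 := ibp' hΩ (ψ := fun x => ⟪φ x, ψ x⟫_ℝ) hcd.contDiffOn k1.smooth
    k1.compact k1.supp
  simp only [k1.divfree, mul_zero, add_zero] at h3
  rw [← h3]
  refine integral_congr_ae ?_
  filter_upwards [k2, k3] with x h4 h5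
  rw [h4, h5]
  have h6 : HasFDerivAt φ (fderiv ℝ φ x) x := ((k1.smooth.differentiable (by simp)) x).hasFDerivAt
  have h7 : HasFDerivAt ψ (fderiv ℝ ψ x) x := ((h1.differentiable (by simp)) x).hasFDerivAt
  have h8 := (h6.inner ℝ h7).fderiv
  have h9 : ∀ i, grd (fun x => ⟪φ x, ψ x⟫_ℝ) x i
      = ∑ k, (φ x k * jac ψ x (k, i) + jac φ x (k, i) * ψ x k) := by
    intro i
    rw [grd_apply, h8]
    simp only [ContinuousLinearMap.comp_apply, ContinuousLinearMap.prod_apply,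
      fderivInnerCLM_apply, inner_E3]
    rw [← Finset.sum_add_distrib]
    rfl
  rw [inner_E3 (grd _ _), inner_M3, inner_E3]
  simp only [h9, tens_apply, mv_apply, Fin.sum_univ_three]
  ring

/-- extension of an identity for smooth fields to truncations -/
theorem ext_id {ε : ℝ} (hε : 0 < ε) {d : L2V Ω} {A : L2M Ω}
    {R : Lp E3 1 (volume.restrict Ω)}
    (h : ∀ ψ : E3 → E3, ContDiff ℝ ∞ ψ → HasCompactSupport ψ → tsupport ψ ⊆ Ω →
      ∫ x in Ω, (⟪d x, ψ x⟫_ℝ - ⟪A x, jac ψ x⟫_ℝ + ⟪R x, ψ x⟫_ℝ) = 0)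
    {p : L2V Ω × L2M Ω} (hp : p ∈ graphW Ω) :
    ∫ x in Ω, (⟪d x, Tr ε (p.1 x)⟫_ℝ - ⟪A x, dt ε (p.1 x) (p.2 x)⟫_ℝ
      + ⟪R x, Tr ε (p.1 x)⟫_ℝ) = 0 := by
  have hTr := cont_Tr hε.le
  have hdt := cont_dt hε.le
  have hcont := nem2 (Ω := Ω) (P := E3 × M3 × E3) (h := fun x => (d x, A x, R x))
    ((Lp.aestronglyMeasurable _).prodMk ((Lp.aestronglyMeasurable _).prodMk
      (Lp.aestronglyMeasurable _)))
    (f := fun y q => ⟪y.1, Tr ε q.1⟫_ℝ - ⟪y.2.1, dt ε q.1 q.2⟫_ℝ + ⟪y.2.2, Tr ε q.1⟫_ℝ)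
    (g := fun x => ‖d x‖ ^ 2 + ‖A x‖ ^ 2 + ‖R x‖ * (1 / √ε)) (C := 1)
    (by
      have h3 : Continuous fun q : (E3 × M3 × E3) × (E3 × M3) => dt ε q.2.1 q.2.2 :=
        hdt.comp (by fun_prop : Continuous fun q : (E3 × M3 × E3) × (E3 × M3) =>
          (q.2.1, q.2.2))
      fun_prop)
    (((integrable_norm_sq d).add (integrable_norm_sq A)).add
      ((integrable_norm_one R).mul_const _)) (Eventually.of_forall fun x a b => by
      have e1 : |⟪d x, Tr ε a⟫_ℝ| ≤ ‖d x‖ * ‖a‖ := by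
        refine (abs_real_inner_le_norm _ _).trans ?_
        gcongr
        exact norm_Tr_le hε.le a
      have e2 : |⟪A x, dt ε a b⟫_ℝ| ≤ ‖A x‖ * ‖b‖ := by
        refine (abs_real_inner_le_norm _ _).trans ?_
        gcongr
        exact norm_dt_le hε.le a b
      have e3 : |⟪R x, Tr ε a⟫_ℝ| ≤ ‖R x‖ * (1 / √ε) := by
        refine (abs_real_inner_le_norm _ _).trans ?_
        gcongr
        exact norm_Tr_le' hε a
      refine (abs_add_le _ _).trans ?_
      have e4 := abs_sub (⟪d x, Tr ε a⟫_ℝ) (⟪A x, dt ε a b⟫_ℝ)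
      nlinarith [sq_nonneg (‖d x‖ - ‖a‖), sq_nonneg (‖A x‖ - ‖b‖), sq_nonneg ‖a‖, sq_nonneg ‖b‖,
        sq_nonneg ‖d x‖, sq_nonneg ‖A x‖])
  refine graphW_induction (fun p : L2V Ω × L2M Ω =>
    ∫ x in Ω, (⟪d x, Tr ε (p.1 x)⟫_ℝ - ⟪A x, dt ε (p.1 x) (p.2 x)⟫_ℝ
      + ⟪R x, Tr ε (p.1 x)⟫_ℝ)) hcont.continuousOn ?_ hp
  rintro q ⟨φ, k1, k2, k3⟩
  have h1 := h (fun x => Tr ε (φ x)) ((cd_Tr hε.le).comp k1.smooth)
    (k1.compact.comp_left (Tr_zero ε)) (supp_Tr.trans k1.supp)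
  rw [← h1]
  refine integral_congr_ae ?_
  filter_upwards [k2, k3] with x h2 h3
  rw [h2, h3, jac_Tr hε.le k1.smooth]

end Pool.Agent.Y303.EA
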