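import Pool.Agent.Y303.EA.Lim

/-!
The balance of energy and the work of the pressure.
-/

set_option autoImplicit false
set_option linter.unusedSectionVars false

open MeasureTheory Set Filter Topology
open scoped InnerProductSpace ENNReal ContDiff NNReal

namespace Pool.Agent.Y303.EA

open H772R2.NS

variable {Ω : Set E3} {ν T : ℝ} {u : ℝ → L2V Ω} {G : ℝ → L2M Ω} {f : ℝ → L2V Ω}
  {q : ℝ → Lp E3 1 ((volume : Measure E3).restrict Ω)}

/-- the equation with the gradient of the pressure -/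
def PEq (Ω : Set E3) (ν T : ℝ) (u : ℝ → L2V Ω) (G : ℝ → L2M Ω) (f : ℝ → L2V Ω)
    (q : ℝ → Lp E3 1 ((volume : Measure E3).restrict Ω)) : Prop :=
  ∀ ψ : E3 → E3, ContDiff ℝ ∞ ψ → HasCompactSupport ψ → tsupport ψ ⊆ Ω →
    ∀ a ∈ Ioc 0 T, ∀ b ∈ Icc a T,
    (∫ x in Ω, ⟪u b x, ψ x⟫_ℝ) - (∫ x in Ω, ⟪u a x, ψ x⟫_ℝ)
      = ∫ t in a..b, ((∫ x in Ω, ⟪u t x, fderiv ℝ ψ x (u t x)⟫_ℝ)
        - ν * (∫ x in Ω, ⟪G t x, jac ψ x⟫_ℝ) + (∫ x in Ω, ⟪f t x, ψ x⟫_ℝ)
        - ∫ x in Ω, ⟪q t x, ψ x⟫_ℝ)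

theorem inner_fderiv_tens (ψ : E3 → E3) (x w : E3) :
    ⟪w, fderiv ℝ ψ x w⟫_ℝ = ⟪tens w, jac ψ x⟫_ℝ := by
  have hw : w = ∑ j, w j • ev j := by
    ext i
    simp [Pi.single_apply]
  have h1 : ∀ i, fderiv ℝ ψ x w i = ∑ j, w j * jac ψ x (i, j) := by
    intro i
    conv_lhs => rw [hw]
    rw [map_sum]
    simp only [map_smul, PiLp.smul_apply, smul_eq_mul, WithLp.ofLp_sum, Finset.sum_apply,
      jac_apply]
  rw [inner_E3, inner_M3]
  refine Finset.sum_congr rfl fun i _ => ?_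
  rw [h1, Finset.mul_sum]
  refine Finset.sum_congr rfl fun j _ => ?_
  rw [tens_apply]
  ring

/-- the right hand side, with the convective term moved to the pressure -/
theorem rhs_FF (hΩ : IsOpen Ω) {p : L2V Ω × L2M Ω} (hp : p ∈ graphW Ω) (f : L2V Ω)
    (Q : Lp E3 1 ((volume : Measure E3).restrict Ω)) {ψ : E3 → E3} (h1 : ContDiff ℝ ∞ ψ)
    (h2 : HasCompactSupport ψ) :
    (∫ x in Ω, ⟪p.1 x, fderiv ℝ ψ x (p.1 x)⟫_ℝ) - ν * (∫ x in Ω, ⟪p.2 x, jac ψ x⟫_ℝ)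
      + (∫ x in Ω, ⟪f x, ψ x⟫_ℝ) - (∫ x in Ω, ⟪Q x, ψ x⟫_ℝ)
      = FF Ω ν f p.2 (mvL p.2 p.1 + Q) ψ (jac ψ) := by
  obtain ⟨C, hC⟩ := h1.continuous.bounded_above_of_compact_support h2
  obtain ⟨B, hB⟩ := (continuous_jac h1).bounded_above_of_compact_support
    (hasCompactSupport_jac h2)
  obtain ⟨l1, l2, l3, e, a1, a2, a3, b1, b2, b3, c1, c2, c3⟩ := FF_clm (Ω := Ω) (ν := ν)
    (h1.continuous.memLp_of_hasCompactSupport h2) hC
    ((continuous_jac h1).memLp_of_hasCompactSupport (hasCompactSupport_jac h2))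
  have k1 := convec hΩ hp h1 h2
  have k2 : ∀ᵐ x ∂(volume.restrict Ω), ⟪(mvL p.2 p.1) x, ψ x⟫_ℝ
      = ⟪mv (p.2 x) (p.1 x), ψ x⟫_ℝ := by
    filter_upwards [mvL_coe p.2 p.1] with x hx
    rw [hx]
  have i1 : Integrable (fun x => ⟪mv (p.2 x) (p.1 x), ψ x⟫_ℝ) (volume.restrict Ω) :=
    (c3 (mvL p.2 p.1)).congr k2
  have i2 : Integrable (fun x => ⟪tens (p.1 x), jac ψ x⟫_ℝ) (volume.restrict Ω) := by
    refine ((integrable_norm_sq p.1).mul_const B).mono'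
      ((continuous_tens.comp_aestronglyMeasurable (Lp.aestronglyMeasurable _)).inner
        (continuous_jac h1).aestronglyMeasurable) (Eventually.of_forall fun x => ?_)
    refine (norm_inner_le_norm _ _).trans ?_
    rw [norm_tens]
    gcongr
    exact hB x
  rw [integral_add i2 i1] at k1
  simp only [inner_fderiv_tens]
  rw [e, map_add, a1, a2, a3, a3, integral_congr_ae k2]
  linarith

theorem mk_sys (hΩ : IsOpen Ω) (hν : 0 ≤ ν) (h : H772R2.NS.IsWeakSolution Ω ν T u G f)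
    (hq : ∀ s ∈ Ioo 0 T, IntegrableOn q (Ioo s T)) (heq : PEq Ω ν T u G f q) {s : ℝ}
    (hs : s ∈ Ioo 0 T) :
    ∃ M, Sys Ω ν s T M u G f (fun t => mvL (G t) (u t) + q t) := by
  obtain ⟨M, hM⟩ := h.bdd
  have hsub : Ioo s T ⊆ Ioo 0 T := fun x hx => ⟨hs.1.trans hx.1, hx.2⟩
  have hsub' : Ioc s T ⊆ Icc 0 T := fun x hx => ⟨(hs.1.trans hx.1).le, hx.2⟩
  have hres : (volume : Measure ℝ).restrict (Ioc s T) = volume.restrict (Ioo s T) :=
    (Measure.restrict_congr_set Ioo_ae_eq_Ioc).symm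
  have hle : (volume : Measure ℝ).restrict (Ioc s T) ≤ volume.restrict (Ioo 0 T) := by
    rw [hres]
    exact Measure.restrict_mono hsub le_rfl
  have hmeas : AEStronglyMeasurable u (volume.restrict (Ioc s T)) := h.meas.mono_measure hle
  have hG : MemLp G 2 (volume.restrict (Ioc s T)) := h.gradL2.mono_measure hle
  have hgr : ∀ᵐ t ∂(volume.restrict (Ioc s T)), (u t, G t) ∈ graphW Ω := by
    filter_upwards [ae_mono hle h.grad] with t ht
    exact mem_graphW.2 ht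
  have hr : IntegrableOn (fun t => mvL (G t) (u t) + q t) (Ioc s T) := by
    have h1 : IntegrableOn (fun t => mvL (G t) (u t)) (Ioc s T) := by
      have hG1 : IntegrableOn G (Ioc s T) := hG.integrable (by norm_num)
      refine (hG1.norm.mul_const M).mono' (mvL_meas hG.1 hmeas) ?_
      filter_upwards [ae_restrict_mem measurableSet_Ioc] with t ht
      refine (norm_mvL_le _ _).trans ?_
      gcongr
      exact hM t (hsub' ht)
    have h2 : IntegrableOn q (Ioc s T) := by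
      unfold IntegrableOn
      rw [hres]
      exact hq s hs
    exact h1.add h2
  refine ⟨M, hν, hs.2, hmeas, fun t ht => hM t (hsub' ht), fun v => (h.wcont v).mono hsub', hgr,
    hG, Integrable.mono_measure h.force hle, hr, fun ψ h1 h2 h3 a ha b hb hab => ?_⟩
  have ha0 : a ∈ Ioc 0 T := ⟨hs.1.trans ha.1, ha.2⟩
  have key := heq ψ h1 h2 h3 a ha0 b ⟨hab, hb.2⟩
  have e1 : ∫ x in Ω, ⟪(u b - u a) x, ψ x⟫_ℝ
      = (∫ x in Ω, ⟪u b x, ψ x⟫_ℝ) - ∫ x in Ω, ⟪u a x, ψ x⟫_ℝ := by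
    obtain ⟨l, e, _, _⟩ := fun2 (μ := (volume : Measure E3).restrict Ω)
      (h1.continuous.memLp_of_hasCompactSupport h2)
    rw [← e, ← e, ← e, map_sub]
  rw [e1, key]
  refine intervalIntegral.integral_congr_ae ?_
  filter_upwards [(ae_restrict_iff' measurableSet_Ioc).1 hgr] with t ht hmem
  exact rhs_FF hΩ (ht (uIoc_sub ha hb hmem)) (f t) (q t) h1 h2

theorem fu_int (h : H772R2.NS.IsWeakSolution Ω ν T u G f) {a b : ℝ} (ha : a ∈ Icc 0 T)
    (hb : b ∈ Icc 0 T) : IntervalIntegrable (fun t => ⟪f t, u t⟫_ℝ) volume a b := by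
  obtain ⟨M, hM⟩ := h.bdd
  have h1 : IntegrableOn (fun t => ⟪f t, u t⟫_ℝ) (Ioo 0 T) := by
    refine (h.force.norm.mul_const M).mono' (h.force.1.inner h.meas) ?_
    filter_upwards [ae_restrict_mem measurableSet_Ioo] with t ht
    refine (norm_inner_le_norm _ _).trans ?_
    gcongr
    exact hM t (Ioo_subset_Icc_self ht)
  rw [intervalIntegrable_iff]
  have h2 : IntegrableOn (fun t => ⟪f t, u t⟫_ℝ) (Icc 0 T) := by
    rwa [integrableOn_Icc_iff_integrableOn_Ioo]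
  refine h2.mono_set fun x hx => ?_
  rw [Set.mem_uIoc] at hx
  rcases hx with h | h
  · exact ⟨ha.1.trans h.1.le, h.2.trans hb.2⟩
  · exact ⟨hb.1.trans h.1.le, h.2.trans ha.2⟩

theorem G_int (h : H772R2.NS.IsWeakSolution Ω ν T u G f) {a b : ℝ} (ha : a ∈ Icc 0 T)
    (hb : b ∈ Icc 0 T) : IntervalIntegrable (fun t => ‖G t‖ ^ 2) volume a b := by
  have h1 : IntegrableOn (fun t => ‖G t‖ ^ 2) (Ioo 0 T) := h.gradL2.norm.integrable_sq
  rw [intervalIntegrable_iff]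
  have h2 : IntegrableOn (fun t => ‖G t‖ ^ 2) (Icc 0 T) := by
    rwa [integrableOn_Icc_iff_integrableOn_Ioo]
  refine h2.mono_set fun x hx => ?_
  rw [Set.mem_uIoc] at hx
  rcases hx with h | h
  · exact ⟨ha.1.trans h.1.le, h.2.trans hb.2⟩
  · exact ⟨hb.1.trans h.1.le, h.2.trans ha.2⟩

theorem defect_sub (hT : 0 < T) (h : H772R2.NS.IsWeakSolution Ω ν T u G f) {a b : ℝ}
    (ha : a ∈ Icc 0 T) (hb : b ∈ Icc 0 T) :
    energyDefect ν u G f b - energyDefect ν u G f a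
      = (∫ t in a..b, (⟪f t, u t⟫_ℝ - ν * ‖G t‖ ^ 2)) - (‖u b‖ ^ 2 / 2 - ‖u a‖ ^ 2 / 2) := by
  have h0 : (0 : ℝ) ∈ Icc 0 T := ⟨le_rfl, hT.le⟩
  rw [intervalIntegral.integral_sub (fu_int h ha hb) ((G_int h ha hb).const_mul ν),
    intervalIntegral.integral_const_mul]
  have e1 := intervalIntegral.integral_add_adjacent_intervals (fu_int h h0 ha) (fu_int h ha hb)
  have e2 := intervalIntegral.integral_add_adjacent_intervals (G_int h h0 ha) (G_int h ha hb)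
  unfold energyDefect
  rw [← e1, ← e2]
  ring

/-- the limit of the truncated work is the increment of the defect -/
theorem ea_lim (hΩ : IsOpen Ω) (hν : 0 ≤ ν) (hT : 0 < T)
    (h : H772R2.NS.IsWeakSolution Ω ν T u G f)
    (hq : ∀ s ∈ Ioo 0 T, IntegrableOn q (Ioo s T)) (heq : PEq Ω ν T u G f q) (c : ℝ) {a b : ℝ}
    (ha : a ∈ Ioc 0 T) (hb : b ∈ Ioc 0 T) :
    Tendsto (fun ε => ∫ t in a..b, We Ω ε c u G q t) (𝓝[>] 0)
      (𝓝 (energyDefect ν u G f b - energyDefect ν u G f a)) := by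
  set s : ℝ := min a b / 2 with hs
  have hm0 : 0 < min a b := lt_min ha.1 hb.1
  have hs0 : s ∈ Ioo 0 T := ⟨by positivity, by
    have := (min_le_left a b).trans ha.2
    linarith⟩
  have has : a ∈ Ioc s T := ⟨by have := min_le_left a b; linarith, ha.2⟩
  have hbs : b ∈ Ioc s T := ⟨by have := min_le_right a b; linarith, hb.2⟩
  obtain ⟨M, S⟩ := mk_sys hΩ hν h hq heq hs0
  rw [defect_sub hT h ⟨ha.1.le, ha.2⟩ ⟨hb.1.le, hb.2⟩]
  exact S.lim hΩ c has hbs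

/-- one-sided bounds -/
theorem ea_one (hΩ : IsOpen Ω) [IsFiniteMeasure ((volume : Measure E3).restrict Ω)] (hν : 0 ≤ ν)
    (hT : 0 < T) (h : H772R2.NS.IsWeakSolution Ω ν T u G f)
    (hq : ∀ s ∈ Ioo 0 T, IntegrableOn q (Ioo s T)) (heq : PEq Ω ν T u G f q) {a b : ℝ}
    (ha : a ∈ Ioc 0 T) (hb : b ∈ Icc a T) {g k : ℝ → ℝ} (hg : IntegrableOn g (Ioo a b))
    (hk : MemLp k 2 (volume.restrict (Ioo a b)))
    (hN : ∀ᵐ t ∂(volume.restrict (Ioo a b)), ∃ (c : ℝ)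
      (P : Lp ℝ 1 ((volume : Measure E3).restrict Ω)) (R : ℝ≥0∞), (P, q t) ∈ W11 Ω ∧
      ∫⁻ x in Ω, (min R ‖hd c (u t x) (P x)‖ₑ) ^ 2 ≤ ENNReal.ofReal (k t ^ 2) ∧
      ∫⁻ x in {x ∈ Ω | R < ‖hd c (u t x) (P x)‖ₑ},
        ENNReal.ofReal (-(wk c (u t x) (G t x) (q t x))) ≤ ENNReal.ofReal (g t)) :
    energyDefect ν u G f a = energyDefect ν u G f b := by
  have hs0 : a / 2 ∈ Ioo 0 T := ⟨by linarith [ha.1], by linarith [ha.1, ha.2]⟩
  have has : a ∈ Ioc (a / 2) T := ⟨by linarith [ha.1], ha.2⟩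
  have hbs : b ∈ Ioc (a / 2) T := ⟨by linarith [ha.1, hb.1], hb.2⟩
  obtain ⟨M, S⟩ := mk_sys hΩ hν h hq heq hs0
  have hres : (volume : Measure ℝ).restrict (Ioc a b) = volume.restrict (Ioo a b) :=
    (Measure.restrict_congr_set Ioo_ae_eq_Ioc).symm
  have key := S.zero hΩ has hbs hb.1 (g := g) (k := k)
    (by unfold IntegrableOn; rw [hres]; exact hg) (by rw [hres]; exact hk)
    (by rw [hres]; exact hN)
  have ha' : a ∈ Icc 0 T := ⟨ha.1.le, ha.2⟩
  have hb' : b ∈ Icc 0 T := ⟨ha.1.le.trans hb.1, hb.2⟩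
  have e := defect_sub hT h ha' hb'
  linarith

/-- constancy of the defect and the energy inequality give the energy equality -/
theorem ea_eq (hT : 0 < T) (h : H772R2.NS.IsWeakSolution Ω ν T u G f)
    (hν : 0 ≤ ν) (hen : ∀ t ∈ Icc 0 T, 0 ≤ energyDefect ν u G f t)
    (hc : ∀ a ∈ Ioc 0 T, energyDefect ν u G f a = energyDefect ν u G f T) :
    ∀ t ∈ Icc 0 T, energyDefect ν u G f t = 0 := by
  have h00 : energyDefect ν u G f 0 = 0 := by simp [energyDefect]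
  have hTm : T ∈ Icc 0 T := ⟨hT.le, le_rfl⟩
  have h0m : (0 : ℝ) ∈ Icc 0 T := ⟨le_rfl, hT.le⟩
  set w : ℝ → ℝ := (Ioc 0 T).indicator (fun t => |⟪f t, u t⟫_ℝ|) with hw
  have hwi : Integrable w := by
    have h1 := (intervalIntegrable_iff_integrableOn_Ioc_of_le hT.le).1 (fu_int h h0m hTm)
    have h2 : IntegrableOn (fun t => |⟪f t, u t⟫_ℝ|) (Ioc 0 T) := h1.abs
    exact h2.integrable_indicator measurableSet_Ioc
  have hle : energyDefect ν u G f T ≤ 0 := by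
    have hn : ∀ n : ℕ, T / ((n : ℝ) + 1) ∈ Ioc 0 T := fun n =>
      ⟨by positivity, div_le_self hT.le (by have : (0 : ℝ) ≤ n := Nat.cast_nonneg n; linarith)⟩
    have hl : Tendsto (fun n : ℕ => T / ((n : ℝ) + 1)) atTop (𝓝 0) := by
      have := (tendsto_one_div_add_atTop_nhds_zero_nat (𝕜 := ℝ)).const_mul T
      rw [mul_zero] at this
      refine this.congr fun n => ?_
      ring
    have k1 : ∀ n : ℕ, energyDefect ν u G f T
        ≤ ‖u 0‖ ^ 2 + (∫ t in (0 : ℝ)..(T / ((n : ℝ) + 1)), w t)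
          - ⟪u (T / ((n : ℝ) + 1)), u 0⟫_ℝ := by
      intro n
      rw [← hc _ (hn n)]
      set a := T / ((n : ℝ) + 1) with ha
      have ham : a ∈ Icc 0 T := ⟨(hn n).1.le, (hn n).2⟩
      have j1 : ∫ t in (0 : ℝ)..a, ⟪f t, u t⟫_ℝ ≤ ∫ t in (0 : ℝ)..a, w t := by
        rw [intervalIntegral.integral_of_le ham.1, intervalIntegral.integral_of_le ham.1]
        have hsub : Ioc 0 a ⊆ Ioc 0 T := Ioc_subset_Ioc_right ham.2
        refine setIntegral_mono_on ((intervalIntegrable_iff_integrableOn_Ioc_of_le ham.1).1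
          (fu_int h h0m ham)) hwi.integrableOn measurableSet_Ioc fun t ht => ?_
        rw [hw, indicator_of_mem (hsub ht)]
        exact le_abs_self _
      have j2 : 0 ≤ ν * ∫ t in (0 : ℝ)..a, ‖G t‖ ^ 2 :=
        mul_nonneg hν (intervalIntegral.integral_nonneg_of_forall ham.1 fun t => sq_nonneg _)
      have j3 : 0 ≤ ‖u a - u 0‖ ^ 2 := sq_nonneg _
      rw [norm_sub_sq_real] at j3
      unfold energyDefect
      linarith
    have k2 : Tendsto (fun n : ℕ => ‖u 0‖ ^ 2 + (∫ t in (0 : ℝ)..(T / ((n : ℝ) + 1)), w t)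
          - ⟪u (T / ((n : ℝ) + 1)), u 0⟫_ℝ) atTop (𝓝 (‖u 0‖ ^ 2 + 0 - ⟪u 0, u 0⟫_ℝ)) := by
      have g1 : Continuous fun y => ∫ x in (0 : ℝ)..y, w x :=
        intervalIntegral.continuous_primitive (fun _ _ => hwi.intervalIntegrable) 0
      have g2 := (g1.tendsto 0).comp hl
      rw [intervalIntegral.integral_same] at g2
      have g3 : Tendsto (fun n : ℕ => T / ((n : ℝ) + 1)) atTop (𝓝[Icc 0 T] 0) :=
        tendsto_nhdsWithin_iff.2 ⟨hl, Eventually.of_forall fun n => ⟨(hn n).1.le, (hn n).2⟩⟩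
      have g4 := (h.wcont (u 0) 0 h0m).tendsto.comp g3
      exact (g2.const_add _).sub g4
    rw [real_inner_self_eq_norm_sq, add_zero, sub_self] at k2
    exact ge_of_tendsto' k2 k1
  have hT0 : energyDefect ν u G f T = 0 := le_antisymm hle (hen T hTm)
  intro t ht
  rcases ht.1.eq_or_lt with h1 | h1
  · rw [← h1, h00]
  · rw [hc t ⟨h1, ht.2⟩, hT0]

end Pool.Agent.Y303.EA
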