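import Pool.Agent.Y303.EA.Tim
import Pool.Agent.Y303.EA.Cut

/-!
The limit in the truncation: the energy balance with the work of the pressure.
-/

set_option autoImplicit false
set_option linter.unusedSectionVars false

open MeasureTheory Set Filter Topology
open scoped InnerProductSpace ENNReal ContDiff NNReal

namespace Pool.Agent.Y303.EA

open H772R2.NS

variable {Ω : Set E3}

theorem mv_add_left (z z' : M3) (v : E3) : mv (z + z') v = mv z v + mv z' v := by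
  ext i
  simp only [mv_apply, PiLp.add_apply, Fin.sum_univ_three]
  ring

theorem mv_smul_left (c : ℝ) (z : M3) (v : E3) : mv (c • z) v = c • mv z v := by
  ext i
  simp only [mv_apply, PiLp.smul_apply, smul_eq_mul, Fin.sum_univ_three]
  ring

theorem mv_add_right (z : M3) (v v' : E3) : mv z (v + v') = mv z v + mv z v' := by
  ext i
  simp only [mv_apply, PiLp.add_apply, Fin.sum_univ_three]
  ring

theorem mv_smul_right (c : ℝ) (z : M3) (v : E3) : mv z (c • v) = c • mv z v := by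
  ext i
  simp only [mv_apply, PiLp.smul_apply, smul_eq_mul, Fin.sum_univ_three]
  ring

/-- matrix times vector as a bilinear map -/
noncomputable def mvB : M3 →L[ℝ] E3 →L[ℝ] E3 :=
  LinearMap.mkContinuous₂ (LinearMap.mk₂ ℝ mv mv_add_left mv_smul_left mv_add_right mv_smul_right)
    1 (fun z v => by
      rw [one_mul]
      exact norm_mv_le z v)

theorem mvB_apply (z : M3) (v : E3) : mvB z v = mv z v := rfl

/-- the class of `(v·∇)v` -/
noncomputable def mvL (z : L2M Ω) (v : L2V Ω) : Lp E3 1 ((volume : Measure E3).restrict Ω) :=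
  mvB.holder 1 z v

theorem mvL_coe (z : L2M Ω) (v : L2V Ω) :
    (mvL z v : E3 → E3) =ᵐ[volume.restrict Ω] fun x => mv (z x) (v x) :=
  mvB.coeFn_holder z v

theorem norm_mvL_le (z : L2M Ω) (v : L2V Ω) : ‖mvL z v‖ ≤ ‖z‖ * ‖v‖ := by
  have h1 : ‖mvB‖ ≤ 1 := LinearMap.mkContinuous₂_norm_le _ (by norm_num) _
  refine (mvB.norm_holder_apply_apply_le z v).trans ?_
  calc ‖mvB‖ * ‖z‖ * ‖v‖ ≤ 1 * ‖z‖ * ‖v‖ := by gcongr
    _ = _ := by rw [one_mul]

theorem mvL_meas {μ : Measure ℝ} {G : ℝ → L2M Ω} {u : ℝ → L2V Ω} (hG : AEStronglyMeasurable G μ)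
    (hu : AEStronglyMeasurable u μ) : AEStronglyMeasurable (fun t => mvL (G t) (u t)) μ := by
  have h := (mvB.holderL ((volume : Measure E3).restrict Ω) 2 2 1).aestronglyMeasurable_comp₂ hG hu
  simp only [ContinuousLinearMap.holderL_apply_apply] at h
  exact h

/-- the pairing with the truncation -/
theorem rTr (hΩ : IsOpen Ω) {ε : ℝ} (hε : 0 < ε) (c : ℝ) {p : L2V Ω × L2M Ω} (hp : p ∈ graphW Ω)
    (Q : Lp E3 1 ((volume : Measure E3).restrict Ω)) :
    ∫ x in Ω, ⟪(mvL p.2 p.1 + Q) x, Tr ε (p.1 x)⟫_ℝ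
      = ∫ x in Ω, th ε (p.1 x) * wk c (p.1 x) (p.2 x) (Q x) := by
  obtain ⟨l, e, _, hi⟩ := fun1 (μ := (volume : Measure E3).restrict Ω) (memLp_Tr hε p.1).1
    (C := 1 / √ε) (fun x => norm_Tr_le' hε _)
  have h1 : ∀ᵐ x ∂(volume.restrict Ω), ⟪(mvL p.2 p.1) x, Tr ε (p.1 x)⟫_ℝ
      = th ε (p.1 x) * ⟪p.2 x, tens (p.1 x)⟫_ℝ := by
    filter_upwards [mvL_coe p.2 p.1] with x hx
    rw [hx, Tr, real_inner_smul_right, inner_mv]
  have i1 : Integrable (fun x => th ε (p.1 x) * ⟪p.2 x, tens (p.1 x)⟫_ℝ) (volume.restrict Ω) :=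
    (hi (mvL p.2 p.1)).congr h1
  have h2 : ∀ x, th ε (p.1 x) * wk c (p.1 x) (p.2 x) (Q x)
      = ⟪Q x, Tr ε (p.1 x)⟫_ℝ + c * (th ε (p.1 x) * ⟪p.2 x, tens (p.1 x)⟫_ℝ) := by
    intro x
    rw [wk, Tr, real_inner_smul_right]
    ring
  simp only [h2]
  rw [integral_add (hi Q) (i1.const_mul c), integral_const_mul, gauge hΩ hε hp, mul_zero,
    add_zero, ← e, ← e, map_add, e (mvL p.2 p.1), integral_congr_ae h1, gauge hΩ hε hp, zero_add]

theorem FT_r {ν ε : ℝ} (hε : 0 < ε) (f : L2V Ω) (z : L2M Ω)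
    (r : Lp E3 1 ((volume : Measure E3).restrict Ω)) (p : L2V Ω × L2M Ω) :
    FT Ω ν ε f z r p = FT Ω ν ε f z 0 p - ∫ x in Ω, ⟪r x, Tr ε (p.1 x)⟫_ℝ := by
  obtain ⟨l1, l2, l3, e, a1, a2, a3, _⟩ := FF_clm (ν := ν) (memLp_Tr hε p.1)
    (C := 1 / √ε) (fun x => norm_Tr_le' hε _) (memLp_dt hε p)
  simp only [FT, e]
  rw [← a3, map_zero]
  ring

theorem Ps_lim (v : L2V Ω) : Tendsto (fun ε => Ps Ω ε v) (𝓝[>] 0) (𝓝 (‖v‖ ^ 2 / 2)) := by
  rw [← int_norm_sq, ← integral_div]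
  refine tendsto_integral_filter_of_dominated_convergence (fun x => ‖v x‖ ^ 2 / 2) ?_ ?_
    ((integrable_norm_sq v).div_const 2) (Eventually.of_forall fun x => tendsto_Ph _)
  · filter_upwards [self_mem_nhdsWithin] with ε hε
    exact (Ph_int hε v).1
  · filter_upwards [self_mem_nhdsWithin] with ε hε
    refine Eventually.of_forall fun x => ?_
    rw [Real.norm_of_nonneg (Ph_nonneg (le_of_lt hε) _)]
    exact Ph_le (le_of_lt hε) _

theorem FT_lim {ν : ℝ} (f : L2V Ω) (p : L2V Ω × L2M Ω) :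
    Tendsto (fun ε => FT Ω ν ε f p.2 0 p) (𝓝[>] 0) (𝓝 (⟪f, p.1⟫_ℝ - ν * ‖p.2‖ ^ 2)) := by
  have h1 : Tendsto (fun ε => ∫ x in Ω, ⟪f x, Tr ε (p.1 x)⟫_ℝ) (𝓝[>] 0) (𝓝 ⟪f, p.1⟫_ℝ) := by
    rw [L2.inner_def]
    refine tendsto_integral_filter_of_dominated_convergence
      (fun x => ‖f x‖ ^ 2 + ‖p.1 x‖ ^ 2) ?_ ?_
      ((integrable_norm_sq f).add (integrable_norm_sq p.1)) (Eventually.of_forall fun x => ?_)
    · filter_upwards [self_mem_nhdsWithin] with ε hε
      obtain ⟨l, _, _, hi⟩ := fun2 (memLp_Tr hε p.1)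
      exact (hi f).1
    · filter_upwards [self_mem_nhdsWithin] with ε hε
      refine Eventually.of_forall fun x => ?_
      refine (norm_inner_le_norm _ _).trans ?_
      have k1 := norm_Tr_le (le_of_lt hε) (p.1 x)
      have k2 : ‖f x‖ * ‖Tr ε (p.1 x)‖ ≤ ‖f x‖ * ‖p.1 x‖ := by gcongr
      nlinarith [sq_nonneg (‖f x‖ - ‖p.1 x‖), sq_nonneg ‖f x‖, sq_nonneg ‖p.1 x‖]
    · exact tendsto_const_nhds.inner (tendsto_Tr _)
  have h2 : Tendsto (fun ε => ∫ x in Ω, ⟪p.2 x, dt ε (p.1 x) (p.2 x)⟫_ℝ) (𝓝[>] 0)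
      (𝓝 (‖p.2‖ ^ 2)) := by
    rw [← int_norm_sq]
    refine tendsto_integral_filter_of_dominated_convergence
      (fun x => ‖p.2 x‖ ^ 2) ?_ ?_
      (integrable_norm_sq p.2) (Eventually.of_forall fun x => tendsto_inner_dt _ _)
    · filter_upwards [self_mem_nhdsWithin] with ε hε
      obtain ⟨l, _, _, hi⟩ := fun2 (memLp_dt hε p)
      exact (hi p.2).1
    · filter_upwards [self_mem_nhdsWithin] with ε hε
      refine Eventually.of_forall fun x => ?_
      refine (norm_inner_le_norm _ _).trans ?_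
      have k1 := norm_dt_le (le_of_lt hε) (p.1 x) (p.2 x)
      rw [sq]
      gcongr
  have h3 := h1.sub (h2.const_mul ν)
  refine h3.congr' ?_
  filter_upwards [self_mem_nhdsWithin] with ε hε
  obtain ⟨l1, l2, l3, e, a1, a2, a3, _⟩ := FF_clm (ν := ν) (memLp_Tr hε p.1)
    (C := 1 / √ε) (fun x => norm_Tr_le' hε _) (memLp_dt hε p)
  rw [FT, e, map_zero, a1, a2, sub_zero]

variable {ν s T M : ℝ} {u : ℝ → L2V Ω} {G : ℝ → L2M Ω} {f : ℝ → L2V Ω}
  {q : ℝ → Lp E3 1 ((volume : Measure E3).restrict Ω)}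

/-- the truncated work -/
noncomputable def We (Ω : Set E3) (ε c : ℝ) (u : ℝ → L2V Ω) (G : ℝ → L2M Ω)
    (q : ℝ → Lp E3 1 ((volume : Measure E3).restrict Ω)) (t : ℝ) : ℝ :=
  ∫ x in Ω, th ε (u t x) * wk c (u t x) (G t x) (q t x)

theorem Sys.FT0_int {r : ℝ → Lp E3 1 ((volume : Measure E3).restrict Ω)}
    (S : Sys Ω ν s T M u G f r) {ε : ℝ} (hε : 0 < ε) :
    AEStronglyMeasurable (fun t => FT Ω ν ε (f t) (G t) 0 (u t, G t)) (volume.restrict (Ioc s T))
    ∧ ∀ t ∈ Ioc s T, |FT Ω ν ε (f t) (G t) 0 (u t, G t)| ≤ M * ‖f t‖ + ν * ‖G t‖ ^ 2 := by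
  constructor
  · have h := (FT_cont (Ω := Ω) (ν := ν) hε).comp_aestronglyMeasurable
      ((S.meas.prodMk S.hG.1).prodMk (S.hf.1.prodMk
        (aestronglyMeasurable_const (b := (0 : Lp E3 1 ((volume : Measure E3).restrict Ω))))))
    exact h
  · intro t ht
    refine (FT_bound S.hν hε (f t) (G t) 0 (u t, G t)).trans ?_
    rw [norm_zero, zero_mul, add_zero, sq]
    have h1 : ‖f t‖ * ‖u t‖ ≤ M * ‖f t‖ := by
      rw [mul_comm]
      gcongr
      exact S.bdd t ht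
    exact add_le_add h1 le_rfl

/-- the truncated balance -/
theorem Sys.bal (hΩ : IsOpen Ω) (S : Sys Ω ν s T M u G f (fun t => mvL (G t) (u t) + q t))
    (c : ℝ) {ε : ℝ} (hε : 0 < ε) {a b : ℝ} (ha : a ∈ Ioc s T) (hb : b ∈ Ioc s T) :
    ∫ t in a..b, We Ω ε c u G q t
      = (∫ t in a..b, FT Ω ν ε (f t) (G t) 0 (u t, G t)) - (Ps Ω ε (u b) - Ps Ω ε (u a)) := by
  have h0 : IntegrableOn (fun t => FT Ω ν ε (f t) (G t) 0 (u t, G t)) (Ioc s T) := by
    refine Integrable.mono' (g := fun t => M * ‖f t‖ + ν * ‖G t‖ ^ 2)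
      ((S.hf.norm.const_mul M).add (S.G_sq.const_mul ν)) (S.FT0_int hε).1 ?_
    filter_upwards [ae_restrict_mem measurableSet_Ioc] with t ht
    exact (S.FT0_int hε).2 t ht
  rw [S.prim hε ha hb, ← intervalIntegral.integral_sub (ii_of h0 ha hb)
    (ii_of (S.kap_int hε) ha hb)]
  refine intervalIntegral.integral_congr_ae ?_
  filter_upwards [(ae_restrict_iff' measurableSet_Ioc).1 S.grad] with t ht hmem
  have hp := ht (uIoc_sub ha hb hmem)
  rw [kap, FT_r hε (f t) (G t) (mvL (G t) (u t) + q t), rTr hΩ hε c hp (q t), We]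
  ring

/-- the limit of the truncated work -/
theorem Sys.lim (hΩ : IsOpen Ω) (S : Sys Ω ν s T M u G f (fun t => mvL (G t) (u t) + q t))
    (c : ℝ) {a b : ℝ} (ha : a ∈ Ioc s T) (hb : b ∈ Ioc s T) :
    Tendsto (fun ε => ∫ t in a..b, We Ω ε c u G q t) (𝓝[>] 0)
      (𝓝 ((∫ t in a..b, (⟪f t, u t⟫_ℝ - ν * ‖G t‖ ^ 2)) - (‖u b‖ ^ 2 / 2 - ‖u a‖ ^ 2 / 2))) := by
  have h1 : Tendsto (fun ε => ∫ t in a..b, FT Ω ν ε (f t) (G t) 0 (u t, G t)) (𝓝[>] 0)
      (𝓝 (∫ t in a..b, (⟪f t, u t⟫_ℝ - ν * ‖G t‖ ^ 2))) := by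
    refine intervalIntegral.tendsto_integral_filter_of_dominated_convergence
      (fun t => M * ‖f t‖ + ν * ‖G t‖ ^ 2) ?_ ?_
      (ii_of ((S.hf.norm.const_mul M).add (S.G_sq.const_mul ν)) ha hb)
      (Eventually.of_forall fun t _ => FT_lim (f t) (u t, G t))
    · filter_upwards [self_mem_nhdsWithin] with ε hε
      exact (S.FT0_int hε).1.mono_measure (Measure.restrict_mono (uIoc_sub ha hb) le_rfl)
    · filter_upwards [self_mem_nhdsWithin] with ε hε
      exact Eventually.of_forall fun t ht => (S.FT0_int hε).2 t (uIoc_sub ha hb ht)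
  refine (h1.sub ((Ps_lim (u b)).sub (Ps_lim (u a)))).congr' ?_
  filter_upwards [self_mem_nhdsWithin] with ε hε
  exact (S.bal hΩ c hε ha hb).symm

theorem tendsto_We (c : ℝ) (t : ℝ) (hi : Integrable (fun x => wk c (u t x) (G t x) (q t x))
    (volume.restrict Ω)) :
    Tendsto (fun ε => We Ω ε c u G q t) (𝓝[>] 0)
      (𝓝 (∫ x in Ω, wk c (u t x) (G t x) (q t x))) := by
  refine tendsto_integral_filter_of_dominated_convergence
    (fun x => ‖wk c (u t x) (G t x) (q t x)‖) ?_ ?_ hi.norm (Eventually.of_forall fun x => ?_)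
  · filter_upwards [self_mem_nhdsWithin] with ε hε
    exact ((cont_th (le_of_lt hε)).comp_aestronglyMeasurable (Lp.aestronglyMeasurable _)).mul hi.1
  · filter_upwards [self_mem_nhdsWithin] with ε hε
    refine Eventually.of_forall fun x => ?_
    rw [norm_mul, Real.norm_of_nonneg (th_pos (le_of_lt hε) _).le]
    exact mul_le_of_le_one_left (norm_nonneg _) (th_le_one (le_of_lt hε) _)
  · have := (tendsto_th (u t x)).mul_const (wk c (u t x) (G t x) (q t x))
    rwa [one_mul] at this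

theorem lint_finite {w : E3 → ℝ} {μ : Measure E3} {N : ℝ≥0∞} (hN : N ≠ ⊤)
    (hw : AEStronglyMeasurable w μ)
    (h1 : ∫⁻ x, ENNReal.ofReal (w x) ∂μ ≤ N) (h2 : ∫⁻ x, ENNReal.ofReal (-(w x)) ∂μ ≤ N) :
    Integrable w μ := by
  refine ⟨hw, ?_⟩
  have h3 : ∀ x, ‖w x‖ₑ = ENNReal.ofReal (w x) + ENNReal.ofReal (-(w x)) := by
    intro x
    rw [← ofReal_norm, Real.norm_eq_abs]
    rcases le_total 0 (w x) with h | h
    · rw [abs_of_nonneg h, ENNReal.ofReal_of_nonpos (by linarith : -(w x) ≤ 0), add_zero]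
    · rw [abs_of_nonpos h, ENNReal.ofReal_of_nonpos h, zero_add]
  unfold HasFiniteIntegral
  simp only [h3]
  rw [lintegral_add_left' hw.aemeasurable.ennreal_ofReal]
  exact ENNReal.add_lt_top.2 ⟨h1.trans_lt hN.lt_top, h2.trans_lt hN.lt_top⟩

theorem We_gauge (hΩ : IsOpen Ω) {ε : ℝ} (hε : 0 < ε) (c c' t : ℝ)
    (hp : (u t, G t) ∈ graphW Ω) : We Ω ε c u G q t = We Ω ε c' u G q t := by
  have h1 := rTr hΩ hε c hp (q t)
  have h2 := rTr hΩ hε c' hp (q t)
  unfold We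
  rw [← h1, ← h2]

theorem l1_le [IsFiniteMeasure ((volume : Measure E3).restrict Ω)] (z : L2M Ω) :
    ∫ x in Ω, ‖z x‖ ≤ (((volume : Measure E3).restrict Ω).real univ + 1) / 2 * ‖z‖ := by
  rcases (norm_nonneg z).eq_or_lt with h | h
  · have h0 : z = 0 := norm_eq_zero.1 h.symm
    have h1 : ∫ x in Ω, ‖z x‖ = 0 := by
      refine integral_eq_zero_of_ae ?_
      have := Lp.coeFn_zero M3 2 ((volume : Measure E3).restrict Ω)
      rw [h0]
      filter_upwards [this] with x hx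
      rw [hx]
      simp
    rw [h1, ← h, mul_zero]
  · have hz : Integrable (fun x => ‖z x‖) (volume.restrict Ω) :=
      ((Lp.memLp z).mono_exponent (p := 1) (by norm_num)).integrable (le_refl _) |>.norm
    have hi : Integrable (fun x => ‖z‖ / 2 + (2 * ‖z‖)⁻¹ * ‖z x‖ ^ 2) (volume.restrict Ω) :=
      (integrable_const _).add ((integrable_norm_sq z).const_mul _)
    have h2 : ∫ x in Ω, ‖z x‖ ≤ ∫ x in Ω, (‖z‖ / 2 + (2 * ‖z‖)⁻¹ * ‖z x‖ ^ 2) := by
      refine integral_mono hz hi fun x => ?_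
      have h3 : ‖z‖ / 2 + (2 * ‖z‖)⁻¹ * ‖z x‖ ^ 2 - ‖z x‖
          = (2 * ‖z‖)⁻¹ * (‖z‖ - ‖z x‖) ^ 2 := by
        field_simp
        ring
      have h4 : 0 ≤ (2 * ‖z‖)⁻¹ * (‖z‖ - ‖z x‖) ^ 2 := by positivity
      linarith
    rw [integral_add (integrable_const _) ((integrable_norm_sq z).const_mul _),
      integral_const, integral_const_mul, int_norm_sq, smul_eq_mul] at h2
    have h5 : (2 * ‖z‖)⁻¹ * ‖z‖ ^ 2 = ‖z‖ / 2 := by field_simp
    rw [h5] at h2
    linarith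

/-- the limit of the error -/
theorem err_lim (p : L2V Ω × L2M Ω) {Z : E3 → ℝ} (hZ0 : ∀ x, 0 ≤ Z x)
    (hZm : AEStronglyMeasurable Z (volume.restrict Ω))
    (hZi : Integrable (fun x => Z x * ‖p.2 x‖) (volume.restrict Ω)) :
    (∀ ε > 0, Integrable (fun x => Z x * (ε * th ε (p.1 x) ^ 3 * (‖p.2 x‖ * ‖p.1 x‖ ^ 2)))
        (volume.restrict Ω) ∧
      ∫ x in Ω, Z x * (ε * th ε (p.1 x) ^ 3 * (‖p.2 x‖ * ‖p.1 x‖ ^ 2))
        ≤ ∫ x in Ω, Z x * ‖p.2 x‖) ∧
    Tendsto (fun ε : ℝ => ∫ x in Ω, Z x * (ε * th ε (p.1 x) ^ 3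
      * (‖p.2 x‖ * ‖p.1 x‖ ^ 2))) (𝓝[>] 0) (𝓝 0) := by
  have hm : ∀ ε > 0, AEStronglyMeasurable
      (fun x => Z x * (ε * th ε (p.1 x) ^ 3 * (‖p.2 x‖ * ‖p.1 x‖ ^ 2))) (volume.restrict Ω) := by
    intro ε hε
    have hth := cont_th (le_of_lt hε)
    have : Continuous fun q : E3 × M3 => ε * th ε q.1 ^ 3
      * (‖q.2‖ * ‖q.1‖ ^ 2) := by fun_prop
    have h2 := aesm2 this p
    exact hZm.mul h2
  have hb : ∀ ε > 0, ∀ x, ‖Z x * (ε * th ε (p.1 x) ^ 3 * (‖p.2 x‖ * ‖p.1 x‖ ^ 2))‖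
      ≤ Z x * ‖p.2 x‖ := by
    intro ε hε x
    have h1 : (0 : ℝ) ≤ ε := le_of_lt hε
    have h2 : 0 ≤ ε * th ε (p.1 x) ^ 3 * (‖p.2 x‖ * ‖p.1 x‖ ^ 2) := by
      have := th_pos h1 (p.1 x)
      positivity
    rw [Real.norm_of_nonneg (mul_nonneg (hZ0 x) h2)]
    exact mul_le_mul_of_nonneg_left (eth_le h1 _ _) (hZ0 x)
  constructor
  · intro ε hε
    have hi := hZi.mono' (hm ε hε) (Eventually.of_forall (hb ε hε))
    refine ⟨hi, integral_mono hi hZi fun x => ?_⟩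
    exact (le_abs_self _).trans (hb ε hε x)
  · have h := tendsto_integral_filter_of_dominated_convergence (l := 𝓝[>] (0 : ℝ))
      (μ := (volume : Measure E3).restrict Ω)
      (F := fun (ε : ℝ) x => Z x * (ε * th ε (p.1 x) ^ 3
        * (‖p.2 x‖ * ‖p.1 x‖ ^ 2))) (f := fun _ => 0) (fun x => Z x * ‖p.2 x‖) ?_ ?_ hZi ?_
    · simpa using h
    · filter_upwards [self_mem_nhdsWithin] with ε hε
      exact hm ε hε
    · filter_upwards [self_mem_nhdsWithin] with ε hε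
      exact Eventually.of_forall (hb ε hε)
    · refine Eventually.of_forall fun x => ?_
      have h2 := ((tendsto_eth (p.1 x) 3).mul_const (‖p.2 x‖ * ‖p.1 x‖ ^ 2)).const_mul (Z x)
      simpa only [zero_mul, mul_zero] using h2

/-- the Cauchy-Schwarz inequality -/
theorem cs_A {A : E3 → ℝ} (hA : AEStronglyMeasurable A (volume.restrict Ω)) {k : ℝ}
    (hk : ∫⁻ x in Ω, ‖A x‖ₑ ^ 2 ≤ ENNReal.ofReal (k ^ 2)) (z : L2M Ω) :
    Integrable (fun x => |A x| * ‖z x‖) (volume.restrict Ω) ∧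
      ∫ x in Ω, |A x| * ‖z x‖ ≤ |k| * ‖z‖ := by
  have hmem : MemLp A 2 (volume.restrict Ω) := by
    refine ⟨hA, ?_⟩
    rw [eLpNorm_lt_top_iff_lintegral_rpow_enorm_lt_top (by norm_num) (by norm_num)]
    simp only [ENNReal.toReal_ofNat, ENNReal.rpow_ofNat]
    exact hk.trans_lt ENNReal.ofReal_lt_top
  set a : Lp ℝ 2 ((volume : Measure E3).restrict Ω) := hmem.norm.toLp _ with ha
  have hbm : MemLp (fun x => ‖z x‖) 2 (volume.restrict Ω) := (Lp.memLp z).norm
  set b : Lp ℝ 2 ((volume : Measure E3).restrict Ω) := hbm.toLp _ with hb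
  have hac : ∀ᵐ x ∂(volume.restrict Ω), a x = |A x| := by
    filter_upwards [hmem.norm.coeFn_toLp] with x hx
    rw [ha, hx, Real.norm_eq_abs]
  have hbc : ∀ᵐ x ∂(volume.restrict Ω), b x = ‖z x‖ := hbm.coeFn_toLp
  have e : (fun x => ⟪a x, b x⟫_ℝ) =ᵐ[volume.restrict Ω] fun x => |A x| * ‖z x‖ := by
    filter_upwards [hac, hbc] with x h1 h2
    rw [h1, h2, real_inner_comm]
    rfl
  refine ⟨(L2.integrable_inner (𝕜 := ℝ) a b).congr e, ?_⟩
  rw [← integral_congr_ae e, ← L2.inner_def]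
  refine (real_inner_le_norm _ _).trans ?_
  have h1 : ‖a‖ ≤ |k| := by
    have h2 : ‖a‖ ^ 2 ≤ |k| ^ 2 := by
      rw [← int_norm_sq, sq_abs]
      have h3 : ∫ x in Ω, ‖a x‖ ^ 2 = (∫⁻ x in Ω, ‖A x‖ₑ ^ 2).toReal := by
        rw [integral_eq_lintegral_of_nonneg_ae (Eventually.of_forall fun x => sq_nonneg _)
          (integrable_norm_sq a).1]
        congr 1
        refine lintegral_congr_ae ?_
        filter_upwards [hac] with x hx
        rw [hx, ENNReal.ofReal_pow (norm_nonneg _), ofReal_norm, Real.enorm_abs]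
      rw [h3]
      have h4 := ENNReal.toReal_mono ENNReal.ofReal_ne_top hk
      rwa [ENNReal.toReal_ofReal (sq_nonneg k)] at h4
    exact (pow_le_pow_iff_left₀ (norm_nonneg _) (abs_nonneg _) (by norm_num)).1 h2
  have h2 : ‖b‖ ≤ ‖z‖ := by
    refine Lp.norm_le_norm_of_ae_le ?_
    filter_upwards [hbc] with x hx
    rw [hx, norm_norm]
  gcongr

/-- the truncated head -/
noncomputable def tH (R : ℝ≥0∞) (h : ℝ) : ℝ := (min R ‖h‖ₑ).toReal

theorem enorm_tH (R : ℝ≥0∞) (h : ℝ) : ‖tH R h‖ₑ = min R ‖h‖ₑ := by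
  have h1 : min R ‖h‖ₑ ≠ ⊤ := (min_lt_of_right_lt enorm_lt_top).ne
  rw [tH, Real.enorm_eq_ofReal ENNReal.toReal_nonneg, ENNReal.ofReal_toReal h1]

theorem tH_nonneg (R : ℝ≥0∞) (h : ℝ) : 0 ≤ tH R h := ENNReal.toReal_nonneg

theorem tH_top (h : ℝ) : tH ⊤ h = |h| := by
  rw [tH, min_eq_right le_top, toReal_enorm, Real.norm_eq_abs]

theorem tH_meas (R : ℝ≥0∞) : Measurable (tH R) :=
  (measurable_const.min measurable_enorm).ennreal_toReal

theorem Sr_le_tH (R : ℝ≥0∞) (h : ℝ) :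
    |Sr (R.toReal + 1) h| ≤ 2 * (tH R h + 1) := by
  have hr : 0 < R.toReal + 1 := by positivity
  rcases le_total ‖h‖ₑ R with h1 | h1
  · have h2 : tH R h = |h| := by
      rw [tH, min_eq_right h1, toReal_enorm, Real.norm_eq_abs]
    rw [h2]
    have := abs_Sr_le' hr h
    have := abs_nonneg h
    linarith
  · have h2 : tH R h = R.toReal := by rw [tH, min_eq_left h1]
    rw [h2]
    exact abs_Sr_le hr.le h

/-- the work at one time, square integrable head -/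
theorem one_top (hΩ : IsOpen Ω) [IsFiniteMeasure ((volume : Measure E3).restrict Ω)]
    {c : ℝ} {p : L2V Ω × L2M Ω} (hp : p ∈ graphW Ω)
    {q : Lp ℝ 1 ((volume : Measure E3).restrict Ω) × Lp E3 1 ((volume : Measure E3).restrict Ω)}
    (hq : q ∈ W11 Ω) {g k : ℝ}
    (hAi : Integrable (fun x => |hd c (p.1 x) (q.1 x)| * ‖p.2 x‖) (volume.restrict Ω))
    (hAb : ∫ x in Ω, |hd c (p.1 x) (q.1 x)| * ‖p.2 x‖ ≤ |k| * ‖p.2‖) :
    (∀ ε > 0, |∫ x in Ω, th ε (p.1 x) * wk c (p.1 x) (p.2 x) (q.2 x)|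
      ≤ |g| + 2 * (|k| + (((volume : Measure E3).restrict Ω).real univ + 1) / 2) * ‖p.2‖) ∧
    Tendsto (fun ε => ∫ x in Ω, th ε (p.1 x) * wk c (p.1 x) (p.2 x) (q.2 x)) (𝓝[>] 0) (𝓝 0) := by
  have hm := aesm_hd c p.1 q.1
  have hAm : AEStronglyMeasurable (fun x => |hd c (p.1 x) (q.1 x)|) (volume.restrict Ω) := hm.norm
  obtain ⟨e1, e2⟩ := err_lim p (Z := fun x => |hd c (p.1 x) (q.1 x)|)
    (fun x => abs_nonneg _) hAm hAi
  have key : ∀ ε > 0, |∫ x in Ω, th ε (p.1 x) * wk c (p.1 x) (p.2 x) (q.2 x)|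
      ≤ ∫ x in Ω, |hd c (p.1 x) (q.1 x)|
        * (ε * th ε (p.1 x) ^ 3 * (‖p.2 x‖ * ‖p.1 x‖ ^ 2)) := by
    intro ε hε
    have hn : ∀ n : ℕ, 0 < (n : ℝ) + 1 := fun n => by positivity
    have h1 : ∀ n : ℕ, |∫ x in Ω, ch (hd c (p.1 x) (q.1 x) / ((n : ℝ) + 1))
        * (th ε (p.1 x) * wk c (p.1 x) (p.2 x) (q.2 x))|
        ≤ ∫ x in Ω, |hd c (p.1 x) (q.1 x)|
          * (ε * th ε (p.1 x) ^ 3 * (‖p.2 x‖ * ‖p.1 x‖ ^ 2)) := by
      intro n
      have h2 := stat_int2 hΩ hε (cd_Sr ((n : ℝ) + 1)) (abs_Sr_le (hn n).le)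
        (fun x => by
          rw [deriv_Sr (hn n).ne', abs_of_nonneg (ch_nonneg _)]
          exact ch_le_one _) c hp hq
      simp only [deriv_Sr (hn n).ne'] at h2
      refine h2.trans (integral_mono_of_nonneg (Eventually.of_forall fun x => ?_) (e1 ε hε).1
        (Eventually.of_forall fun x => ?_))
      · have := th_pos (le_of_lt hε) (p.1 x)
        have h3 : (0 : ℝ) < ε := hε
        simp only [Pi.zero_apply]
        positivity
      · have h4 := th_pos (le_of_lt hε) (p.1 x)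
        have h3 : (0 : ℝ) < ε := hε
        exact mul_le_mul_of_nonneg_right (abs_Sr_le' (hn n) _) (by positivity)
    have h2 : Tendsto (fun n : ℕ => ∫ x in Ω, ch (hd c (p.1 x) (q.1 x) / ((n : ℝ) + 1))
        * (th ε (p.1 x) * wk c (p.1 x) (p.2 x) (q.2 x))) atTop
        (𝓝 (∫ x in Ω, th ε (p.1 x) * wk c (p.1 x) (p.2 x) (q.2 x))) := by
      have hi := th_wk_int hΩ hε c p q.2
      refine tendsto_integral_of_dominated_convergence
        (fun x => ‖th ε (p.1 x) * wk c (p.1 x) (p.2 x) (q.2 x)‖) (fun n => ?_) hi.norm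
        (fun n => Eventually.of_forall fun x => ?_) (Eventually.of_forall fun x => ?_)
      · have h1 : Continuous fun y : ℝ => ch (y / ((n : ℝ) + 1)) :=
          cd_ch.continuous.comp (continuous_id.div_const _)
        exact (h1.comp_aestronglyMeasurable hm).mul hi.1
      · rw [norm_mul, Real.norm_of_nonneg (ch_nonneg _)]
        exact mul_le_of_le_one_left (norm_nonneg _) (ch_le_one _)
      · have h3 : Tendsto (fun n : ℕ => hd c (p.1 x) (q.1 x) / ((n : ℝ) + 1)) atTop (𝓝 0) := by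
          have := (tendsto_one_div_add_atTop_nhds_zero_nat (𝕜 := ℝ)).const_mul
            (hd c (p.1 x) (q.1 x))
          rw [mul_zero] at this
          refine this.congr fun n => ?_
          ring
        have h4 := ((cd_ch.continuous.tendsto 0).comp h3).mul_const
          (th ε (p.1 x) * wk c (p.1 x) (p.2 x) (q.2 x))
        rw [ch_one (by simp), one_mul] at h4
        exact h4
    exact le_of_tendsto' h2.abs h1
  constructor
  · intro ε hε
    refine (key ε hε).trans (((e1 ε hε).2).trans (hAb.trans ?_))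
    have h1 : 0 ≤ |g| := abs_nonneg g
    have h2 : 0 ≤ |k| * ‖p.2‖ := by positivity
    have h3 : 0 ≤ (((volume : Measure E3).restrict Ω).real univ + 1) / 2 * ‖p.2‖ := by
      positivity
    linarith
  · rw [tendsto_zero_iff_abs_tendsto_zero]
    refine squeeze_zero' (Eventually.of_forall fun ε => abs_nonneg _) ?_ e2
    filter_upwards [self_mem_nhdsWithin] with ε hε
    exact key ε hε

/-- the work at one time, finite threshold -/
theorem one_fin (hΩ : IsOpen Ω) [IsFiniteMeasure ((volume : Measure E3).restrict Ω)]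
    {c : ℝ} {p : L2V Ω × L2M Ω} (hp : p ∈ graphW Ω)
    {q : Lp ℝ 1 ((volume : Measure E3).restrict Ω) × Lp E3 1 ((volume : Measure E3).restrict Ω)}
    (hq : q ∈ W11 Ω) {R : ℝ≥0∞} (hR : R ≠ ⊤) {g k : ℝ}
    (hAi : Integrable (fun x => tH R (hd c (p.1 x) (q.1 x)) * ‖p.2 x‖) (volume.restrict Ω))
    (hAb : ∫ x in Ω, tH R (hd c (p.1 x) (q.1 x)) * ‖p.2 x‖ ≤ |k| * ‖p.2‖)
    (hN : ∫⁻ x in {x ∈ Ω | R < ‖hd c (p.1 x) (q.1 x)‖ₑ},
      ENNReal.ofReal (-(wk c (p.1 x) (p.2 x) (q.2 x))) ≤ ENNReal.ofReal g) :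
    (∀ ε > 0, |∫ x in Ω, th ε (p.1 x) * wk c (p.1 x) (p.2 x) (q.2 x)|
      ≤ |g| + 2 * (|k| + (((volume : Measure E3).restrict Ω).real univ + 1) / 2) * ‖p.2‖) ∧
    Tendsto (fun ε => ∫ x in Ω, th ε (p.1 x) * wk c (p.1 x) (p.2 x) (q.2 x)) (𝓝[>] 0) (𝓝 0) := by
  have hm := aesm_hd c p.1 q.1
  have hw := aesm_wk c (Lp.aestronglyMeasurable p.1) (Lp.aestronglyMeasurable p.2)
        (Lp.aestronglyMeasurable q.2)
  have hthm : ∀ ε > 0, AEStronglyMeasurable (fun x => th ε (p.1 x)) (volume.restrict Ω) :=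
    fun ε hε => (cont_th (le_of_lt hε)).comp_aestronglyMeasurable (Lp.aestronglyMeasurable _)
  set r : ℝ := R.toReal + 1 with hr
  have hr0 : 0 < r := by positivity
  set κ : E3 → ℝ := fun x => 1 - ch (hd c (p.1 x) (q.1 x) / r) with hκ
  have hκ0 : ∀ x, 0 ≤ κ x := fun x => sub_nonneg.2 (ch_le_one _)
  have hκ1 : ∀ x, κ x ≤ 1 := fun x => sub_le_self _ (ch_nonneg _)
  have hκm : AEStronglyMeasurable κ (volume.restrict Ω) := by
    have h1 : Continuous fun y : ℝ => 1 - ch (y / r) :=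
      continuous_const.sub (cd_ch.continuous.comp (continuous_id.div_const r))
    exact h1.comp_aestronglyMeasurable hm
  have hset : MeasurableSet {x : E3 | R < ‖hd c (p.1 x) (q.1 x)‖ₑ} := by
    have h1 : Measurable fun x => hd c (p.1 x) (q.1 x) := by
      have h2 : Measurable fun x => (p.1 x, q.1 x) :=
        (Lp.stronglyMeasurable p.1).measurable.prodMk (Lp.stronglyMeasurable q.1).measurable
      exact (cont_hd c).measurable.comp h2
    exact measurableSet_lt measurable_const h1.enorm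
  have hneg : ∫⁻ x in Ω, ENNReal.ofReal (-(κ x * wk c (p.1 x) (p.2 x) (q.2 x)))
      ≤ ENNReal.ofReal g := by
    refine le_trans ?_ hN
    have e1 : {x ∈ Ω | R < ‖hd c (p.1 x) (q.1 x)‖ₑ}
        = {x : E3 | R < ‖hd c (p.1 x) (q.1 x)‖ₑ} ∩ Ω := by
      ext x
      exact and_comm
    rw [e1, ← Measure.restrict_restrict hset, ← lintegral_indicator hset]
    refine lintegral_mono fun x => ?_
    by_cases hx : R < ‖hd c (p.1 x) (q.1 x)‖ₑ
    · rw [indicator_of_mem (by exact hx)]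
      rcases le_total 0 (wk c (p.1 x) (p.2 x) (q.2 x)) with h | h
      · rw [ENNReal.ofReal_of_nonpos (by nlinarith [mul_nonneg (hκ0 x) h])]
        exact zero_le
      · refine ENNReal.ofReal_le_ofReal ?_
        nlinarith [hκ1 x]
    · have h1 : |hd c (p.1 x) (q.1 x) / r| ≤ 1 := by
        rw [abs_div, abs_of_pos hr0, div_le_one hr0]
        have h2 := ENNReal.toReal_mono hR (not_lt.1 hx)
        rw [toReal_enorm, Real.norm_eq_abs] at h2
        linarith
      have h2 : κ x = 0 := by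
        simp only [hκ]
        rw [ch_one h1, sub_self]
      have h3 : ENNReal.ofReal (-(κ x * wk c (p.1 x) (p.2 x) (q.2 x))) = 0 := by
        rw [h2]
        simp
      exact h3.le.trans zero_le
  have hpos : ∫⁻ x in Ω, ENNReal.ofReal (κ x * wk c (p.1 x) (p.2 x) (q.2 x))
      ≤ ENNReal.ofReal g := (cut_eq hΩ c hp hq hr0).le.trans hneg
  have hi : Integrable (fun x => κ x * wk c (p.1 x) (p.2 x) (q.2 x)) (volume.restrict Ω) :=
    lint_finite ENNReal.ofReal_ne_top (hκm.mul hw) hpos hneg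
  have hzero : ∫ x in Ω, κ x * wk c (p.1 x) (p.2 x) (q.2 x) = 0 := by
    rw [integral_eq_lintegral_pos_part_sub_lintegral_neg_part hi]
    have h1 : ∫⁻ x in Ω, ENNReal.ofReal (κ x * wk c (p.1 x) (p.2 x) (q.2 x))
      = ∫⁻ x in Ω, ENNReal.ofReal (-(κ x * wk c (p.1 x) (p.2 x) (q.2 x))) :=
      cut_eq hΩ c hp hq hr0
    rw [h1, sub_self]
  have hi1 : ∀ ε > 0, Integrable (fun x => th ε (p.1 x) * (κ x * wk c (p.1 x) (p.2 x) (q.2 x)))
      (volume.restrict Ω) := by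
    intro ε hε
    refine hi.norm.mono' ((hthm ε hε).mul hi.1) (Eventually.of_forall fun x => ?_)
    rw [norm_mul, Real.norm_of_nonneg (th_pos (le_of_lt hε) _).le]
    exact mul_le_of_le_one_left (norm_nonneg _) (th_le_one (le_of_lt hε) _)
  have hder : ∀ x, |deriv (Sr r) x| ≤ 1 := fun x => by
    rw [deriv_Sr hr0.ne', abs_of_nonneg (ch_nonneg _)]
    exact ch_le_one _
  have hst := fun (ε : ℝ) (hε : 0 < ε) => (stat_int hΩ hε (cd_Sr r) (abs_Sr_le hr0.le)
    hder c hp hq).1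
  have hst2 := fun (ε : ℝ) (hε : 0 < ε) => stat_int2 hΩ hε (cd_Sr r) (abs_Sr_le hr0.le)
    hder c hp hq
  simp only [deriv_Sr hr0.ne'] at hst hst2
  have hz : Integrable (fun x => ‖p.2 x‖) (volume.restrict Ω) :=
    ((Lp.memLp p.2).mono_exponent (p := 1) (by norm_num)).integrable (le_refl _) |>.norm
  have hZm : AEStronglyMeasurable (fun x => |Sr r (hd c (p.1 x) (q.1 x))|)
      (volume.restrict Ω) := ((cd_Sr r).continuous.comp_aestronglyMeasurable hm).norm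
  have hZi2 : Integrable (fun x => 2 * (tH R (hd c (p.1 x) (q.1 x)) * ‖p.2 x‖ + ‖p.2 x‖))
      (volume.restrict Ω) := (hAi.add hz).const_mul 2
  have hZb : ∀ x, |Sr r (hd c (p.1 x) (q.1 x))| * ‖p.2 x‖
      ≤ 2 * (tH R (hd c (p.1 x) (q.1 x)) * ‖p.2 x‖ + ‖p.2 x‖) := by
    intro x
    have h1 := Sr_le_tH R (hd c (p.1 x) (q.1 x))
    calc |Sr r (hd c (p.1 x) (q.1 x))| * ‖p.2 x‖
        ≤ 2 * (tH R (hd c (p.1 x) (q.1 x)) + 1) * ‖p.2 x‖ := by gcongr
      _ = _ := by ring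
  have hZi : Integrable (fun x => |Sr r (hd c (p.1 x) (q.1 x))| * ‖p.2 x‖)
      (volume.restrict Ω) := by
    refine hZi2.mono' (hZm.mul hz.1) (Eventually.of_forall fun x => ?_)
    rw [Real.norm_of_nonneg (by positivity)]
    exact hZb x
  obtain ⟨e1, e2⟩ := err_lim p (fun x => abs_nonneg _) hZm hZi
  have hZs : ∫ x in Ω, |Sr r (hd c (p.1 x) (q.1 x))| * ‖p.2 x‖
      ≤ 2 * (|k| + (((volume : Measure E3).restrict Ω).real univ + 1) / 2) * ‖p.2‖ := by
    have h1 := integral_mono hZi hZi2 hZb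
    rw [integral_const_mul, integral_add hAi hz] at h1
    have h2 := l1_le p.2
    nlinarith
  have hsplit : ∀ ε > 0, ∫ x in Ω, th ε (p.1 x) * wk c (p.1 x) (p.2 x) (q.2 x)
      = (∫ x in Ω, th ε (p.1 x) * (κ x * wk c (p.1 x) (p.2 x) (q.2 x)))
        + ∫ x in Ω, ch (hd c (p.1 x) (q.1 x) / r)
          * (th ε (p.1 x) * wk c (p.1 x) (p.2 x) (q.2 x)) := by
    intro ε hε
    rw [← integral_add (hi1 ε hε) (hst ε hε)]
    refine integral_congr_ae (Eventually.of_forall fun x => ?_)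
    simp only [hκ]
    ring
  constructor
  · intro ε hε
    rw [hsplit ε hε]
    refine (abs_add_le _ _).trans (add_le_add ?_ ?_)
    · have h3 := weight_le (μ := (volume : Measure E3).restrict Ω)
        (w := fun x => κ x * wk c (p.1 x) (p.2 x) (q.2 x)) (θ := fun x => th ε (p.1 x))
        ENNReal.ofReal_ne_top hpos hneg (fun x => (th_pos (le_of_lt hε) _).le)
        (fun x => th_le_one (le_of_lt hε) _) (hi1 ε hε)
      refine h3.trans ?_
      rw [ENNReal.toReal_ofReal']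
      exact max_le (le_abs_self _) (abs_nonneg _)
    · exact (hst2 ε hε).trans (((e1 ε hε).2).trans hZs)
  · have h1 : Tendsto (fun ε => ∫ x in Ω, th ε (p.1 x) * (κ x * wk c (p.1 x) (p.2 x) (q.2 x)))
        (𝓝[>] 0) (𝓝 (∫ x in Ω, κ x * wk c (p.1 x) (p.2 x) (q.2 x))) := by
      refine tendsto_integral_filter_of_dominated_convergence
        (fun x => ‖κ x * wk c (p.1 x) (p.2 x) (q.2 x)‖) ?_ ?_ hi.norm
        (Eventually.of_forall fun x => ?_)
      · filter_upwards [self_mem_nhdsWithin] with ε hε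
        exact (hi1 ε hε).1
      · filter_upwards [self_mem_nhdsWithin] with ε hε
        refine Eventually.of_forall fun x => ?_
        rw [norm_mul, Real.norm_of_nonneg (th_pos (le_of_lt hε) _).le]
        exact mul_le_of_le_one_left (norm_nonneg _) (th_le_one (le_of_lt hε) _)
      · have := (tendsto_th (p.1 x)).mul_const (κ x * wk c (p.1 x) (p.2 x) (q.2 x))
        rwa [one_mul] at this
    have h2 : Tendsto (fun ε => ∫ x in Ω, ch (hd c (p.1 x) (q.1 x) / r)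
          * (th ε (p.1 x) * wk c (p.1 x) (p.2 x) (q.2 x))) (𝓝[>] 0) (𝓝 0) := by
      rw [tendsto_zero_iff_abs_tendsto_zero]
      refine squeeze_zero' (Eventually.of_forall fun ε => abs_nonneg _) ?_ e2
      filter_upwards [self_mem_nhdsWithin] with ε hε
      exact hst2 ε hε
    rw [hzero] at h1
    have h3 := h1.add h2
    rw [add_zero] at h3
    refine h3.congr' ?_
    filter_upwards [self_mem_nhdsWithin] with ε hε
    exact (hsplit ε hε).symm

/-- the work at one time -/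
theorem one_time (hΩ : IsOpen Ω) [IsFiniteMeasure ((volume : Measure E3).restrict Ω)]
    {c : ℝ} {p : L2V Ω × L2M Ω} (hp : p ∈ graphW Ω)
    {q : Lp ℝ 1 ((volume : Measure E3).restrict Ω) × Lp E3 1 ((volume : Measure E3).restrict Ω)}
    (hq : q ∈ W11 Ω) {R : ℝ≥0∞} {g k : ℝ}
    (hk : ∫⁻ x in Ω, (min R ‖hd c (p.1 x) (q.1 x)‖ₑ) ^ 2 ≤ ENNReal.ofReal (k ^ 2))
    (hN : ∫⁻ x in {x ∈ Ω | R < ‖hd c (p.1 x) (q.1 x)‖ₑ},
      ENNReal.ofReal (-(wk c (p.1 x) (p.2 x) (q.2 x))) ≤ ENNReal.ofReal g) :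
    (∀ ε > 0, |∫ x in Ω, th ε (p.1 x) * wk c (p.1 x) (p.2 x) (q.2 x)|
      ≤ |g| + 2 * (|k| + (((volume : Measure E3).restrict Ω).real univ + 1) / 2) * ‖p.2‖) ∧
    Tendsto (fun ε => ∫ x in Ω, th ε (p.1 x) * wk c (p.1 x) (p.2 x) (q.2 x)) (𝓝[>] 0) (𝓝 0) := by
  have hm := aesm_hd c p.1 q.1
  have hAm : AEStronglyMeasurable (fun x => tH R (hd c (p.1 x) (q.1 x))) (volume.restrict Ω) :=
    ((tH_meas R).comp_aemeasurable hm.aemeasurable).aestronglyMeasurable
  obtain ⟨hAi, hAb⟩ := cs_A hAm (k := k) (by simpa only [enorm_tH] using hk) p.2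
  simp only [abs_of_nonneg (tH_nonneg R _)] at hAi hAb
  rcases eq_or_ne R ⊤ with hR | hR
  · subst hR
    simp only [tH_top] at hAi hAb
    exact one_top hΩ hp hq hAi hAb
  · exact one_fin hΩ hp hq hR hAi hAb hN

/-- one-sided bounds give the energy balance -/
theorem Sys.zero (hΩ : IsOpen Ω) [IsFiniteMeasure ((volume : Measure E3).restrict Ω)]
    (S : Sys Ω ν s T M u G f (fun t => mvL (G t) (u t) + q t))
    {a b : ℝ} (ha : a ∈ Ioc s T) (hb : b ∈ Ioc s T) (hab : a ≤ b) {g k : ℝ → ℝ}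
    (hg : IntegrableOn g (Ioc a b)) (hk : MemLp k 2 (volume.restrict (Ioc a b)))
    (hN : ∀ᵐ t ∂(volume.restrict (Ioc a b)), ∃ (c : ℝ)
      (P : Lp ℝ 1 ((volume : Measure E3).restrict Ω)) (R : ℝ≥0∞), (P, q t) ∈ W11 Ω ∧
      ∫⁻ x in Ω, (min R ‖hd c (u t x) (P x)‖ₑ) ^ 2 ≤ ENNReal.ofReal (k t ^ 2) ∧
      ∫⁻ x in {x ∈ Ω | R < ‖hd c (u t x) (P x)‖ₑ},
        ENNReal.ofReal (-(wk c (u t x) (G t x) (q t x))) ≤ ENNReal.ofReal (g t)) :
    (∫ t in a..b, (⟪f t, u t⟫_ℝ - ν * ‖G t‖ ^ 2)) = ‖u b‖ ^ 2 / 2 - ‖u a‖ ^ 2 / 2 := by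
  have hsub : Ioc a b ⊆ Ioc s T := fun x hx => ⟨ha.1.trans hx.1, hx.2.trans hb.2⟩
  set V : ℝ := (((volume : Measure E3).restrict Ω).real univ + 1) / 2 with hV
  have hall : ∀ᵐ t ∂(volume.restrict (Ioc a b)),
      (∀ ε > 0, |We Ω ε 0 u G q t| ≤ |g t| + 2 * (|k t| + V) * ‖G t‖) ∧
      Tendsto (fun ε => We Ω ε 0 u G q t) (𝓝[>] 0) (𝓝 0) := by
    filter_upwards [hN, ae_restrict_of_ae_restrict_of_subset hsub S.grad] with t h1 h2
    obtain ⟨c, P, R, hP, h0, h1⟩ := h1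
    obtain ⟨k1, k2⟩ := one_time hΩ (p := (u t, G t)) (q := (P, q t)) h2 hP h0 h1
    constructor
    · intro ε hε
      rw [We_gauge hΩ hε 0 c t h2]
      exact k1 ε hε
    · refine Tendsto.congr' ?_ k2
      filter_upwards [self_mem_nhdsWithin] with ε hε
      exact We_gauge hΩ hε c 0 t h2
  have hlim : Tendsto (fun ε => ∫ t in a..b, We Ω ε 0 u G q t) (𝓝[>] 0)
      (𝓝 (∫ t in a..b, (0 : ℝ))) := by
    have hKi : ∀ ε > 0, IntegrableOn (We Ω ε 0 u G q) (Ioc s T) := by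
      intro ε hε
      have h0 : IntegrableOn (fun t => FT Ω ν ε (f t) (G t) 0 (u t, G t)) (Ioc s T) := by
        refine Integrable.mono' (g := fun t => M * ‖f t‖ + ν * ‖G t‖ ^ 2)
          ((S.hf.norm.const_mul M).add (S.G_sq.const_mul ν)) (S.FT0_int hε).1 ?_
        filter_upwards [ae_restrict_mem measurableSet_Ioc] with t ht
        exact (S.FT0_int hε).2 t ht
      refine (h0.sub (S.kap_int hε)).congr ?_
      filter_upwards [S.grad] with t hp
      simp only [Pi.sub_apply]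
      rw [kap, FT_r hε (f t) (G t) (mvL (G t) (u t) + q t), rTr hΩ hε 0 hp (q t), We]
      ring
    have hbd : IntegrableOn (fun t => |g t| + 2 * (|k t| + V) * ‖G t‖) (Ioc a b) := by
      have h1 : MemLp (fun t => |k t| + V) 2 (volume.restrict (Ioc a b)) :=
        hk.norm.add (memLp_const V)
      have h2 : MemLp (fun t => ‖G t‖) 2 (volume.restrict (Ioc a b)) :=
        (S.hG.mono_measure (Measure.restrict_mono hsub le_rfl)).norm
      have h3 : IntegrableOn (fun t => (|k t| + V) * ‖G t‖) (Ioc a b) := h1.integrable_mul h2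
      have h4 : IntegrableOn (fun t => |g t| + 2 * ((|k t| + V) * ‖G t‖)) (Ioc a b) :=
        hg.abs.add (h3.const_mul 2)
      refine h4.congr (Eventually.of_forall fun t => ?_)
      simp only
      ring
    refine intervalIntegral.tendsto_integral_filter_of_dominated_convergence
      (fun t => |g t| + 2 * (|k t| + V) * ‖G t‖) ?_ ?_ ?_ ?_
    · filter_upwards [self_mem_nhdsWithin] with ε hε
      exact (hKi ε hε).1.mono_measure (Measure.restrict_mono (uIoc_sub ha hb) le_rfl)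
    · filter_upwards [self_mem_nhdsWithin] with ε hε
      rw [uIoc_of_le hab]
      filter_upwards [(ae_restrict_iff' measurableSet_Ioc).1 hall] with t ht hmem
      rw [Real.norm_eq_abs]
      exact (ht hmem).1 ε hε
    · exact (intervalIntegrable_iff_integrableOn_Ioc_of_le hab).2 hbd
    · rw [uIoc_of_le hab]
      filter_upwards [(ae_restrict_iff' measurableSet_Ioc).1 hall] with t ht hmem
      exact (ht hmem).2
  have h1 := tendsto_nhds_unique hlim (S.lim hΩ 0 ha hb)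
  rw [intervalIntegral.integral_zero] at h1
  linarith

end Pool.Agent.Y303.EA
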