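import Pool.Agent.Y303.EA.Work

/-!
Linear functionals given by pairings, and their commutation with integrals in time.
-/

set_option autoImplicit false
set_option linter.unusedSectionVars false

open MeasureTheory Set Filter Topology
open scoped InnerProductSpace ENNReal ContDiff NNReal

namespace Pool.Agent.Y303.EA

open H772R2.NS

section gen

variable {α : Type*} {mα : MeasurableSpace α} {μ : Measure α} {E : Type*} [NormedAddCommGroup E]
  [InnerProductSpace ℝ E]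

theorem fun2 {W : α → E} (hW : MemLp W 2 μ) : ∃ l : Lp E 2 μ →L[ℝ] ℝ,
    (∀ f : Lp E 2 μ, l f = ∫ x, ⟪f x, W x⟫_ℝ ∂μ) ∧ (∀ f, |l f| ≤ ‖f‖ * ‖hW.toLp W‖) ∧
    ∀ f : Lp E 2 μ, Integrable (fun x => ⟪f x, W x⟫_ℝ) μ := by
  have e : ∀ f : Lp E 2 μ, (fun x => ⟪(hW.toLp W) x, f x⟫_ℝ) =ᵐ[μ] fun x => ⟪f x, W x⟫_ℝ := by
    intro f
    filter_upwards [hW.coeFn_toLp] with x hx
    rw [hx, real_inner_comm]
  refine ⟨innerSL ℝ (hW.toLp W), fun f => ?_, fun f => ?_, fun f => ?_⟩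
  · rw [innerSL_apply_apply, L2.inner_def]
    exact integral_congr_ae (e f)
  · rw [innerSL_apply_apply, mul_comm]
    exact abs_real_inner_le_norm _ _
  · exact (L2.integrable_inner (𝕜 := ℝ) (hW.toLp W) f).congr (e f)

theorem fun1 {W : α → E} (hW : AEStronglyMeasurable W μ) {C : ℝ} (hC : ∀ x, ‖W x‖ ≤ C) :
    ∃ l : Lp E 1 μ →L[ℝ] ℝ,
    (∀ f : Lp E 1 μ, l f = ∫ x, ⟪f x, W x⟫_ℝ ∂μ) ∧ (∀ f, |l f| ≤ ‖f‖ * C) ∧
    ∀ f : Lp E 1 μ, Integrable (fun x => ⟪f x, W x⟫_ℝ) μ := by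
  have hi : ∀ f : Lp E 1 μ, Integrable (fun x => ⟪f x, W x⟫_ℝ) μ := by
    intro f
    refine ((integrable_norm_one f).mul_const C).mono'
      ((Lp.aestronglyMeasurable f).inner hW) (Eventually.of_forall fun x => ?_)
    refine (norm_inner_le_norm _ _).trans ?_
    gcongr
    exact hC x
  have hb : ∀ f : Lp E 1 μ, |∫ x, ⟪f x, W x⟫_ℝ ∂μ| ≤ ‖f‖ * C := by
    intro f
    rw [← Real.norm_eq_abs, L1.norm_eq_integral_norm, ← integral_mul_const]
    refine norm_integral_le_of_norm_le ((integrable_norm_one f).mul_const C)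
      (Eventually.of_forall fun x => ?_)
    refine (norm_inner_le_norm _ _).trans ?_
    gcongr
    exact hC x
  refine ⟨LinearMap.mkContinuous
    { toFun := fun f => ∫ x, ⟪f x, W x⟫_ℝ ∂μ
      map_add' := fun f g => ?_
      map_smul' := fun c f => ?_ } C (fun f => ?_), fun f => rfl, hb, hi⟩
  · rw [← integral_add (hi f) (hi g)]
    refine integral_congr_ae ?_
    filter_upwards [Lp.coeFn_add f g] with x hx
    rw [hx, Pi.add_apply, inner_add_left]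
  · rw [RingHom.id_apply, smul_eq_mul, ← integral_const_mul]
    refine integral_congr_ae ?_
    filter_upwards [Lp.coeFn_smul c f] with x hx
    rw [hx, Pi.smul_apply, real_inner_smul_left]
  · rw [mul_comm]
    exact hb f

end gen

variable {Ω : Set E3}

/-- the time derivative of `∫ u·W` -/
noncomputable def FF (Ω : Set E3) (ν : ℝ) (f : L2V Ω) (z' : L2M Ω)
    (r : Lp E3 1 ((volume : Measure E3).restrict Ω)) (W1 : E3 → E3) (W2 : E3 → M3) : ℝ :=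
  (∫ x in Ω, ⟪f x, W1 x⟫_ℝ) - ν * (∫ x in Ω, ⟪z' x, W2 x⟫_ℝ) - ∫ x in Ω, ⟪r x, W1 x⟫_ℝ

theorem FF_clm {ν : ℝ} {W1 : E3 → E3} {W2 : E3 → M3}
    (h1 : MemLp W1 2 ((volume : Measure E3).restrict Ω)) {C : ℝ} (hC : ∀ x, ‖W1 x‖ ≤ C)
    (h2 : MemLp W2 2 ((volume : Measure E3).restrict Ω)) :
    ∃ (l1 : L2V Ω →L[ℝ] ℝ) (l2 : L2M Ω →L[ℝ] ℝ)
      (l3 : Lp E3 1 ((volume : Measure E3).restrict Ω) →L[ℝ] ℝ),
      (∀ f z' r, FF Ω ν f z' r W1 W2 = l1 f - ν * l2 z' - l3 r) ∧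
      (∀ f : L2V Ω, l1 f = ∫ x in Ω, ⟪f x, W1 x⟫_ℝ) ∧
      (∀ z : L2M Ω, l2 z = ∫ x in Ω, ⟪z x, W2 x⟫_ℝ) ∧
      (∀ r : Lp E3 1 ((volume : Measure E3).restrict Ω), l3 r = ∫ x in Ω, ⟪r x, W1 x⟫_ℝ) ∧
      (∀ f, |l1 f| ≤ ‖f‖ * ‖h1.toLp W1‖) ∧ (∀ z, |l2 z| ≤ ‖z‖ * ‖h2.toLp W2‖) ∧
      (∀ r, |l3 r| ≤ ‖r‖ * C) ∧
      (∀ f : L2V Ω, Integrable (fun x => ⟪f x, W1 x⟫_ℝ) (volume.restrict Ω)) ∧
      (∀ z : L2M Ω, Integrable (fun x => ⟪z x, W2 x⟫_ℝ) (volume.restrict Ω)) ∧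
      (∀ r : Lp E3 1 ((volume : Measure E3).restrict Ω),
        Integrable (fun x => ⟪r x, W1 x⟫_ℝ) (volume.restrict Ω)) := by
  obtain ⟨l1, a1, b1, c1⟩ := fun2 h1
  obtain ⟨l2, a2, b2, c2⟩ := fun2 h2
  obtain ⟨l3, a3, b3, c3⟩ := fun1 h1.1 hC
  exact ⟨l1, l2, l3, fun f z' r => by rw [FF, a1, a2, a3], a1, a2, a3, b1, b2, b3, c1, c2, c3⟩

/-- the pairing of time integrals -/
theorem expand {ν a b : ℝ} {f : ℝ → L2V Ω} {G : ℝ → L2M Ω}
    {r : ℝ → Lp E3 1 ((volume : Measure E3).restrict Ω)}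
    (hf : IntervalIntegrable f volume a b) (hG : IntervalIntegrable G volume a b)
    (hr : IntervalIntegrable r volume a b) (d0 : L2V Ω) {W1 : E3 → E3} {W2 : E3 → M3}
    (h1 : MemLp W1 2 ((volume : Measure E3).restrict Ω)) {C : ℝ} (hC : ∀ x, ‖W1 x‖ ≤ C)
    (h2 : MemLp W2 2 ((volume : Measure E3).restrict Ω)) :
    ∫ x in Ω, (⟪(d0 - ∫ t in a..b, f t) x, W1 x⟫_ℝ
      - ⟪(-(ν • ∫ t in a..b, G t)) x, W2 x⟫_ℝ + ⟪(∫ t in a..b, r t) x, W1 x⟫_ℝ)
    = (∫ x in Ω, ⟪d0 x, W1 x⟫_ℝ) - ∫ t in a..b, FF Ω ν (f t) (G t) (r t) W1 W2 := by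
  obtain ⟨l1, l2, l3, e, a1, a2, a3, b1, b2, b3, c1, c2, c3⟩ := FF_clm (ν := ν) h1 hC h2
  have i1 : IntervalIntegrable (fun t => l1 (f t)) volume a b :=
    ⟨l1.integrable_comp hf.1, l1.integrable_comp hf.2⟩
  have i2 : IntervalIntegrable (fun t => l2 (G t)) volume a b :=
    ⟨l2.integrable_comp hG.1, l2.integrable_comp hG.2⟩
  have i3 : IntervalIntegrable (fun t => l3 (r t)) volume a b :=
    ⟨l3.integrable_comp hr.1, l3.integrable_comp hr.2⟩
  have s1 : Integrable (fun x => ⟪(d0 - ∫ t in a..b, f t) x, W1 x⟫_ℝ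
      - ⟪(-(ν • ∫ t in a..b, G t)) x, W2 x⟫_ℝ) (volume.restrict Ω) := (c1 _).sub (c2 _)
  rw [integral_add s1 (c3 _), integral_sub (c1 _) (c2 _), ← a1, ← a2, ← a3, ← a1]
  simp only [e]
  rw [intervalIntegral.integral_sub (i1.sub (i2.const_mul ν)) i3,
    intervalIntegral.integral_sub i1 (i2.const_mul ν), intervalIntegral.integral_const_mul,
    l1.intervalIntegral_comp_comm hf, l2.intervalIntegral_comp_comm hG,
    l3.intervalIntegral_comp_comm hr, map_sub, map_neg, map_smul, smul_eq_mul]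
  ring

theorem FF_ii {ν a b : ℝ} {f : ℝ → L2V Ω} {G : ℝ → L2M Ω}
    {r : ℝ → Lp E3 1 ((volume : Measure E3).restrict Ω)}
    (hf : IntervalIntegrable f volume a b) (hG : IntervalIntegrable G volume a b)
    (hr : IntervalIntegrable r volume a b) {W1 : E3 → E3} {W2 : E3 → M3}
    (h1 : MemLp W1 2 ((volume : Measure E3).restrict Ω)) {C : ℝ} (hC : ∀ x, ‖W1 x‖ ≤ C)
    (h2 : MemLp W2 2 ((volume : Measure E3).restrict Ω)) :
    IntervalIntegrable (fun t => FF Ω ν (f t) (G t) (r t) W1 W2) volume a b := by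
  obtain ⟨l1, l2, l3, e, a1, a2, a3, b1, b2, b3, c1, c2, c3⟩ := FF_clm (ν := ν) h1 hC h2
  have i1 : IntervalIntegrable (fun t => l1 (f t)) volume a b :=
    ⟨l1.integrable_comp hf.1, l1.integrable_comp hf.2⟩
  have i2 : IntervalIntegrable (fun t => l2 (G t)) volume a b :=
    ⟨l2.integrable_comp hG.1, l2.integrable_comp hG.2⟩
  have i3 : IntervalIntegrable (fun t => l3 (r t)) volume a b :=
    ⟨l3.integrable_comp hr.1, l3.integrable_comp hr.2⟩
  simp only [e]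
  exact (i1.sub (i2.const_mul ν)).sub i3

/-- the identity tested with a truncation -/
theorem test_Tr {ν a b : ℝ} {f : ℝ → L2V Ω} {G : ℝ → L2M Ω}
    {r : ℝ → Lp E3 1 ((volume : Measure E3).restrict Ω)}
    (hf : IntervalIntegrable f volume a b) (hG : IntervalIntegrable G volume a b)
    (hr : IntervalIntegrable r volume a b) {d0 : L2V Ω}
    (h : ∀ ψ : E3 → E3, ContDiff ℝ ∞ ψ → HasCompactSupport ψ → tsupport ψ ⊆ Ω →
      ∫ x in Ω, ⟪d0 x, ψ x⟫_ℝ = ∫ t in a..b, FF Ω ν (f t) (G t) (r t) ψ (jac ψ))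
    {ε : ℝ} (hε : 0 < ε) {p : L2V Ω × L2M Ω} (hp : p ∈ graphW Ω)
    (hW1 : MemLp (fun x => Tr ε (p.1 x)) 2 ((volume : Measure E3).restrict Ω))
    (hW2 : MemLp (fun x => dt ε (p.1 x) (p.2 x)) 2 ((volume : Measure E3).restrict Ω)) :
    ∫ x in Ω, ⟪d0 x, Tr ε (p.1 x)⟫_ℝ = ∫ t in a..b, FF Ω ν (f t) (G t) (r t)
      (fun x => Tr ε (p.1 x)) (fun x => dt ε (p.1 x) (p.2 x)) := by
  have key := ext_id (d := d0 - ∫ t in a..b, f t) (A := -(ν • ∫ t in a..b, G t))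
    (R := ∫ t in a..b, r t) hε (fun ψ k1 k2 k3 => ?_) hp
  · rw [expand hf hG hr d0 hW1 (C := 1 / √ε) (fun x => norm_Tr_le' hε _) hW2] at key
    linarith
  · obtain ⟨C, hC⟩ := k1.continuous.bounded_above_of_compact_support k2
    rw [expand hf hG hr d0 (k1.continuous.memLp_of_hasCompactSupport k2) hC
      ((continuous_jac k1).memLp_of_hasCompactSupport (hasCompactSupport_jac k2)),
      h ψ k1 k2 k3, sub_self]

theorem memLp_Tr {ε : ℝ} (hε : 0 < ε) (v : L2V Ω) :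
    MemLp (fun x => Tr ε (v x)) 2 ((volume : Measure E3).restrict Ω) :=
  (Lp.memLp v).of_le ((cont_Tr hε.le).comp_aestronglyMeasurable (Lp.aestronglyMeasurable v))
    (Eventually.of_forall fun x => norm_Tr_le hε.le _)

theorem memLp_dt {ε : ℝ} (hε : 0 < ε) (p : L2V Ω × L2M Ω) :
    MemLp (fun x => dt ε (p.1 x) (p.2 x)) 2 ((volume : Measure E3).restrict Ω) := by
  have h := aesm2 (cont_dt hε.le) p
  exact (Lp.memLp p.2).of_le h (Eventually.of_forall fun x => norm_dt_le hε.le _ _)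

/-- the functional at a truncation -/
noncomputable def FT (Ω : Set E3) (ν ε : ℝ) (f : L2V Ω) (z' : L2M Ω)
    (r : Lp E3 1 ((volume : Measure E3).restrict Ω)) (p : L2V Ω × L2M Ω) : ℝ :=
  FF Ω ν f z' r (fun x => Tr ε (p.1 x)) (fun x => dt ε (p.1 x) (p.2 x))

theorem FT_bound {ν ε : ℝ} (hν : 0 ≤ ν) (hε : 0 < ε) (f : L2V Ω) (z' : L2M Ω)
    (r : Lp E3 1 ((volume : Measure E3).restrict Ω)) (p : L2V Ω × L2M Ω) :
    |FT Ω ν ε f z' r p| ≤ ‖f‖ * ‖p.1‖ + ν * (‖z'‖ * ‖p.2‖) + ‖r‖ * (1 / √ε) := by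
  obtain ⟨l1, l2, l3, e, a1, a2, a3, b1, b2, b3, c1, c2, c3⟩ := FF_clm (ν := ν) (memLp_Tr hε p.1)
    (C := 1 / √ε) (fun x => norm_Tr_le' hε _) (memLp_dt hε p)
  rw [FT, e]
  have k1 : ‖(memLp_Tr hε p.1).toLp _‖ ≤ ‖p.1‖ := by
    refine Lp.norm_le_norm_of_ae_le ?_
    filter_upwards [(memLp_Tr hε p.1).coeFn_toLp] with x hx
    rw [hx]
    exact norm_Tr_le hε.le _
  have k2 : ‖(memLp_dt hε p).toLp _‖ ≤ ‖p.2‖ := by
    refine Lp.norm_le_norm_of_ae_le ?_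
    filter_upwards [(memLp_dt hε p).coeFn_toLp] with x hx
    rw [hx]
    exact norm_dt_le hε.le _ _
  have j1 : |l1 f| ≤ ‖f‖ * ‖p.1‖ := (b1 f).trans (by gcongr)
  have j2 : |ν * l2 z'| ≤ ν * (‖z'‖ * ‖p.2‖) := by
    rw [abs_mul, abs_of_nonneg hν]
    gcongr
    exact (b2 z').trans (by gcongr)
  have j3 := b3 r
  have j4 := abs_sub (l1 f - ν * l2 z') (l3 r)
  have j5 := abs_sub (l1 f) (ν * l2 z')
  linarith

theorem FT_sub {ν ε : ℝ} (hε : 0 < ε) (f f' : L2V Ω) (z z' : L2M Ω)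
    (r r' : Lp E3 1 ((volume : Measure E3).restrict Ω)) (p : L2V Ω × L2M Ω) :
    FT Ω ν ε f z r p - FT Ω ν ε f' z' r' p = FT Ω ν ε (f - f') (z - z') (r - r') p := by
  obtain ⟨l1, l2, l3, e, a1, a2, a3, b1, b2, b3, c1, c2, c3⟩ := FF_clm (ν := ν) (memLp_Tr hε p.1)
    (C := 1 / √ε) (fun x => norm_Tr_le' hε _) (memLp_dt hε p)
  simp only [FT, e, map_sub]
  ring

/-- the potential energy -/
noncomputable def Ps (Ω : Set E3) (ε : ℝ) (v : L2V Ω) : ℝ := ∫ x in Ω, Ph ε (v x)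

theorem Ph_int {ε : ℝ} (hε : 0 < ε) (v : L2V Ω) :
    Integrable (fun x => Ph ε (v x)) (volume.restrict Ω) := by
  refine ((integrable_norm_sq v).div_const 2).mono'
    ((cont_Ph hε.le).comp_aestronglyMeasurable (Lp.aestronglyMeasurable v))
    (Eventually.of_forall fun x => ?_)
  rw [Real.norm_of_nonneg (Ph_nonneg hε.le _)]
  exact Ph_le hε.le _

theorem Ps_conv {ε : ℝ} (hε : 0 < ε) (v w : L2V Ω) :
    ∫ x in Ω, ⟪(w - v) x, Tr ε (v x)⟫_ℝ ≤ Ps Ω ε w - Ps Ω ε v := by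
  obtain ⟨l, _, _, c⟩ := fun2 (memLp_Tr hε v)
  unfold Ps
  rw [← integral_sub (Ph_int hε w) (Ph_int hε v)]
  refine integral_mono_ae (c (w - v)) ((Ph_int hε w).sub (Ph_int hε v)) ?_
  filter_upwards [Lp.coeFn_sub w v] with x hx
  rw [hx, Pi.sub_apply, real_inner_comm]
  exact conv hε _ _

theorem Ps_nonneg {ε : ℝ} (hε : 0 < ε) (v : L2V Ω) : 0 ≤ Ps Ω ε v :=
  integral_nonneg fun _ => Ph_nonneg hε.le _

theorem Ps_le {ε : ℝ} (hε : 0 < ε) (v : L2V Ω) : Ps Ω ε v ≤ ‖v‖ ^ 2 / 2 := by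
  rw [← int_norm_sq, ← integral_div]
  exact integral_mono_ae (Ph_int hε v) ((integrable_norm_sq v).div_const 2)
    (Eventually.of_forall fun _ => Ph_le hε.le _)

theorem Ps_cont {ε : ℝ} (hε : 0 < ε) : Continuous (Ps Ω ε) := by
  have hPh := (cont_Ph hε.le).comp (by fun_prop : Continuous fun q : ℝ × (E3 × M3) => q.2.1)
  simp only [Function.comp_def] at hPh
  have h := nem2 (Ω := Ω) (P := ℝ) (h := fun _ => 0) aestronglyMeasurable_const
    (f := fun _ q => Ph ε q.1) (g := 0) (C := 1 / 2) hPh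
    (integrable_zero _ _ _) (Eventually.of_forall fun x a b => by
      rw [abs_of_nonneg (Ph_nonneg hε.le _), Pi.zero_apply]
      have := Ph_le hε.le a
      nlinarith [sq_nonneg ‖b‖])
  have h2 := h.comp (by fun_prop : Continuous fun v : L2V Ω => ((v, 0) : L2V Ω × L2M Ω))
  simp only [Function.comp_def] at h2
  have e : Ps Ω ε = fun v => ∫ x in Ω, Ph ε (v x) := rfl
  rw [e]
  exact h2

/-- continuity of the functional on the diagonal -/
theorem FT_cont {ν ε : ℝ} (hε : 0 < ε) : Continuous fun q : (L2V Ω × L2M Ω) ×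
    (L2V Ω × Lp E3 1 ((volume : Measure E3).restrict Ω)) => FT Ω ν ε q.2.1 q.1.2 q.2.2 q.1 := by
  have hTr := cont_Tr hε.le
  have t1 := hTr.comp (by fun_prop : Continuous fun q : ℝ × (E3 × E3 × ℝ × ℝ) => q.2.1)
  have t2 := hTr.comp (by fun_prop : Continuous fun q : ℝ × (E3 × E3 × ℝ × E3) => q.2.1)
  simp only [Function.comp_def] at t1 t2
  have h1 : Continuous fun p : L2V Ω × L2V Ω => ∫ x in Ω, ⟪p.2 x, Tr ε (p.1 x)⟫_ℝ := by
    have h := nem (μ := (volume : Measure E3).restrict Ω) (P := ℝ) (E := E3) (F := E3)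
      (K := ℝ) (K' := ℝ) (h := fun _ => 0) aestronglyMeasurable_const
      (f := fun _ q => ⟪q.2.1, Tr ε q.1⟫_ℝ) (g := 0) (C := 1)
      ((by fun_prop : Continuous fun q : ℝ × (E3 × E3 × ℝ × ℝ) => q.2.2.1).inner t1)
      (integrable_zero _ _ _) (Eventually.of_forall fun x a b c d => by
        refine (abs_real_inner_le_norm _ _).trans ?_
        have k1 := norm_Tr_le hε.le a
        have k2 : ‖b‖ * ‖Tr ε a‖ ≤ ‖b‖ * ‖a‖ := by gcongr
        simp only [Pi.zero_apply]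
        nlinarith [sq_nonneg (‖a‖ - ‖b‖), norm_nonneg c, norm_nonneg d, sq_nonneg ‖a‖,
          sq_nonneg ‖b‖])
    have h2 := h.comp (by fun_prop : Continuous fun v : L2V Ω × L2V Ω =>
      ((v.1, v.2, 0, 0) : L2V Ω × L2V Ω × Lp ℝ 1 ((volume : Measure E3).restrict Ω)
        × Lp ℝ 1 ((volume : Measure E3).restrict Ω)))
    simp only [Function.comp_def] at h2
    exact h2
  have h2 : Continuous fun p : L2V Ω × L2M Ω => ∫ x in Ω, ⟪p.2 x, dt ε (p.1 x) (p.2 x)⟫_ℝ := by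
    have hdt := (cont_dt hε.le).comp (by fun_prop : Continuous fun q : ℝ × (E3 × M3) => q.2)
    simp only [Function.comp_def] at hdt
    have hc := (by fun_prop : Continuous fun q : ℝ × (E3 × M3) => q.2.2).inner (𝕜 := ℝ) hdt
    have h := nem2 (Ω := Ω) (P := ℝ) (h := fun _ => 0) aestronglyMeasurable_const
      (f := fun _ q => ⟪q.2, dt ε q.1 q.2⟫_ℝ) (g := 0) (C := 1) hc
      (integrable_zero _ _ _) (Eventually.of_forall fun x a b => by
        refine (abs_real_inner_le_norm _ _).trans ?_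
        have k1 := norm_dt_le hε.le a b
        have k2 : ‖b‖ * ‖dt ε a b‖ ≤ ‖b‖ * ‖b‖ := by gcongr
        simp only [Pi.zero_apply]
        nlinarith [sq_nonneg ‖a‖])
    exact h
  have h3 : Continuous fun p : L2V Ω × Lp E3 1 ((volume : Measure E3).restrict Ω) =>
      ∫ x in Ω, ⟪p.2 x, Tr ε (p.1 x)⟫_ℝ := by
    have h := nem (μ := (volume : Measure E3).restrict Ω) (P := ℝ) (E := E3) (F := E3)
      (K := ℝ) (K' := E3) (h := fun _ => 0) aestronglyMeasurable_const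
      (f := fun _ q => ⟪q.2.2.2, Tr ε q.1⟫_ℝ) (g := 0) (C := 1 / √ε)
      ((by fun_prop : Continuous fun q : ℝ × (E3 × E3 × ℝ × E3) => q.2.2.2.2).inner t2)
      (integrable_zero _ _ _) (Eventually.of_forall fun x a b c d => by
        refine (abs_real_inner_le_norm _ _).trans ?_
        have k1 := norm_Tr_le' hε a
        have k2 : ‖d‖ * ‖Tr ε a‖ ≤ ‖d‖ * (1 / √ε) := by gcongr
        have k3 : 0 ≤ 1 / √ε := by positivity
        have k4 : 0 ≤ ‖a‖ ^ 2 + ‖b‖ ^ 2 + ‖c‖ := by positivity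
        simp only [Pi.zero_apply]
        nlinarith [mul_nonneg k3 k4])
    have h2 := h.comp (by fun_prop : Continuous
      fun v : L2V Ω × Lp E3 1 ((volume : Measure E3).restrict Ω) =>
      ((v.1, 0, 0, v.2) : L2V Ω × L2V Ω × Lp ℝ 1 ((volume : Measure E3).restrict Ω)
        × Lp E3 1 ((volume : Measure E3).restrict Ω)))
    simp only [Function.comp_def] at h2
    exact h2
  unfold FT FF
  have g1 := h1.comp (by fun_prop : Continuous fun q : (L2V Ω × L2M Ω) ×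
    (L2V Ω × Lp E3 1 ((volume : Measure E3).restrict Ω)) => (q.1.1, q.2.1))
  have g2 := h2.comp (by fun_prop : Continuous fun q : (L2V Ω × L2M Ω) ×
    (L2V Ω × Lp E3 1 ((volume : Measure E3).restrict Ω)) => q.1)
  have g3 := h3.comp (by fun_prop : Continuous fun q : (L2V Ω × L2M Ω) ×
    (L2V Ω × Lp E3 1 ((volume : Measure E3).restrict Ω)) => (q.1.1, q.2.2))
  simp only [Function.comp_def] at g1 g2 g3
  exact (g1.sub (g2.const_mul ν)).sub g3

end Pool.Agent.Y303.EA
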