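import Pool.Agent.W795.ES.PubDef

/-!
Public definitions: the space `L¹`, the Sobolev space `W^{1,1}`, the gradient of the pressure of a
weak solution, and its work.
-/

set_option autoImplicit false

open MeasureTheory Set
open scoped InnerProductSpace ENNReal ContDiff

namespace Pool.Agent.Y303.EA

open H772R2.NS.Pub
open Pool.Agent.W795.ES (outer)

/-- The space `L¹(Ω; E)`. -/
def L1 (Ω : Set R3) (E : Type) [NormedAddCommGroup E] : Type :=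
  Lp E 1 ((volume : Measure R3).restrict Ω)

noncomputable instance L1.nacg (Ω : Set R3) (E : Type) [NormedAddCommGroup E] :
    NormedAddCommGroup (L1 Ω E) :=
  (inferInstance : NormedAddCommGroup (Lp E 1 ((volume : Measure R3).restrict Ω)))

/-- A function representing the class `v ∈ L¹(Ω; E)`. -/
noncomputable def L1.fn {Ω : Set R3} {E : Type} [NormedAddCommGroup E] (v : L1 Ω E) : R3 → E :=
  ((show Lp E 1 ((volume : Measure R3).restrict Ω) from v) : R3 → E)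

/-- The gradient of the function `ψ` at `x`: the vector with the components `∂ψ/∂x_i`. -/
noncomputable def grad (ψ : R3 → ℝ) (x : R3) : R3 := ∑ i, fderiv ℝ ψ x (e i) • e i

/-- The graph of the gradient of the Sobolev space `W^{1,1}(Ω)`: the closure in
`L¹(Ω) × L¹(Ω)³` of the pairs `(ψ, ∇ψ)`, where `ψ` is smooth in the open set `Ω` and `ψ`, `∇ψ` are
integrable over `Ω`. -/
def W11graph (Ω : Set R3) : Set (L1 Ω ℝ × L1 Ω R3) :=
  closure {p | ∃ ψ : R3 → ℝ, ContDiffOn ℝ ∞ ψ Ω ∧ p.1.fn =ᵐ[volume.restrict Ω] ψ ∧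
    p.2.fn =ᵐ[volume.restrict Ω] grad ψ}

/-- `q(t) = ∇p(t)` is the gradient of the pressure of the weak solution `u` in `Ω × (0,T)`, with
`∇u = G` and force `f`:
* `q ∈ L¹(s,T; L¹(Ω)³)` for every `s ∈ (0,T)`;
* for almost every `t` there is `p(t) ∈ W^{1,1}(Ω)` with `∇p(t) = q(t)`;
* the equations hold in the sense of distributions, integrated in time from `s` to `t`, for all
  `0 < s ≤ t ≤ T`; the test fields are not divergence free. -/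
structure IsPressureGradient (Ω : Set R3) (ν T : ℝ) (u : ℝ → L2 Ω R3) (G : ℝ → L2 Ω Mat)
    (f : ℝ → L2 Ω R3) (q : ℝ → L1 Ω R3) : Prop where
  int : ∀ s ∈ Ioo 0 T, IntegrableOn q (Ioo s T)
  grad : ∀ᵐ t ∂(volume.restrict (Ioo 0 T)), ∃ p : L1 Ω ℝ, (p, q t) ∈ W11graph Ω
  eqn : ∀ φ : R3 → R3, ContDiff ℝ ∞ φ → HasCompactSupport φ → tsupport φ ⊆ Ω →
    ∀ s ∈ Ioc 0 T, ∀ t ∈ Icc s T,
      (∫ x in Ω, ⟪(u t).fn x, φ x⟫_ℝ) - (∫ x in Ω, ⟪(u s).fn x, φ x⟫_ℝ)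
        = ∫ τ in s..t, ((∫ x in Ω, ⟪(u τ).fn x, fderiv ℝ φ x ((u τ).fn x)⟫_ℝ)
          - ν * (∫ x in Ω, ⟪(G τ).fn x, jac φ x⟫_ℝ) + (∫ x in Ω, ⟪(f τ).fn x, φ x⟫_ℝ)
          - ∫ x in Ω, ⟪(q τ).fn x, φ x⟫_ℝ)

/-- The function `v·∇(p + c|v|²/2) = v·q + c ∑ v_i v_j ∂_j v_i`, where `z = ∇v` and `q = ∇p`. -/
noncomputable def work {Ω : Set R3} (c : ℝ) (v : L2 Ω R3) (z : L2 Ω Mat) (q : L1 Ω R3)
    (x : R3) : ℝ :=
  ⟪q.fn x, v.fn x⟫_ℝ + c * ⟪z.fn x, outer (v.fn x)⟫_ℝ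

/-- There are functions `g ∈ L¹(s,t)` and `k ∈ L²(s,t)` such that for almost every time
`τ ∈ (s,t)`, with a number `c`, a pressure `p ∈ W^{1,1}(Ω)`, `∇p = q(τ)`, and a threshold
`R ∈ [0,∞]`, which may depend on `τ`, the head `H = p + c|u(τ)|²/2` satisfies
* `‖min(R, |H|)‖_{L²(Ω)} ≤ |k(τ)|`,
* the integral of the negative part of `u·∇H` over `{x ∈ Ω : |H(x)| > R}` is at most `g(τ)`. -/
def IsWorkBounded {Ω : Set R3} (u : ℝ → L2 Ω R3) (G : ℝ → L2 Ω Mat) (q : ℝ → L1 Ω R3)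
    (s t : ℝ) : Prop :=
  ∃ g k : ℝ → ℝ, IntegrableOn g (Ioo s t) ∧ MemLp k 2 (volume.restrict (Ioo s t)) ∧
    ∀ᵐ τ ∂(volume.restrict (Ioo s t)), ∃ (c : ℝ) (p : L1 Ω ℝ) (R : ℝ≥0∞),
      (p, q τ) ∈ W11graph Ω ∧
      ∫⁻ x in Ω, (min R ‖p.fn x + c * (‖(u τ).fn x‖ ^ 2 / 2)‖ₑ) ^ 2 ≤ ENNReal.ofReal (k τ ^ 2) ∧
      ∫⁻ x in {x ∈ Ω | R < ‖p.fn x + c * (‖(u τ).fn x‖ ^ 2 / 2)‖ₑ},
        ENNReal.ofReal (-work c (u τ) (G τ) (q τ) x) ≤ ENNReal.ofReal (g τ)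

end Pool.Agent.Y303.EA
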