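import Pool.Agent.Y303.EA.Fin
import Pool.Agent.Y303.EA.PubDef
import Pool.Agent.H772R2.NS.PubBridge

/-!
The balance of energy and the work of the pressure, in terms of the public definitions.
-/

set_option autoImplicit false
set_option linter.unusedSectionVars false

open MeasureTheory Set Filter Topology
open scoped InnerProductSpace ENNReal ContDiff NNReal

namespace Pool.Agent.Y303.EA

open H772R2.NS H772R2.NS.Pub
open Pool.Agent.W795.ES (outer)

theorem grad_eq (ψ : E3 → ℝ) (x : E3) : (EA.grad ψ x : E3) = grd ψ x := by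
  have h1 : (∑ i : Fin 3, fderiv ℝ ψ x (ev i) • (ev i : E3) : E3) = grd ψ x := by
    ext j
    rw [grd_apply]
    simp [Pi.single_apply]
  exact h1

theorem outer_eq' (y : E3) : (outer y : M3) = tens y := by
  refine PiLp.ext fun r => ?_
  show ⟪(Pub.e r.1 : E3), (y : E3)⟫_ℝ * ⟪(Pub.e r.2 : E3), (y : E3)⟫_ℝ = _
  rw [inner_e, inner_e]
  rfl

theorem isClass_grad {Ω : Set R3} (v : Lp E3 1 ((volume : Measure E3).restrict (Ω : Set E3)))
    (ψ : E3 → ℝ) :
    (L1.fn (Ω := Ω) (E := R3) v =ᵐ[volume.restrict Ω] EA.grad ψ)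
      ↔ v =ᵐ[volume.restrict (Ω : Set E3)] grd ψ := by
  have hj : (EA.grad ψ : E3 → E3) = grd ψ := funext (grad_eq ψ)
  have h : (L1.fn (Ω := Ω) (E := R3) v =ᵐ[volume.restrict Ω] EA.grad ψ)
      ↔ v =ᵐ[volume.restrict (Ω : Set E3)] (EA.grad ψ : E3 → E3) := Iff.rfl
  rw [h, hj]

theorem W11_eq {Ω : Set R3} : (W11graph Ω :
    Set (Lp ℝ 1 ((volume : Measure E3).restrict Ω) × Lp E3 1 ((volume : Measure E3).restrict Ω)))
    = W11 (Ω : Set E3) := by
  have : {p : L1 Ω ℝ × L1 Ω R3 | ∃ ψ : R3 → ℝ,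
      ContDiffOn ℝ ∞ ψ Ω ∧ p.1.fn =ᵐ[volume.restrict Ω] ψ ∧
      p.2.fn =ᵐ[volume.restrict Ω] EA.grad ψ} = pre11 (Ω : Set E3) := by
    ext p
    constructor
    · rintro ⟨ψ, h1, h2, h3⟩
      exact ⟨ψ, h1, h2, (isClass_grad _ ψ).mp h3⟩
    · rintro ⟨ψ, h1, h2, h3⟩
      exact ⟨ψ, h1, h2, (isClass_grad _ ψ).mpr h3⟩
  unfold W11graph W11
  rw [this]
  rfl

theorem work_pub {Ω : Set E3} (c : ℝ) (v : L2V Ω) (z : L2M Ω)
    (q : Lp E3 1 ((volume : Measure E3).restrict Ω)) (x : E3) :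
    work (Ω := (show Set R3 from Ω)) c v z q x = wk c (v x) (z x) (q x) := by
  have h1 : work (Ω := (show Set R3 from Ω)) c v z q x
      = ⟪(q x : E3), (v x : E3)⟫_ℝ + c * ⟪(z x : M3), (outer (v x) : M3)⟫_ℝ := rfl
  rw [h1, outer_eq', wk]

/-- the theorem, internal form -/
theorem ea_pub {Ω : Set E3} (hΩ : IsOpen Ω) (hb : Bornology.IsBounded Ω) {ν T : ℝ} (hν : 0 < ν)
    (hT : 0 < T) {u : ℝ → L2V Ω} {G : ℝ → L2M Ω} {f : ℝ → L2V Ω}
    (h : H772R2.NS.IsWeakSolution Ω ν T u G f)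
    {q : ℝ → Lp E3 1 ((volume : Measure E3).restrict Ω)}
    (hq : IsPressureGradient (show Set R3 from Ω) ν T u G f q) :
    (∀ᵐ t ∂(volume.restrict (Ioo 0 T)), ∀ c : ℝ,
      ∫⁻ x in (show Set R3 from Ω),
          ENNReal.ofReal (work (Ω := (show Set R3 from Ω)) c (u t) (G t) (q t) x)
        = ∫⁻ x in (show Set R3 from Ω),
          ENNReal.ofReal (-work (Ω := (show Set R3 from Ω)) c (u t) (G t) (q t) x)) ∧
    (∀ c : ℝ, ∀ s ∈ Ioc 0 T, ∀ t ∈ Icc s T,
      Tendsto (fun ε : ℝ => ∫ τ in s..t, ∫ x in (show Set R3 from Ω),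
        work (Ω := (show Set R3 from Ω)) c (u τ) (G τ) (q τ) x
          / √(1 + ε * ‖L2.fn (Ω := Ω) (E := R3) (u τ) x‖ ^ 2)) (𝓝[>] 0)
        (𝓝 (Pub.energyDefect (Ω := (show Set R3 from Ω)) ν u G f t
          - Pub.energyDefect (Ω := (show Set R3 from Ω)) ν u G f s))) ∧
    (∀ s ∈ Ioc 0 T, ∀ t ∈ Icc s T, IsWorkBounded (Ω := (show Set R3 from Ω)) u G q s t →
      Pub.energyDefect (Ω := (show Set R3 from Ω)) ν u G f s
        = Pub.energyDefect (Ω := (show Set R3 from Ω)) ν u G f t) ∧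
    ((∀ t ∈ Icc 0 T, 0 ≤ Pub.energyDefect (Ω := (show Set R3 from Ω)) ν u G f t) →
      (∀ s ∈ Ioo 0 T, IsWorkBounded (Ω := (show Set R3 from Ω)) u G q s T) →
      ∀ t ∈ Icc 0 T, Pub.energyDefect (Ω := (show Set R3 from Ω)) ν u G f t = 0) := by
  have : IsFiniteMeasure ((volume : Measure E3).restrict Ω) :=
    ⟨by rw [Measure.restrict_apply_univ]; exact hb.measure_lt_top⟩
  have hint : ∀ s ∈ Ioo 0 T, IntegrableOn q (Ioo s T) := hq.int
  have hW : ∀ᵐ t ∂(volume.restrict (Ioo 0 T)), ∃ P, (P, q t) ∈ W11 Ω := by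
    have h1 := hq.grad
    filter_upwards [h1] with t ht
    obtain ⟨P, hP⟩ := ht
    refine ⟨P, ?_⟩
    have h2 : (P, q t) ∈ (W11graph (show Set R3 from Ω) : Set (Lp ℝ 1
      ((volume : Measure E3).restrict Ω) × Lp E3 1 ((volume : Measure E3).restrict Ω))) := hP
    exact (Set.ext_iff.1 (W11_eq (Ω := (show Set R3 from Ω))) (P, q t)).1 h2
  have heq : PEq Ω ν T u G f q := by
    intro ψ h1 h2 h3 a ha b hb
    have key := hq.eqn ψ h1 h2 h3 a ha b hb
    have hj : (Pub.jac ψ : E3 → M3) = H772R2.NS.jac ψ := funext (jac_eq ψ)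
    have key' : (∫ x in Ω, ⟪u b x, ψ x⟫_ℝ) - (∫ x in Ω, ⟪u a x, ψ x⟫_ℝ)
      = ∫ t in a..b, ((∫ x in Ω, ⟪u t x, fderiv ℝ ψ x (u t x)⟫_ℝ)
        - ν * (∫ x in Ω, ⟪G t x, (Pub.jac ψ : E3 → M3) x⟫_ℝ) + (∫ x in Ω, ⟪f t x, ψ x⟫_ℝ)
        - ∫ x in Ω, ⟪q t x, ψ x⟫_ℝ) := key
    rw [hj] at key'
    exact key'
  have hwork : ∀ (c t : ℝ), (fun x : E3 =>
      work (Ω := (show Set R3 from Ω)) c (u t) (G t) (q t) x)
      = fun x => wk c (u t x) (G t x) (q t x) := fun c t => funext fun x =>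
    work_pub c (u t) (G t) (q t) x
  have hneg : ∀ (c t : ℝ), ∫⁻ x in (show Set R3 from Ω),
      ENNReal.ofReal (-work (Ω := (show Set R3 from Ω)) c (u t) (G t) (q t) x)
      = ∫⁻ x in Ω, ENNReal.ofReal (-wk c (u t x) (G t x) (q t x)) := by
    intro c t
    exact lintegral_congr (μ := (volume : Measure E3).restrict Ω) fun x =>
      congrArg (fun y : ℝ => ENNReal.ofReal (-y)) (work_pub c (u t) (G t) (q t) x)
  have hpos : ∀ (c t : ℝ), ∫⁻ x in (show Set R3 from Ω),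
      ENNReal.ofReal (work (Ω := (show Set R3 from Ω)) c (u t) (G t) (q t) x)
      = ∫⁻ x in Ω, ENNReal.ofReal (wk c (u t x) (G t x) (q t x)) := by
    intro c t
    exact lintegral_congr (μ := (volume : Measure E3).restrict Ω) fun x =>
      congrArg (fun y : ℝ => ENNReal.ofReal y) (work_pub c (u t) (G t) (q t) x)
  have hone : ∀ s ∈ Ioc 0 T, ∀ t ∈ Icc s T,
      IsWorkBounded (Ω := (show Set R3 from Ω)) u G q s t →
      H772R2.NS.energyDefect ν u G f s = H772R2.NS.energyDefect ν u G f t := by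
    rintro s hs t ht ⟨g, k, hg, hk, hN⟩
    refine ea_one hΩ hν.le hT h hint heq hs ht hg hk ?_
    filter_upwards [hN] with τ hτ
    obtain ⟨c, P, R, hP, hmin, hc⟩ := hτ
    have h2 : (P, q τ) ∈ (W11graph (show Set R3 from Ω) : Set (Lp ℝ 1
      ((volume : Measure E3).restrict Ω) × Lp E3 1 ((volume : Measure E3).restrict Ω))) := hP
    refine ⟨c, P, R, (Set.ext_iff.1 (W11_eq (Ω := (show Set R3 from Ω))) (P, q τ)).1 h2,
      hmin, ?_⟩
    refine le_trans (le_of_eq ?_) hc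
    exact lintegral_congr (μ := (volume : Measure E3).restrict
      {x ∈ Ω | R < ‖hd c (u τ x) ((show Lp ℝ 1 ((volume : Measure E3).restrict Ω) from P) x)‖ₑ})
      fun x => congrArg (fun y : ℝ => ENNReal.ofReal (-y)) (work_pub c (u τ) (G τ) (q τ) x).symm
  refine ⟨?_, ?_, hone, ?_⟩
  · filter_upwards [hW, h.grad] with t h1 h2 c
    obtain ⟨P, hP⟩ := h1
    exact (hpos c t).trans ((work_eq hΩ c (p := (u t, G t)) (mem_graphW.2 h2) hP).trans
      (hneg c t).symm)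
  · intro c s hs t ht
    have key := ea_lim hΩ hν.le hT h hint heq c hs (b := t) ⟨hs.1.trans_le ht.1, ht.2⟩
    refine key.congr fun ε => ?_
    refine intervalIntegral.integral_congr fun τ _ => ?_
    refine integral_congr_ae (μ := (volume : Measure E3).restrict Ω)
      (Eventually.of_forall fun x => ?_)
    have e1 := work_pub c (u τ) (G τ) (q τ) x
    have e2 : th ε (u τ x) * wk c (u τ x) (G τ x) (q τ x)
        = wk c (u τ x) (G τ x) (q τ x) / √(1 + ε * ‖u τ x‖ ^ 2) := by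
      rw [th, aa]
      ring
    refine e2.trans ?_
    rw [← e1]
    rfl
  · intro hen hg
    refine ea_eq hT h hν.le hen fun a ha => ?_
    rcases ha.2.eq_or_lt with h1 | h1
    · rw [h1]
    · exact hone a ha T ⟨ha.2, le_rfl⟩ (hg a ⟨ha.1, h1⟩)

end Pool.Agent.Y303.EA
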