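import Mathlib

/-!
A function of one real variable whose increments are controlled from one side at almost every
point is a primitive.
-/

set_option autoImplicit false
set_option linter.unusedSectionVars false

open MeasureTheory Set Filter Topology
open scoped ENNReal NNReal

namespace Pool.Agent.Y303.EA

/-- kernels which are small near the diagonal -/
def Sm (s T : ℝ) (E : ℝ → ℝ → ℝ) : Prop :=
  ∀ δ > 0, ∃ h0 > 0, ∃ g : ℝ → ℝ, (∀ x, 0 ≤ g x) ∧ Integrable g ∧ (∫ x, g x) ≤ δ ∧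
    ∀ τ ∈ Ioc s T, ∀ a ∈ Ioc s T, |τ - a| < h0 → E τ a ≤ g τ + g a

theorem Sm.add {s T : ℝ} {E E' : ℝ → ℝ → ℝ} (h : Sm s T E) (h' : Sm s T E') :
    Sm s T (fun τ a => E τ a + E' τ a) := by
  intro δ hδ
  obtain ⟨h0, hh0, g, g0, g1, g2, g3⟩ := h (δ / 2) (by positivity)
  obtain ⟨h0', hh0', g', g0', g1', g2', g3'⟩ := h' (δ / 2) (by positivity)
  refine ⟨min h0 h0', lt_min hh0 hh0', fun x => g x + g' x, fun x => add_nonneg (g0 x) (g0' x),
    g1.add g1', ?_, fun τ hτ a ha hlt => ?_⟩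
  · rw [integral_add g1 g1']
    linarith
  · have k1 := g3 τ hτ a ha (hlt.trans_le (min_le_left _ _))
    have k2 := g3' τ hτ a ha (hlt.trans_le (min_le_right _ _))
    linarith

theorem Sm.const_mul {s T c : ℝ} (hc : 0 ≤ c) {E : ℝ → ℝ → ℝ} (h : Sm s T E) :
    Sm s T (fun τ a => c * E τ a) := by
  intro δ hδ
  obtain ⟨h0, hh0, g, g0, g1, g2, g3⟩ := h (δ / (c + 1)) (by positivity)
  refine ⟨h0, hh0, fun x => c * g x, fun x => mul_nonneg hc (g0 x), g1.const_mul c, ?_,
    fun τ hτ a ha hlt => ?_⟩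
  · rw [integral_const_mul]
    calc c * ∫ x, g x ≤ c * (δ / (c + 1)) := by gcongr
      _ ≤ (c + 1) * (δ / (c + 1)) := by gcongr; linarith
      _ = δ := by field_simp
  · have k1 := g3 τ hτ a ha hlt
    nlinarith

theorem Sm.mono {s T : ℝ} {E E' : ℝ → ℝ → ℝ} (h : Sm s T E)
    (hle : ∀ τ ∈ Ioc s T, ∀ a ∈ Ioc s T, E' τ a ≤ E τ a) : Sm s T E' := by
  intro δ hδ
  obtain ⟨h0, hh0, g, g0, g1, g2, g3⟩ := h δ hδ
  exact ⟨h0, hh0, g, g0, g1, g2, fun τ hτ a ha hlt => (hle τ hτ a ha).trans (g3 τ hτ a ha hlt)⟩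

variable {X : Type*} [NormedAddCommGroup X] [NormedSpace ℝ X] {s T : ℝ}

theorem Sm_norm (hsT : s < T) {f : ℝ → X} (hf : IntegrableOn f (Ioc s T)) :
    Sm s T (fun τ a => ‖f τ - f a‖) := by
  intro δ hδ
  obtain ⟨φ, _, h2, h3, h4⟩ := hf.exists_hasCompactSupport_integral_sub_le
    (ε := δ / 2) (by positivity)
  set ω : ℝ := δ / (T - s) with hω
  have hTs : 0 < T - s := sub_pos.2 hsT
  have hω0 : 0 < ω := by positivity
  obtain ⟨h0, hh0, huc⟩ := Metric.uniformContinuousOn_iff.1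
    (isCompact_Icc.uniformContinuousOn_of_continuous h3.continuousOn (s := Icc s T)) ω hω0
  have hi : IntegrableOn (fun x => ‖f x - φ x‖ + ω / 2) (Ioc s T) := by
    refine ((hf.sub h4).norm).add ?_
    exact integrableOn_const (by simp)
  refine ⟨h0, hh0, (Ioc s T).indicator fun x => ‖f x - φ x‖ + ω / 2, fun x => ?_,
    hi.integrable_indicator measurableSet_Ioc, ?_, fun τ hτ a ha hlt => ?_⟩
  · exact indicator_nonneg (fun x _ => by positivity) x
  · have hn : Integrable (fun x => ‖f x - φ x‖) (volume.restrict (Ioc s T)) := (hf.sub h4).norm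
    rw [integral_indicator measurableSet_Ioc, integral_add hn
      (integrableOn_const (by simp)), setIntegral_const]
    have e1 : (volume.real (Ioc s T)) = T - s := by
      rw [Real.volume_real_Ioc_of_le hsT.le]
    rw [e1, smul_eq_mul]
    have e2 : (T - s) * (ω / 2) = δ / 2 := by
      rw [hω]
      field_simp
    rw [e2]
    linarith
  · rw [indicator_of_mem hτ, indicator_of_mem ha]
    have k1 := huc τ (Ioc_subset_Icc_self hτ) a (Ioc_subset_Icc_self ha) (by
      rw [Real.dist_eq]; exact hlt)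
    rw [dist_eq_norm] at k1
    calc ‖f τ - f a‖ = ‖(f τ - φ τ) + (φ τ - φ a) - (f a - φ a)‖ := by congr 1; abel
      _ ≤ ‖f τ - φ τ‖ + ‖φ τ - φ a‖ + ‖f a - φ a‖ :=
        (norm_sub_le _ _).trans (add_le_add (norm_add_le _ _) le_rfl)
      _ ≤ _ := by linarith

theorem Sm_sq (hsT : s < T) {f : ℝ → X} (hf : MemLp f 2 (volume.restrict (Ioc s T))) :
    Sm s T (fun τ a => ‖f τ - f a‖ ^ 2) := by
  intro δ hδ
  obtain ⟨φ, _, h2, h3, h4⟩ := MemLp.exists_hasCompactSupport_integral_rpow_sub_le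
    (p := 2) (by norm_num) (by simpa using hf) (ε := δ / 6) (by positivity)
  set ω : ℝ := √(δ / (3 * (T - s))) with hω
  have hTs : 0 < T - s := sub_pos.2 hsT
  have hω0 : 0 < ω := Real.sqrt_pos.2 (by positivity)
  have hω2 : ω ^ 2 = δ / (3 * (T - s)) := Real.sq_sqrt (by positivity)
  obtain ⟨h0, hh0, huc⟩ := Metric.uniformContinuousOn_iff.1
    (isCompact_Icc.uniformContinuousOn_of_continuous h3.continuousOn (s := Icc s T)) ω hω0
  have h4' : MemLp φ 2 (volume.restrict (Ioc s T)) := by simpa using h4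
  have hi0 : IntegrableOn (fun x => 3 * ‖f x - φ x‖ ^ 2) (Ioc s T) :=
    ((hf.sub h4').norm.integrable_sq).const_mul 3
  have hi : IntegrableOn (fun x => 3 * ‖f x - φ x‖ ^ 2 + 3 / 2 * ω ^ 2) (Ioc s T) :=
    hi0.add (integrableOn_const (by simp))
  refine ⟨h0, hh0, (Ioc s T).indicator fun x => 3 * ‖f x - φ x‖ ^ 2 + 3 / 2 * ω ^ 2, fun x => ?_,
    hi.integrable_indicator measurableSet_Ioc, ?_, fun τ hτ a ha hlt => ?_⟩
  · exact indicator_nonneg (fun x _ => by positivity) x
  · rw [integral_indicator measurableSet_Ioc, integral_add hi0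
      (integrableOn_const (by simp)), setIntegral_const, integral_const_mul]
    have e1 : (volume.real (Ioc s T)) = T - s := by
      rw [Real.volume_real_Ioc_of_le hsT.le]
    rw [e1, smul_eq_mul, hω2]
    have e2 : (T - s) * (3 / 2 * (δ / (3 * (T - s)))) = δ / 2 := by
      field_simp
    rw [e2]
    have e3 : ∫ x in Ioc s T, ‖f x - φ x‖ ^ 2 ≤ δ / 6 := by
      refine le_trans (le_of_eq ?_) h2
      refine integral_congr_ae (Eventually.of_forall fun x => ?_)
      simp
    linarith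
  · rw [indicator_of_mem hτ, indicator_of_mem ha]
    have k1 := huc τ (Ioc_subset_Icc_self hτ) a (Ioc_subset_Icc_self ha) (by
      rw [Real.dist_eq]; exact hlt)
    rw [dist_eq_norm] at k1
    have k2 : ‖f τ - f a‖ ≤ ‖f τ - φ τ‖ + ω + ‖f a - φ a‖ := by
      calc ‖f τ - f a‖ = ‖(f τ - φ τ) + (φ τ - φ a) - (f a - φ a)‖ := by congr 1; abel
        _ ≤ ‖f τ - φ τ‖ + ‖φ τ - φ a‖ + ‖f a - φ a‖ :=
          (norm_sub_le _ _).trans (add_le_add (norm_add_le _ _) le_rfl)
        _ ≤ _ := by linarith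
    have k3 : ‖f τ - f a‖ ^ 2 ≤ (‖f τ - φ τ‖ + ω + ‖f a - φ a‖) ^ 2 := by gcongr
    nlinarith [sq_nonneg (‖f τ - φ τ‖ - ω), sq_nonneg (‖f τ - φ τ‖ - ‖f a - φ a‖),
      sq_nonneg (ω - ‖f a - φ a‖)]

theorem Sm_prod (hsT : s < T) {f : ℝ → X} (hf : MemLp f 2 (volume.restrict (Ioc s T))) :
    Sm s T (fun τ a => ‖f τ - f a‖ * ‖f a‖) := by
  intro δ hδ
  have hi : IntegrableOn (fun x => ‖f x‖ ^ 2) (Ioc s T) := hf.norm.integrable_sq
  set K : ℝ := ∫ x in Ioc s T, ‖f x‖ ^ 2 with hK
  have hK0 : 0 ≤ K := integral_nonneg fun x => by positivity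
  set l : ℝ := δ / (K + 1) with hl
  have hl0 : 0 < l := by positivity
  obtain ⟨h0, hh0, g, g0, g1, g2, g3⟩ := Sm_sq hsT hf (δ * l) (by positivity)
  refine ⟨h0, hh0, fun x => (2 * l)⁻¹ * g x
    + l / 2 * (Ioc s T).indicator (fun x => ‖f x‖ ^ 2) x, fun x => ?_,
    (g1.const_mul _).add ((hi.integrable_indicator measurableSet_Ioc).const_mul _), ?_,
    fun τ hτ a ha hlt => ?_⟩
  · have k1 := g0 x
    have k2 : 0 ≤ (Ioc s T).indicator (fun x => ‖f x‖ ^ 2) x :=
      indicator_nonneg (fun x _ => by positivity) x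
    positivity
  · rw [integral_add (g1.const_mul _) ((hi.integrable_indicator measurableSet_Ioc).const_mul _),
      integral_const_mul, integral_const_mul, integral_indicator measurableSet_Ioc, ← hK]
    have k1 : (2 * l)⁻¹ * ∫ x, g x ≤ (2 * l)⁻¹ * (δ * l) := by gcongr
    have k2 : (2 * l)⁻¹ * (δ * l) = δ / 2 := by field_simp
    have k3 : l / 2 * K ≤ δ / 2 := by
      rw [hl]
      calc δ / (K + 1) / 2 * K = δ / 2 * (K / (K + 1)) := by ring
        _ ≤ δ / 2 * 1 := by
          gcongr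
          rw [div_le_one (by positivity)]
          linarith
        _ = δ / 2 := mul_one _
    linarith
  · have k1 := g3 τ hτ a ha hlt
    beta_reduce at k1 ⊢
    rw [indicator_of_mem hτ, indicator_of_mem ha]
    have k2 : ‖f τ - f a‖ * ‖f a‖ ≤ (2 * l)⁻¹ * ‖f τ - f a‖ ^ 2 + l / 2 * ‖f a‖ ^ 2 := by
      have h1 : (2 * l)⁻¹ * ‖f τ - f a‖ ^ 2 + l / 2 * ‖f a‖ ^ 2 - ‖f τ - f a‖ * ‖f a‖
          = (2 * l)⁻¹ * (‖f τ - f a‖ - l * ‖f a‖) ^ 2 := by
        field_simp
        ring
      have h2 : 0 ≤ (2 * l)⁻¹ * (‖f τ - f a‖ - l * ‖f a‖) ^ 2 := by positivity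
      linarith
    have k3 : (2 * l)⁻¹ * ‖f τ - f a‖ ^ 2 ≤ (2 * l)⁻¹ * (g τ + g a) := by gcongr
    have k4 : 0 ≤ l / 2 * ‖f τ‖ ^ 2 := by positivity
    linarith

theorem shift_mono {Γ : ℝ → ℝ} (hΓ : Monotone Γ) {δ : ℝ} (h0 : ∀ x, 0 ≤ Γ x) (h1 : ∀ x, Γ x ≤ δ)
    {a b : ℝ} (hab : a ≤ b) (r : ℝ) :
    ∫ x in a..b, |Γ (x + r) - Γ x| ≤ |r| * δ := by
  have hi : ∀ c d, IntervalIntegrable Γ volume c d := fun c d => hΓ.intervalIntegrable
  have hΓr : Monotone fun x => Γ (x + r) := fun x y h => hΓ (by linarith)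
  have hir : ∀ c d, IntervalIntegrable (fun x => Γ (x + r)) volume c d :=
    fun c d => hΓr.intervalIntegrable
  have e0 : ∫ x in a..b, Γ (x + r) = ∫ x in (a + r)..(b + r), Γ x :=
    intervalIntegral.integral_comp_add_right Γ r
  have e2 : (∫ x in (a + r)..(b + r), Γ x) - ∫ x in a..b, Γ x
      = (∫ x in b..(b + r), Γ x) - ∫ x in a..(a + r), Γ x := by
    have k1 := intervalIntegral.integral_add_adjacent_intervals (hi (a + r) b) (hi b (b + r))
    have k2 := intervalIntegral.integral_add_adjacent_intervals (hi a (a + r)) (hi (a + r) b)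
    linarith
  rcases le_total 0 r with hr | hr
  · have e1 : ∫ x in a..b, |Γ (x + r) - Γ x| = (∫ x in a..b, Γ (x + r)) - ∫ x in a..b, Γ x := by
      rw [← intervalIntegral.integral_sub (hir a b) (hi a b)]
      refine intervalIntegral.integral_congr fun x _ => ?_
      exact abs_of_nonneg (sub_nonneg.2 (hΓ (by linarith)))
    rw [e1, e0, e2, abs_of_nonneg hr]
    have k1 : ∫ x in b..(b + r), Γ x ≤ ∫ x in b..(b + r), δ :=
      intervalIntegral.integral_mono (by linarith) (hi _ _) (by simp) (fun x => h1 x)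
    have k2 : 0 ≤ ∫ x in a..(a + r), Γ x :=
      intervalIntegral.integral_nonneg_of_forall (by linarith) h0
    rw [intervalIntegral.integral_const, smul_eq_mul] at k1
    linarith
  · have e1 : ∫ x in a..b, |Γ (x + r) - Γ x| = (∫ x in a..b, Γ x) - ∫ x in a..b, Γ (x + r) := by
      rw [← intervalIntegral.integral_sub (hi a b) (hir a b)]
      refine intervalIntegral.integral_congr fun x _ => ?_
      rw [abs_of_nonpos (sub_nonpos.2 (hΓ (by linarith)))]
      ring
    have e3 : (∫ x in a..b, Γ x) - ∫ x in (a + r)..(b + r), Γ x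
        = (∫ x in (b + r)..b, Γ x) - ∫ x in (a + r)..a, Γ x := by
      have k1 := intervalIntegral.integral_symm (μ := volume) (f := Γ) (b + r) b
      have k2 := intervalIntegral.integral_symm (μ := volume) (f := Γ) (a + r) a
      linarith
    rw [e1, e0, e3, abs_of_nonpos hr]
    have k1 : ∫ x in (b + r)..b, Γ x ≤ ∫ x in (b + r)..b, δ :=
      intervalIntegral.integral_mono (by linarith) (hi _ _) (by simp) (fun x => h1 x)
    have k2 : 0 ≤ ∫ x in (a + r)..a, Γ x :=
      intervalIntegral.integral_nonneg_of_forall (by linarith) h0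
    rw [intervalIntegral.integral_const, smul_eq_mul] at k1
    linarith

theorem rv {Ψ κ : ℝ → ℝ} (hΨ : Integrable Ψ) (hκ : Integrable κ)
    (h : ∀ δ > 0, ∃ h1 > 0, ∃ g : ℝ → ℝ, (∀ x, 0 ≤ g x) ∧ Integrable g ∧ (∫ x, g x) ≤ δ ∧
      ∀ r, |r| < h1 → ∀ᵐ x, x ∈ Ioc s T → x + r ∈ Ioc s T →
        r * κ x - |∫ t in x..(x + r), g t| - |r| * g x ≤ Ψ (x + r) - Ψ x) :
    ∃ A : Set ℝ, (∀ᵐ x, x ∈ A) ∧ ∀ a ∈ A, ∀ b ∈ A, s < a → a ≤ b → b < T →
      Ψ b - Ψ a = ∫ x in a..b, κ x := by
  refine ⟨{x | HasDerivAt (fun y => ∫ t in (0 : ℝ)..y, Ψ t) (Ψ x) x}, ?_, ?_⟩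
  · filter_upwards [LocallyIntegrable.ae_hasDerivAt_integral hΨ.locallyIntegrable] with x hx
    exact hx 0
  intro a ha b hb hsa hab hbT
  rw [mem_ofPred_eq] at ha hb
  set J : ℝ → ℝ := fun y => ∫ t in (0 : ℝ)..y, Ψ t with hJ
  have hii : ∀ c d, IntervalIntegrable Ψ volume c d := fun c d => hΨ.intervalIntegrable
  set M : ℝ → ℝ := fun r => J (b + r) - J (a + r) - (J b - J a) - r * ∫ x in a..b, κ x with hM
  set D : ℝ := Ψ b - Ψ a - ∫ x in a..b, κ x with hD
  have hMd : HasDerivAt M D 0 := by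
    have k1 : HasDerivAt (fun r => J (b + r)) (Ψ b) 0 := by
      have : HasDerivAt J (Ψ b) (b + 0) := by rwa [add_zero]
      exact HasDerivAt.comp_const_add b 0 this
    have k2 : HasDerivAt (fun r => J (a + r)) (Ψ a) 0 := by
      have : HasDerivAt J (Ψ a) (a + 0) := by rwa [add_zero]
      exact HasDerivAt.comp_const_add a 0 this
    have k3 : HasDerivAt (fun r : ℝ => r * ∫ x in a..b, κ x) (1 * ∫ x in a..b, κ x) 0 :=
      (hasDerivAt_id 0).mul_const _
    have := ((k1.sub k2).sub_const (J b - J a)).sub k3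
    rw [one_mul] at this
    exact this
  have hM0 : M 0 = 0 := by simp [hM]
  have hJM : ∀ r, J (b + r) - J (a + r) - (J b - J a) = ∫ x in a..b, (Ψ (x + r) - Ψ x) := by
    intro r
    have hir : IntervalIntegrable (fun x => Ψ (x + r)) volume a b :=
      (hΨ.comp_add_right r).intervalIntegrable
    rw [intervalIntegral.integral_sub hir (hii a b),
      intervalIntegral.integral_comp_add_right Ψ r]
    have k1 := intervalIntegral.integral_add_adjacent_intervals (hii 0 (a + r))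
      (hii (a + r) (b + r))
    have k2 := intervalIntegral.integral_add_adjacent_intervals (hii 0 a) (hii a b)
    simp only [hJ]
    linarith
  have key : ∀ δ > 0, ∀ᶠ r in 𝓝 (0 : ℝ), -(2 * δ * |r|) ≤ M r := by
    intro δ hδ
    obtain ⟨h1, hh1, g, g0, g1, g2, g3⟩ := h δ hδ
    have k1 : ∀ᶠ r in 𝓝 (0 : ℝ), |r| < min h1 (min (a - s) (T - b)) := by
      have : Tendsto (fun r : ℝ => |r|) (𝓝 0) (𝓝 0) := by
        have := (continuous_abs (G := ℝ)).tendsto 0
        rwa [abs_zero] at this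
      exact this.eventually_lt_const (lt_min hh1 (lt_min (by linarith) (by linarith)))
    filter_upwards [k1] with r hr
    have hr1 : |r| < h1 := hr.trans_le (min_le_left _ _)
    have hr2 : |r| < a - s := hr.trans_le ((min_le_right _ _).trans (min_le_left _ _))
    have hr3 : |r| < T - b := hr.trans_le ((min_le_right _ _).trans (min_le_right _ _))
    have hr4 := abs_lt.1 hr2
    have hr5 := abs_lt.1 hr3
    have hgi : ∀ c d, IntervalIntegrable g volume c d := fun c d => g1.intervalIntegrable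
    set Γ : ℝ → ℝ := fun x => ∫ t in Iic x, g t with hΓ
    have hΓm : Monotone Γ := fun x y hxy =>
      setIntegral_mono_set g1.integrableOn (Eventually.of_forall g0)
        (Eventually.of_forall (Iic_subset_Iic.2 hxy))
    have hΓ0 : ∀ x, 0 ≤ Γ x := fun x => integral_nonneg g0
    have hΓ1 : ∀ x, Γ x ≤ δ := fun x =>
      (setIntegral_le_integral g1 (Eventually.of_forall g0)).trans g2
    have hΓd : ∀ x, ∫ t in x..(x + r), g t = Γ (x + r) - Γ x := fun x =>
      (intervalIntegral.integral_Iic_sub_Iic g1.integrableOn g1.integrableOn).symm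
    have hs := shift_mono hΓm hΓ0 hΓ1 hab r
    have hΓr : Monotone fun x => Γ (x + r) := fun x y h => hΓm (by linarith)
    have habs : IntervalIntegrable (fun x => |Γ (x + r) - Γ x|) volume a b :=
      (hΓr.intervalIntegrable.sub hΓm.intervalIntegrable).abs
    have hκi : IntervalIntegrable (fun x => r * κ x) volume a b :=
      hκ.intervalIntegrable.const_mul r
    have hgi2 : IntervalIntegrable (fun x => |r| * g x) volume a b := (hgi a b).const_mul _
    have hir : IntervalIntegrable (fun x => Ψ (x + r)) volume a b :=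
      (hΨ.comp_add_right r).intervalIntegrable
    have k2 : ∫ x in a..b, (r * κ x - |Γ (x + r) - Γ x| - |r| * g x)
        ≤ ∫ x in a..b, (Ψ (x + r) - Ψ x) := by
      refine intervalIntegral.integral_mono_ae_restrict hab ((hκi.sub habs).sub hgi2)
        (hir.sub (hii a b)) ?_
      filter_upwards [ae_restrict_of_ae (g3 r hr1), ae_restrict_mem measurableSet_Icc]
        with x hx hxm
      have := hx ⟨by linarith [hxm.1], by linarith [hxm.2]⟩
        ⟨by linarith [hxm.1], by linarith [hxm.2]⟩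
      rw [hΓd] at this
      exact this
    rw [intervalIntegral.integral_sub (hκi.sub habs) hgi2, intervalIntegral.integral_sub hκi habs,
      intervalIntegral.integral_const_mul, intervalIntegral.integral_const_mul, ← hJM] at k2
    have k3 : ∫ x in a..b, g x ≤ δ := by
      rw [intervalIntegral.integral_of_le hab]
      exact (setIntegral_le_integral g1 (Eventually.of_forall g0)).trans g2
    have k4 : |r| * ∫ x in a..b, g x ≤ |r| * δ := by gcongr
    simp only [hM]
    linarith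
  have hpos : ∀ δ > 0, |D| ≤ 2 * δ := by
    intro δ hδ
    have k1 := key δ hδ
    have hsl : Tendsto (fun r => r⁻¹ * M r) (𝓝[≠] 0) (𝓝 D) := by
      have := hMd.tendsto_slope_zero
      simpa [hM0] using this
    have hgt : 𝓝[>] (0 : ℝ) ≤ 𝓝[≠] 0 := nhdsWithin_mono _ fun x hx => ne_of_gt hx
    have hlt : 𝓝[<] (0 : ℝ) ≤ 𝓝[≠] 0 := nhdsWithin_mono _ fun x hx => ne_of_lt hx
    rw [abs_le]
    constructor
    · refine ge_of_tendsto (hsl.mono_left hgt) ?_
      filter_upwards [nhdsWithin_le_nhds k1, self_mem_nhdsWithin] with r hr hr0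
      rw [mem_Ioi] at hr0
      rw [abs_of_pos hr0] at hr
      rw [inv_mul_eq_div, le_div_iff₀ hr0]
      linarith
    · refine le_of_tendsto (hsl.mono_left hlt) ?_
      filter_upwards [nhdsWithin_le_nhds k1, self_mem_nhdsWithin] with r hr hr0
      rw [mem_Iio] at hr0
      rw [abs_of_neg hr0] at hr
      rw [inv_mul_eq_div, div_le_iff_of_neg hr0]
      linarith
  have hD0 : D = 0 := by
    by_contra hne
    have h1 : 0 < |D| := abs_pos.2 hne
    have := hpos (|D| / 4) (by positivity)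
    linarith
  linarith

end Pool.Agent.Y303.EA
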