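import Pool.Agent.Y303.EA.Ext

/-!
The work of the gradient of a function in `W^{1,1}` on a divergence free field: the positive and
the negative part have the same integral.
-/

set_option autoImplicit false
set_option linter.unusedSectionVars false

open MeasureTheory Set Filter Topology
open scoped InnerProductSpace ENNReal ContDiff NNReal

namespace Pool.Agent.Y303.EA

open H772R2.NS

variable {Ω : Set E3}

/-- pairs of a smooth function and its gradient -/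
def pre11 (Ω : Set E3) :
    Set (Lp ℝ 1 ((volume : Measure E3).restrict Ω) × Lp E3 1 ((volume : Measure E3).restrict Ω)) :=
  {p | ∃ ψ : E3 → ℝ, ContDiffOn ℝ ∞ ψ Ω ∧ p.1 =ᵐ[volume.restrict Ω] ψ ∧
    p.2 =ᵐ[volume.restrict Ω] grd ψ}

/-- the graph of the gradient of `W^{1,1}(Ω)` -/
def W11 (Ω : Set E3) :
    Set (Lp ℝ 1 ((volume : Measure E3).restrict Ω) × Lp E3 1 ((volume : Measure E3).restrict Ω)) :=
  closure (pre11 Ω)

/-- the head -/
noncomputable def hd (c : ℝ) (v : E3) (P : ℝ) : ℝ := P + c * (‖v‖ ^ 2 / 2)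

theorem abs_trace_le (b : M3) : |∑ i, b (i, i)| ≤ 3 * ‖b‖ := by
  have h : ∀ i : Fin 3, |b (i, i)| ≤ ‖b‖ := fun i => by
    have := PiLp.norm_apply_le b (i, i)
    simpa using this
  refine (Finset.abs_sum_le_sum_abs _ _).trans ?_
  refine (Finset.sum_le_sum fun i _ => h i).trans ?_
  simp

/-- the functional -/
noncomputable def SF (Ω : Set E3) (ε : ℝ) (S : ℝ → ℝ) (c : ℝ)
    (r : (L2V Ω × L2M Ω) × (Lp ℝ 1 ((volume : Measure E3).restrict Ω)
      × Lp E3 1 ((volume : Measure E3).restrict Ω))) : ℝ :=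
  ∫ x in Ω, (deriv S (hd c (r.1.1 x) (r.2.1 x))
        * ⟪r.2.2 x + c • mt (r.1.2 x) (r.1.1 x), Tr ε (r.1.1 x)⟫_ℝ
      + S (hd c (r.1.1 x) (r.2.1 x)) * ∑ i, dt ε (r.1.1 x) (r.1.2 x) (i, i))

theorem SF_cont [IsFiniteMeasure ((volume : Measure E3).restrict Ω)] {ε : ℝ}
    (hε : 0 < ε) {S : ℝ → ℝ} (hS : ContDiff ℝ ∞ S) {B : ℝ} (hB : ∀ x, |S x| ≤ B)
    (hS1 : ∀ x, |deriv S x| ≤ 1) (c : ℝ) : Continuous (SF Ω ε S c) := by
  have hTr := cont_Tr hε.le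
  have hdt : Continuous fun r : ℝ × (E3 × M3 × ℝ × E3) => dt ε r.2.1 r.2.2.1 := by
    have h1 : Continuous fun r : ℝ × (E3 × M3 × ℝ × E3) => ((r.2.1, r.2.2.1) : E3 × M3) := by
      fun_prop
    have h2 := (cont_dt hε.le).comp h1
    simp only [Function.comp_def] at h2
    exact h2
  have hmt : Continuous fun r : ℝ × (E3 × M3 × ℝ × E3) => mt r.2.2.1 r.2.1 := by
    have h1 : Continuous fun r : ℝ × (E3 × M3 × ℝ × E3) => ((r.2.2.1, r.2.1) : M3 × E3) := by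
      fun_prop
    have h2 := cont_mt.comp h1
    simp only [Function.comp_def] at h2
    exact h2
  have hSc : Continuous S := hS.continuous
  have hdS : Continuous (deriv S) := hS.continuous_deriv (by simp)
  have hB0 : 0 ≤ B := (abs_nonneg _).trans (hB 0)
  have hfc : Continuous fun r : ℝ × (E3 × M3 × ℝ × E3) =>
      deriv S (hd c r.2.1 r.2.2.2.1)
        * ⟪r.2.2.2.2 + c • mt r.2.2.1 r.2.1, Tr ε r.2.1⟫_ℝ
      + S (hd c r.2.1 r.2.2.2.1) * ∑ i, dt ε r.2.1 r.2.2.1 (i, i) := by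
    have hsum : Continuous fun r : ℝ × (E3 × M3 × ℝ × E3) =>
        ∑ i, dt ε r.2.1 r.2.2.1 (i, i) := by
      refine continuous_finsetSum _ fun i _ => ?_
      exact (EuclideanSpace.proj (𝕜 := ℝ) (i, i) : M3 →L[ℝ] ℝ).continuous.comp hdt
    have hh : Continuous fun r : ℝ × (E3 × M3 × ℝ × E3) => hd c r.2.1 r.2.2.2.1 := by
      unfold hd
      fun_prop
    have h1 := hdS.comp hh
    have h2 := hSc.comp hh
    simp only [Function.comp_def] at h1 h2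
    have h3 : Continuous fun r : ℝ × (E3 × M3 × ℝ × E3) => Tr ε r.2.1 := by
      have h3 := hTr.comp (by fun_prop : Continuous fun r : ℝ × (E3 × M3 × ℝ × E3) => r.2.1)
      simp only [Function.comp_def] at h3
      exact h3
    have h4 : Continuous fun r : ℝ × (E3 × M3 × ℝ × E3) => r.2.2.2.2 + c • mt r.2.2.1 r.2.1 :=
      (by fun_prop : Continuous fun r : ℝ × (E3 × M3 × ℝ × E3) => r.2.2.2.2).add
        (hmt.const_smul c)
    exact (h1.mul (h4.inner h3)).add (h2.mul hsum)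
  have hcont := nem (μ := (volume : Measure E3).restrict Ω) (P := ℝ) (E := E3) (F := M3)
    (K := ℝ) (K' := E3) (h := fun _ => 0) aestronglyMeasurable_const
    (f := fun _ r => deriv S (hd c r.1 r.2.2.1)
        * ⟪r.2.2.2 + c • mt r.2.1 r.1, Tr ε r.1⟫_ℝ
      + S (hd c r.1 r.2.2.1) * ∑ i, dt ε r.1 r.2.1 (i, i))
    (g := fun _ => 3 * B) (C := (1 + |c|) * (1 / √ε) + 3 * B)
    hfc (integrable_const _) (Eventually.of_forall fun x a b P Q => by
      have hse : 0 ≤ 1 / √ε := by positivity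
      have e1 : |⟪Q + c • mt b a, Tr ε a⟫_ℝ|
          ≤ (‖Q‖ + |c| * (‖a‖ ^ 2 + ‖b‖ ^ 2)) * (1 / √ε) := by
        refine (abs_real_inner_le_norm _ _).trans ?_
        gcongr
        · refine (norm_add_le _ _).trans ?_
          rw [norm_smul, Real.norm_eq_abs]
          gcongr
          refine (norm_mt_le b a).trans ?_
          nlinarith [sq_nonneg (‖a‖ - ‖b‖), sq_nonneg ‖a‖, sq_nonneg ‖b‖]
        · exact norm_Tr_le' hε a
      have e2 : |∑ i, dt ε a b (i, i)| ≤ 3 * ‖b‖ :=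
        (abs_trace_le _).trans (by gcongr; exact norm_dt_le hε.le a b)
      have e3 : |deriv S (hd c a P) * ⟪Q + c • mt b a, Tr ε a⟫_ℝ|
          ≤ (‖Q‖ + |c| * (‖a‖ ^ 2 + ‖b‖ ^ 2)) * (1 / √ε) := by
        rw [abs_mul]
        calc |deriv S (hd c a P)| * |⟪Q + c • mt b a, Tr ε a⟫_ℝ|
            ≤ 1 * ((‖Q‖ + |c| * (‖a‖ ^ 2 + ‖b‖ ^ 2)) * (1 / √ε)) := by
              gcongr
              exact hS1 _
          _ = _ := one_mul _
      have e4 : |S (hd c a P) * ∑ i, dt ε a b (i, i)| ≤ B * (3 * (1 + ‖b‖ ^ 2)) := by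
        rw [abs_mul]
        gcongr
        · exact hB _
        · refine e2.trans ?_
          nlinarith [sq_nonneg (‖b‖ - 1), sq_nonneg ‖b‖]
      refine (abs_add_le _ _).trans ((add_le_add e3 e4).trans ?_)
      have k1 : 0 ≤ ‖Q‖ := norm_nonneg _
      have k2 : 0 ≤ ‖P‖ := norm_nonneg _
      have k3 : 0 ≤ |c| := abs_nonneg _
      have k4 : 0 ≤ ‖a‖ ^ 2 + ‖b‖ ^ 2 := by positivity
      have k5 : (‖Q‖ + |c| * (‖a‖ ^ 2 + ‖b‖ ^ 2)) * (1 / √ε)
          ≤ (1 + |c|) * (1 / √ε) * (‖a‖ ^ 2 + ‖b‖ ^ 2 + ‖P‖ + ‖Q‖) := by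
        have : ‖Q‖ + |c| * (‖a‖ ^ 2 + ‖b‖ ^ 2)
            ≤ (1 + |c|) * (‖a‖ ^ 2 + ‖b‖ ^ 2 + ‖P‖ + ‖Q‖) := by
          nlinarith [mul_nonneg k3 k1, mul_nonneg k3 k2]
        calc _ ≤ (1 + |c|) * (‖a‖ ^ 2 + ‖b‖ ^ 2 + ‖P‖ + ‖Q‖) * (1 / √ε) := by gcongr
          _ = _ := by ring
      have k6 : B * (3 * (1 + ‖b‖ ^ 2)) ≤ 3 * B + 3 * B * (‖a‖ ^ 2 + ‖b‖ ^ 2 + ‖P‖ + ‖Q‖) := by
        have : 0 ≤ ‖a‖ ^ 2 + ‖P‖ + ‖Q‖ := by positivity
        nlinarith [mul_nonneg hB0 this]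
      linarith)
  have h2 := hcont.comp (by fun_prop : Continuous fun r : (L2V Ω × L2M Ω)
      × (Lp ℝ 1 ((volume : Measure E3).restrict Ω) × Lp E3 1 ((volume : Measure E3).restrict Ω)) =>
      (r.1.1, r.1.2, r.2.1, r.2.2))
  simp only [Function.comp_def] at h2
  exact h2

theorem SF_pre (hΩ : IsOpen Ω) {ε : ℝ} (hε : 0 < ε) {S : ℝ → ℝ} (hS : ContDiff ℝ ∞ S) (c : ℝ)
    {p : L2V Ω × L2M Ω} (hp : p ∈ preW Ω)
    {q : Lp ℝ 1 ((volume : Measure E3).restrict Ω) × Lp E3 1 ((volume : Measure E3).restrict Ω)}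
    (hq : q ∈ pre11 Ω) : SF Ω ε S c (p, q) = 0 := by
  obtain ⟨φ, k1, k2, k3⟩ := hp
  obtain ⟨ψ, j1, j2, j3⟩ := hq
  have hH : ContDiffOn ℝ ∞ (fun x => hd c (φ x) (ψ x)) Ω := by
    unfold hd
    exact j1.add ((contDiff_const.mul ((k1.smooth.norm_sq ℝ).div_const 2)).contDiffOn)
  have h1 := ibp' hΩ (ψ := fun x => S (hd c (φ x) (ψ x))) (hS.comp_contDiffOn hH)
    (φ := fun x => Tr ε (φ x)) ((cd_Tr hε.le).comp k1.smooth)
    (k1.compact.comp_left (Tr_zero ε)) (supp_Tr.trans k1.supp)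
  unfold SF
  rw [← h1]
  refine integral_congr_ae ?_
  filter_upwards [k2, k3, j2, j3, ae_restrict_mem hΩ.measurableSet] with x h2 h3 h4 h5 hx
  rw [h2, h3, h4, h5, jac_Tr hε.le k1.smooth]
  have d1 : HasFDerivAt ψ (fderiv ℝ ψ x) x :=
    ((j1.contDiffAt (hΩ.mem_nhds hx)).differentiableAt (by simp)).hasFDerivAt
  have d2 : HasFDerivAt φ (fderiv ℝ φ x) x :=
    ((k1.smooth.differentiable (by simp)) x).hasFDerivAt
  have d3 : HasFDerivAt (fun x => hd c (φ x) (ψ x)) _ x :=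
    d1.add ((d2.norm_sq.mul_const (2 : ℝ)⁻¹).const_mul c)
  have d4 : HasFDerivAt (fun x => S (hd c (φ x) (ψ x))) _ x :=
    (((hS.differentiable (by simp)) (hd c (φ x) (ψ x))).hasDerivAt).comp_hasFDerivAt x d3
  have h6 : grd (fun x => S (hd c (φ x) (ψ x))) x
      = deriv S (hd c (φ x) (ψ x)) • (grd ψ x + c • mt (jac φ x) (φ x)) := by
    ext i
    rw [grd_apply, d4.fderiv]
    simp only [add_apply, smul_apply, ContinuousLinearMap.comp_apply, innerSL_apply_apply,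
      PiLp.smul_apply, PiLp.add_apply, smul_eq_mul, grd_apply, mt_apply, inner_E3, jac_apply,
      Fin.sum_univ_three]
    ring
  rw [h6, real_inner_smul_left]

theorem statB (hΩ : IsOpen Ω) [IsFiniteMeasure ((volume : Measure E3).restrict Ω)] {ε : ℝ}
    (hε : 0 < ε) {S : ℝ → ℝ} (hS : ContDiff ℝ ∞ S) {B : ℝ} (hB : ∀ x, |S x| ≤ B)
    (hS1 : ∀ x, |deriv S x| ≤ 1) (c : ℝ) {p : L2V Ω × L2M Ω} (hp : p ∈ graphW Ω)
    {q : Lp ℝ 1 ((volume : Measure E3).restrict Ω) × Lp E3 1 ((volume : Measure E3).restrict Ω)}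
    (hq : q ∈ W11 Ω) : SF Ω ε S c (p, q) = 0 := by
  have hcl : (p, q) ∈ closure ((preW Ω : Set (L2V Ω × L2M Ω)) ×ˢ pre11 Ω) := by
    rw [closure_prod_eq]
    exact ⟨by rw [← Submodule.topologicalClosure_coe]; exact hp, hq⟩
  refine closure_minimal (t := {r | SF Ω ε S c r = 0}) ?_
    (isClosed_eq (SF_cont hε hS hB hS1 c) continuous_const) hcl
  rintro ⟨r, s⟩ ⟨h1, h2⟩
  exact SF_pre hΩ hε hS c h1 h2

end Pool.Agent.Y303.EA
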