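import Pool.Agent.Y303.EA.Pair
import Pool.Agent.Y303.EA.Rv

/-!
The truncated kinetic energy is a primitive.
-/

set_option autoImplicit false
set_option linter.unusedSectionVars false

open MeasureTheory Set Filter Topology
open scoped InnerProductSpace ENNReal ContDiff NNReal

namespace Pool.Agent.Y303.EA

open H772R2.NS

variable {Ω : Set E3}

/-- the evolution on `(s, T]` -/
structure Sys (Ω : Set E3) (ν s T M : ℝ) (u : ℝ → L2V Ω) (G : ℝ → L2M Ω) (f : ℝ → L2V Ω)
    (r : ℝ → Lp E3 1 ((volume : Measure E3).restrict Ω)) : Prop where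
  hν : 0 ≤ ν
  hsT : s < T
  meas : AEStronglyMeasurable u (volume.restrict (Ioc s T))
  bdd : ∀ t ∈ Ioc s T, ‖u t‖ ≤ M
  wc : ∀ v : L2V Ω, ContinuousOn (fun t => ⟪u t, v⟫_ℝ) (Ioc s T)
  grad : ∀ᵐ t ∂(volume.restrict (Ioc s T)), (u t, G t) ∈ graphW Ω
  hG : MemLp G 2 (volume.restrict (Ioc s T))
  hf : IntegrableOn f (Ioc s T)
  hr : IntegrableOn r (Ioc s T)
  eqn : ∀ ψ : E3 → E3, ContDiff ℝ ∞ ψ → HasCompactSupport ψ → tsupport ψ ⊆ Ω →
    ∀ a ∈ Ioc s T, ∀ b ∈ Ioc s T, a ≤ b →
      ∫ x in Ω, ⟪(u b - u a) x, ψ x⟫_ℝ = ∫ t in a..b, FF Ω ν (f t) (G t) (r t) ψ (jac ψ)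

variable {ν s T M : ℝ} {u : ℝ → L2V Ω} {G : ℝ → L2M Ω} {f : ℝ → L2V Ω}
  {r : ℝ → Lp E3 1 ((volume : Measure E3).restrict Ω)}

theorem uIoc_sub {a b : ℝ} (ha : a ∈ Ioc s T) (hb : b ∈ Ioc s T) : Set.uIoc a b ⊆ Ioc s T := by
  intro x hx
  rw [Set.mem_uIoc] at hx
  rcases hx with h | h
  · exact ⟨ha.1.trans h.1, h.2.trans hb.2⟩
  · exact ⟨hb.1.trans h.1, h.2.trans ha.2⟩

theorem ii_of {X : Type*} [NormedAddCommGroup X] {g : ℝ → X} (hg : IntegrableOn g (Ioc s T))
    {a b : ℝ} (ha : a ∈ Ioc s T) (hb : b ∈ Ioc s T) : IntervalIntegrable g volume a b :=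
  intervalIntegrable_iff.2 (hg.mono_set (uIoc_sub ha hb))

theorem Sys.G_int (S : Sys Ω ν s T M u G f r) : IntegrableOn G (Ioc s T) :=
  S.hG.integrable (by norm_num)

theorem Sys.G_sq (S : Sys Ω ν s T M u G f r) : IntegrableOn (fun t => ‖G t‖ ^ 2) (Ioc s T) :=
  S.hG.norm.integrable_sq

theorem Sys.M_nonneg (S : Sys Ω ν s T M u G f r) : 0 ≤ M :=
  (norm_nonneg _).trans (S.bdd T ⟨S.hsT, le_rfl⟩)

/-- the equation tested with a truncation -/
theorem Sys.test (S : Sys Ω ν s T M u G f r) {ε : ℝ} (hε : 0 < ε) {a b : ℝ} (ha : a ∈ Ioc s T)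
    (hb : b ∈ Ioc s T) {p : L2V Ω × L2M Ω} (hp : p ∈ graphW Ω) :
    ∫ x in Ω, ⟪(u b - u a) x, Tr ε (p.1 x)⟫_ℝ
      = ∫ t in a..b, FT Ω ν ε (f t) (G t) (r t) p := by
  have key : ∀ {a b : ℝ}, a ∈ Ioc s T → b ∈ Ioc s T → a ≤ b →
      ∫ x in Ω, ⟪(u b - u a) x, Tr ε (p.1 x)⟫_ℝ
      = ∫ t in a..b, FT Ω ν ε (f t) (G t) (r t) p := by
    intro a b ha hb hab
    exact test_Tr (ii_of S.hf ha hb) (ii_of S.G_int ha hb) (ii_of S.hr ha hb)
      (fun ψ h1 h2 h3 => S.eqn ψ h1 h2 h3 a ha b hb hab) hε hp (memLp_Tr hε p.1) (memLp_dt hε p)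
  rcases le_total a b with hab | hab
  · exact key ha hb hab
  · have h1 := key hb ha hab
    obtain ⟨l, e, _, _⟩ := fun2 (memLp_Tr hε p.1)
    rw [← e] at h1 ⊢
    rw [intervalIntegral.integral_symm, ← h1, ← map_neg, neg_sub]

/-- the right hand side -/
noncomputable def kap (Ω : Set E3) (ν ε : ℝ) (u : ℝ → L2V Ω) (G : ℝ → L2M Ω) (f : ℝ → L2V Ω)
    (r : ℝ → Lp E3 1 ((volume : Measure E3).restrict Ω)) (t : ℝ) : ℝ :=
  FT Ω ν ε (f t) (G t) (r t) (u t, G t)

theorem Sys.kap_int (S : Sys Ω ν s T M u G f r) {ε : ℝ} (hε : 0 < ε) :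
    IntegrableOn (kap Ω ν ε u G f r) (Ioc s T) := by
  have hm : AEStronglyMeasurable (kap Ω ν ε u G f r) (volume.restrict (Ioc s T)) := by
    have h := (FT_cont (Ω := Ω) (ν := ν) hε).comp_aestronglyMeasurable
      ((S.meas.prodMk S.hG.1).prodMk (S.hf.1.prodMk S.hr.1))
    exact h
  refine Integrable.mono' (g := fun t => M * ‖f t‖ + ν * ‖G t‖ ^ 2 + ‖r t‖ * (1 / √ε))
    (((S.hf.norm.const_mul M).add (S.G_sq.const_mul ν)).add (S.hr.norm.mul_const _)) hm ?_
  filter_upwards [ae_restrict_mem measurableSet_Ioc] with t ht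
  have h1 := FT_bound S.hν hε (f t) (G t) (r t) (u t, G t)
  have h2 : ‖f t‖ * ‖u t‖ ≤ M * ‖f t‖ := by
    rw [mul_comm]
    gcongr
    exact S.bdd t ht
  rw [Real.norm_eq_abs]
  refine h1.trans ?_
  simp only
  rw [sq]
  linarith

theorem Sys.Ps_int (S : Sys Ω ν s T M u G f r) {ε : ℝ} (hε : 0 < ε) :
    IntegrableOn (fun t => Ps Ω ε (u t)) (Ioc s T) := by
  refine Integrable.mono' (g := fun _ => M ^ 2 / 2) (integrableOn_const (by simp))
    ((Ps_cont hε).comp_aestronglyMeasurable S.meas) ?_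
  filter_upwards [ae_restrict_mem measurableSet_Ioc] with t ht
  rw [Real.norm_of_nonneg (Ps_nonneg hε _)]
  refine (Ps_le hε _).trans ?_
  have := S.bdd t ht
  gcongr

/-- the increments at a good point -/
theorem Sys.incr (S : Sys Ω ν s T M u G f r) {ε : ℝ} (hε : 0 < ε) {x y : ℝ} (hx : x ∈ Ioc s T)
    (hy : y ∈ Ioc s T) (hp : (u x, G x) ∈ graphW Ω) :
    ∫ t in x..y, FT Ω ν ε (f t) (G t) (r t) (u x, G x) ≤ Ps Ω ε (u y) - Ps Ω ε (u x) := by
  rw [← S.test hε hx hy hp]
  exact Ps_conv hε _ _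

theorem Sys.FT_ii (S : Sys Ω ν s T M u G f r) {ε : ℝ} (hε : 0 < ε) {x y : ℝ} (hx : x ∈ Ioc s T)
    (hy : y ∈ Ioc s T) (p : L2V Ω × L2M Ω) :
    IntervalIntegrable (fun t => FT Ω ν ε (f t) (G t) (r t) p) volume x y :=
  FF_ii (ii_of S.hf hx hy) (ii_of S.G_int hx hy) (ii_of S.hr hx hy) (memLp_Tr hε p.1)
    (C := 1 / √ε) (fun _ => norm_Tr_le' hε _) (memLp_dt hε p)

theorem Sys.prim_ae (S : Sys Ω ν s T M u G f r) {ε : ℝ} (hε : 0 < ε) :
    ∃ A : Set ℝ, (∀ᵐ x, x ∈ A) ∧ ∀ a ∈ A, ∀ b ∈ A, s < a → a ≤ b → b < T →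
      Ps Ω ε (u b) - Ps Ω ε (u a) = ∫ x in a..b, kap Ω ν ε u G f r x := by
  have hSm : Sm s T (fun τ a => M * ‖f τ - f a‖ + ν * (‖G τ - G a‖ * ‖G a‖)
      + 1 / √ε * ‖r τ - r a‖) :=
    (((Sm_norm S.hsT S.hf).const_mul S.M_nonneg).add ((Sm_prod S.hsT S.hG).const_mul S.hν)).add
      ((Sm_norm S.hsT S.hr).const_mul (by positivity))
  obtain ⟨A, hA1, hA2⟩ := rv (s := s) (T := T)
    (Ψ := (Ioc s T).indicator fun t => Ps Ω ε (u t))
    (κ := (Ioc s T).indicator (kap Ω ν ε u G f r))
    ((S.Ps_int hε).integrable_indicator measurableSet_Ioc)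
    ((S.kap_int hε).integrable_indicator measurableSet_Ioc) (fun δ hδ => by
      obtain ⟨h0, hh0, g, g0, g1, g2, g3⟩ := hSm δ hδ
      refine ⟨h0, hh0, g, g0, g1, g2, fun ρ hρ => ?_⟩
      filter_upwards [(ae_restrict_iff' measurableSet_Ioc).1 S.grad] with x hgr hx hxρ
      rw [indicator_of_mem hx, indicator_of_mem hx, indicator_of_mem hxρ]
      have h1 := S.incr hε hx hxρ (hgr hx)
      refine le_trans ?_ h1
      have i1 := S.FT_ii hε hx hxρ (u x, G x)
      have e1 : ∫ t in x..(x + ρ), FT Ω ν ε (f t) (G t) (r t) (u x, G x)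
          = ρ * kap Ω ν ε u G f r x + ∫ t in x..(x + ρ),
            (FT Ω ν ε (f t) (G t) (r t) (u x, G x) - kap Ω ν ε u G f r x) := by
        rw [intervalIntegral.integral_sub i1 (by simp), intervalIntegral.integral_const,
          smul_eq_mul]
        ring
      have e2 : |∫ t in x..(x + ρ),
            (FT Ω ν ε (f t) (G t) (r t) (u x, G x) - kap Ω ν ε u G f r x)|
          ≤ |∫ t in x..(x + ρ), (g t + g x)| := by
        rw [← Real.norm_eq_abs]
        refine intervalIntegral.norm_integral_le_abs_of_norm_le ?_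
          (g1.intervalIntegrable.add (by simp))
        refine (ae_restrict_iff' measurableSet_uIoc).2 (Eventually.of_forall fun t ht => ?_)
        have ht' : t ∈ Ioc s T := uIoc_sub hx hxρ ht
        have k1 : |t - x| < h0 := by
          refine lt_of_le_of_lt ?_ hρ
          rw [Set.mem_uIoc] at ht
          rcases ht with h | h
          · rw [abs_of_pos (by linarith [h.1]), abs_of_pos (by linarith [h.1, h.2])]
            linarith [h.2]
          · rw [abs_of_nonpos (by linarith [h.2]), abs_of_neg (by linarith [h.1, h.2])]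
            linarith [h.1]
        have k2 := g3 t ht' x hx k1
        rw [Real.norm_eq_abs, kap, FT_sub hε]
        refine (FT_bound S.hν hε _ _ _ _).trans (le_trans ?_ k2)
        have k3 : ‖f t - f x‖ * ‖u x‖ ≤ M * ‖f t - f x‖ := by
          rw [mul_comm]
          gcongr
          exact S.bdd x hx
        simp only
        linarith
      have e3 : |∫ t in x..(x + ρ), (g t + g x)| ≤ |∫ t in x..(x + ρ), g t| + |ρ| * g x := by
        rw [intervalIntegral.integral_add g1.intervalIntegrable (by simp),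
          intervalIntegral.integral_const, smul_eq_mul, add_sub_cancel_left]
        refine (abs_add_le _ _).trans ?_
        rw [abs_mul, abs_of_nonneg (g0 x)]
      have e4 := neg_abs_le (∫ t in x..(x + ρ),
            (FT Ω ν ε (f t) (G t) (r t) (u x, G x) - kap Ω ν ε u G f r x))
      rw [e1]
      linarith)
  refine ⟨A, hA1, fun a ha b hb h1 h2 h3 => ?_⟩
  have ha' : a ∈ Ioc s T := ⟨h1, (h2.trans_lt h3).le⟩
  have hb' : b ∈ Ioc s T := ⟨h1.trans_le h2, h3.le⟩
  have h := hA2 a ha b hb h1 h2 h3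
  rw [indicator_of_mem ha', indicator_of_mem hb'] at h
  rw [h]
  refine intervalIntegral.integral_congr_ae (Eventually.of_forall fun x hx => ?_)
  rw [indicator_of_mem (uIoc_sub ha' hb' hx)]

/-- a good time close to a given one -/
theorem Sys.good (S : Sys Ω ν s T M u G f r) {P : ℝ → Prop}
    (hP : ∀ᵐ t ∂(volume.restrict (Ioc s T)), P t) {t0 h : ℝ} (ht0 : t0 ∈ Ioc s T) (hh : 0 < h)
    (hs : h ≤ t0 - s) :
    ∃ a ∈ Ioo (t0 - h) t0, P a ∧ h * ‖G a‖ ^ 2 ≤ ∫ t in (t0 - h)..t0, ‖G t‖ ^ 2 := by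
  have hsub : Ioo (t0 - h) t0 ⊆ Ioc s T := fun x hx =>
    ⟨by linarith [hx.1], (hx.2.le).trans ht0.2⟩
  have hne : volume.restrict (Ioo (t0 - h) t0) ≠ 0 := by
    rw [Ne, Measure.restrict_eq_zero, Real.volume_Ioo]
    simp [hh]
  have hi : Integrable (fun t => ‖G t‖ ^ 2) (volume.restrict (Ioo (t0 - h) t0)) :=
    S.G_sq.mono_set hsub
  have hP' : ∀ᵐ t ∂(volume.restrict (Ioo (t0 - h) t0)), t ∈ Ioo (t0 - h) t0 ∧ P t := by
    filter_upwards [ae_restrict_mem measurableSet_Ioo, ae_restrict_of_ae_restrict_of_subset hsub hP]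
      with t h1 h2
    exact ⟨h1, h2⟩
  obtain ⟨a, ha, hle⟩ := exists_notMem_null_le_average hne hi (ae_iff.1 hP')
  rw [mem_ofPred_eq, not_not] at ha
  refine ⟨a, ha.1, ha.2, ?_⟩
  rw [setAverage_eq, smul_eq_mul] at hle
  have e1 : volume.real (Ioo (t0 - h) t0) = h := by
    rw [Real.volume_real_Ioo_of_le (by linarith)]
    ring
  rw [e1, inv_mul_eq_div, le_div_iff₀ hh] at hle
  rw [intervalIntegral.integral_of_le (by linarith), integral_Ioc_eq_integral_Ioo, mul_comm]
  exact hle

/-- the truncated energy is a primitive, at all times -/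
theorem Sys.prim (S : Sys Ω ν s T M u G f r) {ε : ℝ} (hε : 0 < ε) {a b : ℝ} (ha : a ∈ Ioc s T)
    (hb : b ∈ Ioc s T) :
    Ps Ω ε (u b) - Ps Ω ε (u a) = ∫ x in a..b, kap Ω ν ε u G f r x := by
  obtain ⟨A, hA1, hA2⟩ := S.prim_ae hε
  -- a reference time
  have hPA : ∀ᵐ t ∂(volume.restrict (Ioc s T)), t ∈ A ∧ (u t, G t) ∈ graphW Ω := by
    filter_upwards [ae_restrict_of_ae hA1, S.grad] with t h1 h2
    exact ⟨h1, h2⟩
  have hTmem : T ∈ Ioc s T := ⟨S.hsT, le_rfl⟩
  obtain ⟨c, hc, ⟨hcA, _⟩, _⟩ := S.good hPA hTmem (h := T - s) (by linarith [S.hsT]) le_rfl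
  rw [sub_sub_cancel] at hc
  have hcm : c ∈ Ioc s T := ⟨hc.1, hc.2.le⟩
  set K : ℝ → ℝ := (Ioc s T).indicator (kap Ω ν ε u G f r) with hK
  have hKi : Integrable K := (S.kap_int hε).integrable_indicator measurableSet_Ioc
  have hKe : ∀ {a b : ℝ}, a ∈ Ioc s T → b ∈ Ioc s T →
      ∫ x in a..b, kap Ω ν ε u G f r x = ∫ x in a..b, K x := by
    intro a b ha hb
    refine intervalIntegral.integral_congr_ae (Eventually.of_forall fun x hx => ?_)
    rw [hK, indicator_of_mem (uIoc_sub ha hb hx)]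
  have hAc : ∀ a ∈ A, a ∈ Ioo s T → Ps Ω ε (u a) = Ps Ω ε (u c) + ∫ x in c..a, K x := by
    intro a ha ham
    have ham' : a ∈ Ioc s T := ⟨ham.1, ham.2.le⟩
    rcases le_total c a with h | h
    · have := hA2 c hcA a ha hc.1 h ham.2
      rw [hKe hcm ham'] at this
      linarith
    · have := hA2 a ha c hcA ham.1 h hc.2
      rw [hKe ham' hcm, intervalIntegral.integral_symm] at this
      linarith
  have main : ∀ t0 ∈ Ioc s T, Ps Ω ε (u t0) = Ps Ω ε (u c) + ∫ x in c..t0, K x := by
    intro t0 ht0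
    set w : ℝ → ℝ := (Ioc s T).indicator
      (fun t => M * ‖f t‖ + ν * ‖G t‖ ^ 2 + ‖r t‖ * (1 / √ε)) with hw
    have hwi : Integrable w := by
      have h1 : IntegrableOn (fun t => M * ‖f t‖ + ν * ‖G t‖ ^ 2 + ‖r t‖ * (1 / √ε)) (Ioc s T) :=
        ((S.hf.norm.const_mul M).add (S.G_sq.const_mul ν)).add (S.hr.norm.mul_const _)
      exact h1.integrable_indicator measurableSet_Ioc
    have hw0 : ∀ x, 0 ≤ w x := fun x => indicator_nonneg (fun t _ => by
      have := S.M_nonneg
      have := S.hν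
      positivity) x
    set h : ℕ → ℝ := fun n => (t0 - s) / ((n : ℝ) + 1) with hh
    have hts : 0 < t0 - s := by linarith [ht0.1]
    have hh0 : ∀ n, 0 < h n := fun n => by
      simp only [hh]
      positivity
    have hh1 : ∀ n, h n ≤ t0 - s := fun n => by
      simp only [hh]
      refine div_le_self hts.le ?_
      have : (0 : ℝ) ≤ n := Nat.cast_nonneg n
      linarith
    have hhl : Tendsto h atTop (𝓝 0) := by
      have := (tendsto_one_div_add_atTop_nhds_zero_nat (𝕜 := ℝ)).const_mul (t0 - s)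
      rw [mul_zero] at this
      refine this.congr fun n => ?_
      simp only [hh]
      ring
    choose a ham haP haG using fun n => S.good hPA ht0 (hh0 n) (hh1 n)
    have hIoo : ∀ n, a n ∈ Ioo s T := fun n =>
      ⟨by linarith [(ham n).1, hh1 n], (ham n).2.trans_le ht0.2⟩
    have hIoc : ∀ n, a n ∈ Ioc s T := fun n => ⟨(hIoo n).1, (hIoo n).2.le⟩
    have hal : Tendsto a atTop (𝓝 t0) := by
      have h1 : Tendsto (fun n => t0 - h n) atTop (𝓝 t0) := by
        have := (tendsto_const_nhds (x := t0)).sub hhl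
        rwa [sub_zero] at this
      exact tendsto_of_tendsto_of_tendsto_of_le_of_le h1 tendsto_const_nhds
        (fun n => (ham n).1.le) (fun n => (ham n).2.le)
    -- limit of the values
    have hPl : Tendsto (fun n => Ps Ω ε (u (a n))) atTop
        (𝓝 (Ps Ω ε (u c) + ∫ x in c..t0, K x)) := by
      have h1 : Continuous fun y => ∫ x in c..y, K x :=
        intervalIntegral.continuous_primitive (fun _ _ => hKi.intervalIntegrable) c
      have h2 := ((h1.tendsto t0).comp hal).const_add (Ps Ω ε (u c))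
      refine h2.congr fun n => ?_
      rw [Function.comp_apply, hAc (a n) (haP n).1 (hIoo n)]
    refine le_antisymm ?_ ?_
    · -- upper bound
      obtain ⟨l, e, _, _⟩ := fun2 (memLp_Tr hε (u t0))
      have h1 : ∀ n, Ps Ω ε (u t0)
          ≤ Ps Ω ε (u (a n)) - l (u (a n) - u t0) := by
        intro n
        have := Ps_conv hε (u t0) (u (a n))
        rw [e]
        linarith
      have h2 : Tendsto (fun n => l (u (a n) - u t0)) atTop (𝓝 0) := by
        obtain ⟨w, hw⟩ : ∃ w : L2V Ω, ∀ v, l v = ⟪v, w⟫_ℝ := by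
          refine ⟨(memLp_Tr hε (u t0)).toLp _, fun v => ?_⟩
          rw [e, L2.inner_def]
          refine integral_congr_ae ?_
          filter_upwards [(memLp_Tr hε (u t0)).coeFn_toLp] with x hx
          rw [hx]
        have h3 := S.wc w t0 ht0
        have h4 : Tendsto a atTop (𝓝[Ioc s T] t0) :=
          tendsto_nhdsWithin_iff.2 ⟨hal, Eventually.of_forall hIoc⟩
        have h5 := (h3.tendsto.comp h4).sub_const ⟪u t0, w⟫_ℝ
        rw [sub_self] at h5
        refine h5.congr fun n => ?_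
        rw [hw, inner_sub_left]
        rfl
      have h3 := hPl.sub h2
      rw [sub_zero] at h3
      exact ge_of_tendsto' h3 h1
    · -- lower bound
      have h1 : ∀ n, Ps Ω ε (u (a n)) - 2 * ∫ t in (t0 - h n)..t0, w t ≤ Ps Ω ε (u t0) := by
        intro n
        have k1 := S.incr hε (hIoc n) ht0 (haP n).2
        have hat : a n ≤ t0 := (ham n).2.le
        have k2 : -(2 * ∫ t in (t0 - h n)..t0, w t)
            ≤ ∫ t in (a n)..t0, FT Ω ν ε (f t) (G t) (r t) (u (a n), G (a n)) := by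
          have j1 : |∫ t in (a n)..t0, FT Ω ν ε (f t) (G t) (r t) (u (a n), G (a n))|
              ≤ ∫ t in (a n)..t0, (w t + ν / 2 * ‖G (a n)‖ ^ 2) := by
            rw [← Real.norm_eq_abs]
            refine intervalIntegral.norm_integral_le_of_norm_le hat
              (Eventually.of_forall fun t ht => ?_) (hwi.intervalIntegrable.add (by simp))
            have ht' : t ∈ Ioc s T := ⟨(hIoc n).1.trans ht.1, ht.2.trans ht0.2⟩
            rw [Real.norm_eq_abs, hw, indicator_of_mem ht']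
            refine (FT_bound S.hν hε _ _ _ _).trans ?_
            have k3 : ‖f t‖ * ‖u (a n)‖ ≤ M * ‖f t‖ := by
              rw [mul_comm]
              gcongr
              exact S.bdd _ (hIoc n)
            have k4 : ν * (‖G t‖ * ‖G (a n)‖) ≤ ν * ‖G t‖ ^ 2 + ν / 2 * ‖G (a n)‖ ^ 2 := by
              have := S.hν
              nlinarith [mul_nonneg this (sq_nonneg (‖G t‖ - ‖G (a n)‖)),
                mul_nonneg this (sq_nonneg ‖G t‖)]
            simp only
            linarith
          have j2 : ∫ t in (a n)..t0, (w t + ν / 2 * ‖G (a n)‖ ^ 2)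
              = (∫ t in (a n)..t0, w t) + (t0 - a n) * (ν / 2 * ‖G (a n)‖ ^ 2) := by
            rw [intervalIntegral.integral_add hwi.intervalIntegrable (by simp),
              intervalIntegral.integral_const, smul_eq_mul]
          have j3 : ∫ t in (a n)..t0, w t ≤ ∫ t in (t0 - h n)..t0, w t := by
            rw [← intervalIntegral.integral_add_adjacent_intervals
              (hwi.intervalIntegrable (a := t0 - h n) (b := a n)) hwi.intervalIntegrable]
            have := intervalIntegral.integral_nonneg_of_forall (μ := volume)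
              (ham n).1.le hw0
            linarith
          have j4 : (t0 - a n) * (ν / 2 * ‖G (a n)‖ ^ 2) ≤ ∫ t in (t0 - h n)..t0, w t := by
            have i1 : (t0 - a n) * (ν / 2 * ‖G (a n)‖ ^ 2) ≤ ν / 2 * (h n * ‖G (a n)‖ ^ 2) := by
              have l1 : t0 - a n ≤ h n := by linarith [(ham n).1]
              have l2 : 0 ≤ ν / 2 * ‖G (a n)‖ ^ 2 := by
                have := S.hν
                positivity
              nlinarith
            have i2 : ν / 2 * (h n * ‖G (a n)‖ ^ 2)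
                ≤ ν / 2 * ∫ t in (t0 - h n)..t0, ‖G t‖ ^ 2 := by
              have := S.hν
              have := haG n
              gcongr
            have i3 : ν / 2 * ∫ t in (t0 - h n)..t0, ‖G t‖ ^ 2
                ≤ ∫ t in (t0 - h n)..t0, w t := by
              rw [← intervalIntegral.integral_const_mul]
              have l0 : t0 - h n ≤ t0 := by linarith [hh0 n]
              have hsub : Ioc (t0 - h n) t0 ⊆ Ioc s T := fun x hx =>
                ⟨by linarith [hx.1, hh1 n], hx.2.trans ht0.2⟩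
              rw [intervalIntegral.integral_of_le l0, intervalIntegral.integral_of_le l0]
              refine setIntegral_mono_on ((S.G_sq.mono_set hsub).const_mul _)
                hwi.integrableOn measurableSet_Ioc fun t ht => ?_
              rw [hw, indicator_of_mem (hsub ht)]
              have := S.hν
              have := S.M_nonneg
              have l1 : 0 ≤ M * ‖f t‖ := by positivity
              have l2 : 0 ≤ ‖r t‖ * (1 / √ε) := by positivity
              have l3 : 0 ≤ ν * ‖G t‖ ^ 2 := by positivity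
              linarith
            linarith
          have j5 := neg_abs_le (∫ t in (a n)..t0,
            FT Ω ν ε (f t) (G t) (r t) (u (a n), G (a n)))
          linarith
        linarith
      have h2 : Tendsto (fun n => ∫ t in (t0 - h n)..t0, w t) atTop (𝓝 0) := by
        have g1 : Continuous fun y => ∫ x in t0..y, w x :=
          intervalIntegral.continuous_primitive (fun _ _ => hwi.intervalIntegrable) t0
        have g2 : Tendsto (fun n => t0 - h n) atTop (𝓝 t0) := by
          have := (tendsto_const_nhds (x := t0)).sub hhl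
          rwa [sub_zero] at this
        have g3 := ((g1.tendsto t0).comp g2).neg
        rw [intervalIntegral.integral_same, neg_zero] at g3
        refine g3.congr fun n => ?_
        rw [Function.comp_apply, intervalIntegral.integral_symm, neg_neg]
      have h3 := hPl.sub (h2.const_mul 2)
      rw [mul_zero, sub_zero] at h3
      exact le_of_tendsto' h3 h1
  rw [main b hb, main a ha, hKe ha hb]
  have h1 := intervalIntegral.integral_add_adjacent_intervals
    (hKi.intervalIntegrable (a := c) (b := a)) (hKi.intervalIntegrable (b := b))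
  linarith

end Pool.Agent.Y303.EA
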