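import Pool.Agent.Y303.EA.Stat

/-!
The positive and the negative part of the work have the same integral.
-/

set_option autoImplicit false
set_option linter.unusedSectionVars false

open MeasureTheory Set Filter Topology
open scoped InnerProductSpace ENNReal ContDiff NNReal

namespace Pool.Agent.Y303.EA

open H772R2.NS

section gen

variable {α : Type*} {mα : MeasurableSpace α} {μ : Measure α}

/-- the limit in the weights -/
theorem fat {ρ : ℕ → α → ℝ} {κ w : α → ℝ} (hρ : ∀ n, AEMeasurable (fun x => ρ n x * w x) μ)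
    (h0 : ∀ n x, 0 ≤ ρ n x) (h1 : ∀ n x, ρ n x ≤ κ x)
    (hlim : ∀ x, Tendsto (fun n => ρ n x) atTop (𝓝 (κ x)))
    {δ : ℕ → ℝ} (hδ : Tendsto δ atTop (𝓝 0))
    (hle : ∀ n, ∫⁻ x, ENNReal.ofReal (ρ n x * w x) ∂μ
      ≤ ∫⁻ x, ENNReal.ofReal (-(ρ n x * w x)) ∂μ + ENNReal.ofReal (δ n)) :
    ∫⁻ x, ENNReal.ofReal (κ x * w x) ∂μ ≤ ∫⁻ x, ENNReal.ofReal (-(κ x * w x)) ∂μ := by
  have h2 : ∀ x, ENNReal.ofReal (κ x * w x)
      = liminf (fun n => ENNReal.ofReal (ρ n x * w x)) atTop := by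
    intro x
    have h3 : Tendsto (fun n => ENNReal.ofReal (ρ n x * w x)) atTop
        (𝓝 (ENNReal.ofReal (κ x * w x))) :=
      (ENNReal.continuous_ofReal.tendsto _).comp ((hlim x).mul_const (w x))
    exact h3.liminf_eq.symm
  have h4 : ∀ n, ∫⁻ x, ENNReal.ofReal (-(ρ n x * w x)) ∂μ
      ≤ ∫⁻ x, ENNReal.ofReal (-(κ x * w x)) ∂μ := by
    intro n
    refine lintegral_mono fun x => ?_
    rcases le_total 0 (w x) with hw | hw
    · rw [ENNReal.ofReal_of_nonpos (by nlinarith [h0 n x, mul_nonneg (h0 n x) hw])]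
      exact zero_le
    · refine ENNReal.ofReal_le_ofReal ?_
      nlinarith [h1 n x]
  have h5 : Tendsto (fun n => ∫⁻ x, ENNReal.ofReal (-(κ x * w x)) ∂μ + ENNReal.ofReal (δ n)) atTop
      (𝓝 (∫⁻ x, ENNReal.ofReal (-(κ x * w x)) ∂μ)) := by
    have h6 : Tendsto (fun n => ENNReal.ofReal (δ n)) atTop (𝓝 0) := by
      have := (ENNReal.continuous_ofReal.tendsto 0).comp hδ
      simpa [Function.comp_def] using this
    have := (tendsto_const_nhds (x := ∫⁻ x, ENNReal.ofReal (-(κ x * w x)) ∂μ)).add h6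
    simpa using this
  calc ∫⁻ x, ENNReal.ofReal (κ x * w x) ∂μ
      = ∫⁻ x, liminf (fun n => ENNReal.ofReal (ρ n x * w x)) atTop ∂μ :=
        lintegral_congr h2
    _ ≤ liminf (fun n => ∫⁻ x, ENNReal.ofReal (ρ n x * w x) ∂μ) atTop :=
        lintegral_liminf_le' fun n => (hρ n).ennreal_ofReal
    _ ≤ liminf (fun n => ∫⁻ x, ENNReal.ofReal (-(κ x * w x)) ∂μ + ENNReal.ofReal (δ n)) atTop := by
        refine liminf_le_liminf (Eventually.of_forall fun n => ?_)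
        exact (hle n).trans (add_le_add (h4 n) le_rfl)
    _ = _ := h5.liminf_eq

theorem parts_le {A : α → ℝ} (hA : Integrable A μ) :
    ∫⁻ x, ENNReal.ofReal (A x) ∂μ ≤ ∫⁻ x, ENNReal.ofReal (-(A x)) ∂μ
      + ENNReal.ofReal |∫ x, A x ∂μ| := by
  have h1 := integral_eq_lintegral_pos_part_sub_lintegral_neg_part hA
  have h2 : ∫⁻ x, ENNReal.ofReal (A x) ∂μ ≠ ⊤ := by
    refine ne_top_of_le_ne_top hA.2.ne (lintegral_mono fun x => ?_)
    rw [← ofReal_norm]
    exact ENNReal.ofReal_le_ofReal (le_abs_self _)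
  have h3 : ∫⁻ x, ENNReal.ofReal (-(A x)) ∂μ ≠ ⊤ := by
    refine ne_top_of_le_ne_top hA.2.ne (lintegral_mono fun x => ?_)
    rw [← ofReal_norm]
    exact ENNReal.ofReal_le_ofReal (neg_le_abs _)
  rw [← ENNReal.ofReal_toReal h2]
  conv_rhs => rw [← ENNReal.ofReal_toReal h3, ← ENNReal.ofReal_add ENNReal.toReal_nonneg
    (abs_nonneg _)]
  refine ENNReal.ofReal_le_ofReal ?_
  have := le_abs_self (∫ x, A x ∂μ)
  linarith

/-- the integral against a weight between `0` and `1` -/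
theorem weight_le {w θ : α → ℝ} {N : ℝ≥0∞} (hN : N ≠ ⊤)
    (h1 : ∫⁻ x, ENNReal.ofReal (w x) ∂μ ≤ N) (h2 : ∫⁻ x, ENNReal.ofReal (-(w x)) ∂μ ≤ N)
    (hθ0 : ∀ x, 0 ≤ θ x) (hθ1 : ∀ x, θ x ≤ 1) (hi : Integrable (fun x => θ x * w x) μ) :
    |∫ x, θ x * w x ∂μ| ≤ N.toReal := by
  rw [integral_eq_lintegral_pos_part_sub_lintegral_neg_part hi]
  have h3 : ∫⁻ x, ENNReal.ofReal (θ x * w x) ∂μ ≤ N := by
    refine le_trans (lintegral_mono fun x => ?_) h1
    rcases le_total 0 (w x) with hw | hw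
    · exact ENNReal.ofReal_le_ofReal (by nlinarith [hθ1 x])
    · rw [ENNReal.ofReal_of_nonpos (by nlinarith [hθ0 x])]
      exact zero_le
  have h4 : ∫⁻ x, ENNReal.ofReal (-(θ x * w x)) ∂μ ≤ N := by
    refine le_trans (lintegral_mono fun x => ?_) h2
    rcases le_total (w x) 0 with hw | hw
    · exact ENNReal.ofReal_le_ofReal (by nlinarith [hθ1 x])
    · rw [ENNReal.ofReal_of_nonpos (by nlinarith [hθ0 x, mul_nonneg (hθ0 x) hw])]
      exact zero_le
  have h5 := ENNReal.toReal_mono hN h3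
  have h6 := ENNReal.toReal_mono hN h4
  rw [abs_le]
  constructor <;> linarith [ENNReal.toReal_nonneg (a := ∫⁻ x, ENNReal.ofReal (θ x * w x) ∂μ),
    ENNReal.toReal_nonneg (a := ∫⁻ x, ENNReal.ofReal (-(θ x * w x)) ∂μ)]

end gen

variable {Ω : Set E3}

/-- the work -/
noncomputable def wk (c : ℝ) (v : E3) (z : M3) (Q : E3) : ℝ := ⟪Q, v⟫_ℝ + c * ⟪z, tens v⟫_ℝ

theorem wk_eq (ε c : ℝ) (v : E3) (z : M3) (Q : E3) :
    ⟪Q + c • mt z v, Tr ε v⟫_ℝ = th ε v * wk c v z Q := by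
  rw [Tr, real_inner_smul_right, inner_add_left, real_inner_smul_left, inner_mt, wk]

theorem cont_wk (c : ℝ) : Continuous fun q : E3 × M3 × E3 => wk c q.1 q.2.1 q.2.2 := by
  unfold wk
  have := continuous_tens
  fun_prop

theorem abs_wk_le {ε : ℝ} (hε : 0 < ε) (c : ℝ) (v : E3) (z : M3) (Q : E3) :
    |th ε v * wk c v z Q| ≤ (‖Q‖ + |c| * (‖v‖ ^ 2 + ‖z‖ ^ 2)) * (1 / √ε) := by
  rw [← wk_eq]
  refine (abs_real_inner_le_norm _ _).trans ?_
  gcongr
  · refine (norm_add_le _ _).trans ?_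
    rw [norm_smul, Real.norm_eq_abs]
    gcongr
    refine (norm_mt_le z v).trans ?_
    nlinarith [sq_nonneg (‖v‖ - ‖z‖), sq_nonneg ‖v‖, sq_nonneg ‖z‖]
  · exact norm_Tr_le' hε v

theorem aesm_wk (c : ℝ) {v : E3 → E3} {z : E3 → M3} {Q : E3 → E3} {μ : Measure E3}
    (h1 : AEStronglyMeasurable v μ) (h2 : AEStronglyMeasurable z μ)
    (h3 : AEStronglyMeasurable Q μ) :
    AEStronglyMeasurable (fun x => wk c (v x) (z x) (Q x)) μ :=
  (cont_wk c).comp_aestronglyMeasurable (h1.prodMk (h2.prodMk h3))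

theorem eth_le {ε : ℝ} (hε : 0 ≤ ε) (v : E3) (z : M3) :
    ε * th ε v ^ 3 * (‖z‖ * ‖v‖ ^ 2) ≤ ‖z‖ := by
  have h1 := th_sq_le hε v
  have h2 := th_le_one hε v
  have h3 := (th_pos hε v).le
  have h4 : ε * th ε v ^ 3 * (‖z‖ * ‖v‖ ^ 2) = (ε * th ε v ^ 2 * ‖v‖ ^ 2) * th ε v * ‖z‖ := by
    ring
  rw [h4]
  have h5 : 0 ≤ ε * th ε v ^ 2 * ‖v‖ ^ 2 := by positivity
  have h6 : (ε * th ε v ^ 2 * ‖v‖ ^ 2) * th ε v ≤ 1 := by nlinarith
  nlinarith [norm_nonneg z]

theorem aesm2 {β : Type*} [TopologicalSpace β] {f : E3 × M3 → β} (hf : Continuous f)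
    (p : L2V Ω × L2M Ω) :
    AEStronglyMeasurable (fun x => f (p.1 x, p.2 x)) (volume.restrict Ω) :=
  hf.comp_aestronglyMeasurable ((Lp.aestronglyMeasurable p.1).prodMk
    (Lp.aestronglyMeasurable p.2))

theorem aesm3 {β : Type*} [TopologicalSpace β] {f : E3 × ℝ → β} (hf : Continuous f)
    (v : L2V Ω) (q : Lp ℝ 1 ((volume : Measure E3).restrict Ω)) :
    AEStronglyMeasurable (fun x => f (v x, q x)) (volume.restrict Ω) :=
  hf.comp_aestronglyMeasurable ((Lp.aestronglyMeasurable v).prodMk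
    (Lp.aestronglyMeasurable q))

theorem cont_hd (c : ℝ) : Continuous fun q : E3 × ℝ => hd c q.1 q.2 := by
  unfold hd
  fun_prop

theorem aesm_hd (c : ℝ) (v : L2V Ω) (q : Lp ℝ 1 ((volume : Measure E3).restrict Ω)) :
    AEStronglyMeasurable (fun x => hd c (v x) (q x)) (volume.restrict Ω) := by
  have := aesm3 (cont_hd c) v q
  exact this

section stat

variable (hΩ : IsOpen Ω) [IsFiniteMeasure ((volume : Measure E3).restrict Ω)]
include hΩ

theorem th_wk_int {ε : ℝ} (hε : 0 < ε) (c : ℝ) (p : L2V Ω × L2M Ω)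
    (Q : Lp E3 1 ((volume : Measure E3).restrict Ω)) :
    Integrable (fun x => th ε (p.1 x) * wk c (p.1 x) (p.2 x) (Q x)) (volume.restrict Ω) := by
  refine Integrable.mono' (g := fun x => (‖Q x‖ + |c| * (‖p.1 x‖ ^ 2 + ‖p.2 x‖ ^ 2)) * (1 / √ε))
    (((integrable_norm_one Q).add (((integrable_norm_sq p.1).add
      (integrable_norm_sq p.2)).const_mul _)).mul_const _) ?_
    (Eventually.of_forall fun x => ?_)
  · exact ((cont_th hε.le).comp_aestronglyMeasurable (Lp.aestronglyMeasurable _)).mul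
      (aesm_wk c (Lp.aestronglyMeasurable _) (Lp.aestronglyMeasurable _)
        (Lp.aestronglyMeasurable _))
  · rw [Real.norm_eq_abs]
    exact abs_wk_le hε c _ _ _

theorem stat_int {ε : ℝ} (hε : 0 < ε) {S : ℝ → ℝ} (hS : ContDiff ℝ ∞ S) {B : ℝ}
    (hB : ∀ x, |S x| ≤ B) (hS1 : ∀ x, |deriv S x| ≤ 1) (c : ℝ) {p : L2V Ω × L2M Ω}
    (hp : p ∈ graphW Ω)
    {q : Lp ℝ 1 ((volume : Measure E3).restrict Ω) × Lp E3 1 ((volume : Measure E3).restrict Ω)}
    (hq : q ∈ W11 Ω) :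
    Integrable (fun x => deriv S (hd c (p.1 x) (q.1 x))
      * (th ε (p.1 x) * wk c (p.1 x) (p.2 x) (q.2 x))) (volume.restrict Ω) ∧
    |∫ x in Ω, deriv S (hd c (p.1 x) (q.1 x))
      * (th ε (p.1 x) * wk c (p.1 x) (p.2 x) (q.2 x))|
      ≤ B * ∫ x in Ω, ε * th ε (p.1 x) ^ 3 * (‖p.2 x‖ * ‖p.1 x‖ ^ 2) := by
  have h0 := statB hΩ hε hS hB hS1 c hp hq
  have hB0 : 0 ≤ B := (abs_nonneg _).trans (hB 0)
  have hdS : Continuous (deriv S) := hS.continuous_deriv (by simp)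
  have hm := aesm_hd c p.1 q.1
  have i1 : Integrable (fun x => deriv S (hd c (p.1 x) (q.1 x))
      * (th ε (p.1 x) * wk c (p.1 x) (p.2 x) (q.2 x))) (volume.restrict Ω) := by
    refine (th_wk_int hΩ hε c p q.2).norm.mono' ((hdS.comp_aestronglyMeasurable hm).mul
      (th_wk_int hΩ hε c p q.2).aestronglyMeasurable) (Eventually.of_forall fun x => ?_)
    rw [norm_mul, Real.norm_eq_abs]
    calc |deriv S (hd c (p.1 x) (q.1 x))| * ‖th ε (p.1 x) * wk c (p.1 x) (p.2 x) (q.2 x)‖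
        ≤ 1 * ‖th ε (p.1 x) * wk c (p.1 x) (p.2 x) (q.2 x)‖ := by
          gcongr
          exact hS1 _
      _ = _ := one_mul _
  have hz : Integrable (fun x => ‖p.2 x‖) (volume.restrict Ω) :=
    ((Lp.memLp p.2).mono_exponent (p := 1) (by norm_num)).integrable (le_refl _) |>.norm
  have i3 : Integrable (fun x => ε * th ε (p.1 x) ^ 3 * (‖p.2 x‖ * ‖p.1 x‖ ^ 2))
      (volume.restrict Ω) := by
    refine hz.mono' ?_ (Eventually.of_forall fun x => ?_)
    · have hth := cont_th hε.le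
      have : Continuous fun q : E3 × M3 => ε * th ε q.1 ^ 3 * (‖q.2‖ * ‖q.1‖ ^ 2) := by fun_prop
      have h2 := aesm2 this p
      exact h2
    · rw [Real.norm_of_nonneg (by have := th_pos hε.le (p.1 x); positivity)]
      exact eth_le hε.le _ _
  have htr := trace_zero hp
  have hle : ∀ᵐ x ∂(volume.restrict Ω), |S (hd c (p.1 x) (q.1 x))
      * ∑ i, dt ε (p.1 x) (p.2 x) (i, i)|
      ≤ B * (ε * th ε (p.1 x) ^ 3 * (‖p.2 x‖ * ‖p.1 x‖ ^ 2)) := by
    filter_upwards [htr] with x hx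
    rw [trace_dt, hx, mul_zero, zero_sub, abs_mul, abs_neg, abs_mul]
    have hth := th_pos hε.le (p.1 x)
    rw [abs_of_nonneg (by positivity : 0 ≤ ε * th ε (p.1 x) ^ 3)]
    gcongr
    · exact hB _
    · exact abs_tens_le _ _
  have hdt : AEStronglyMeasurable (fun x => S (hd c (p.1 x) (q.1 x))
      * ∑ i, dt ε (p.1 x) (p.2 x) (i, i)) (volume.restrict Ω) := by
    refine (hS.continuous.comp_aestronglyMeasurable hm).mul ?_
    have h1 := aesm2 (cont_dt hε.le) p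
    have h3 : Continuous fun z : M3 => ∑ i, z (i, i) := by fun_prop
    have h4 := h3.comp_aestronglyMeasurable h1
    exact h4
  have i2 : Integrable (fun x => S (hd c (p.1 x) (q.1 x))
      * ∑ i, dt ε (p.1 x) (p.2 x) (i, i)) (volume.restrict Ω) :=
    (i3.const_mul B).mono' hdt hle
  refine ⟨i1, ?_⟩
  unfold SF at h0
  simp only [wk_eq] at h0
  rw [integral_add i1 i2] at h0
  have h1 : ∫ x in Ω, deriv S (hd c (p.1 x) (q.1 x))
      * (th ε (p.1 x) * wk c (p.1 x) (p.2 x) (q.2 x))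
      = - ∫ x in Ω, S (hd c (p.1 x) (q.1 x)) * ∑ i, dt ε (p.1 x) (p.2 x) (i, i) := by linarith
  rw [h1, abs_neg, ← integral_const_mul, ← Real.norm_eq_abs]
  simp only [← Real.norm_eq_abs] at hle
  exact norm_integral_le_of_norm_le (i3.const_mul B) hle

theorem eth_lim (p : L2V Ω × L2M Ω) :
    Tendsto (fun n : ℕ => ∫ x in Ω, (1 / ((n : ℝ) + 1)) * th (1 / ((n : ℝ) + 1)) (p.1 x) ^ 3
      * (‖p.2 x‖ * ‖p.1 x‖ ^ 2)) atTop (𝓝 0) := by
  have hz : Integrable (fun x => ‖p.2 x‖) (volume.restrict Ω) :=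
    ((Lp.memLp p.2).mono_exponent (p := 1) (by norm_num)).integrable (le_refl _) |>.norm
  have hn : ∀ n : ℕ, 0 < 1 / ((n : ℝ) + 1) := fun n => by positivity
  have h := tendsto_integral_of_dominated_convergence (μ := (volume : Measure E3).restrict Ω)
    (F := fun (n : ℕ) x => (1 / ((n : ℝ) + 1)) * th (1 / ((n : ℝ) + 1)) (p.1 x) ^ 3
      * (‖p.2 x‖ * ‖p.1 x‖ ^ 2)) (f := fun _ => 0) (fun x => ‖p.2 x‖) (fun n => ?_) hz
    (fun n => Eventually.of_forall fun x => ?_) (Eventually.of_forall fun x => ?_)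
  · simpa using h
  · have hth := cont_th (hn n).le
    have : Continuous fun q : E3 × M3 => (1 / ((n : ℝ) + 1)) * th (1 / ((n : ℝ) + 1)) q.1 ^ 3
      * (‖q.2‖ * ‖q.1‖ ^ 2) := by fun_prop
    have h2 := aesm2 this p
    exact h2
  · rw [Real.norm_of_nonneg (by have := th_pos (hn n).le (p.1 x); positivity)]
    exact eth_le (hn n).le _ _
  · have h1 : Tendsto (fun n : ℕ => 1 / ((n : ℝ) + 1)) atTop (𝓝[>] 0) := by
      refine tendsto_nhdsWithin_iff.2 ⟨tendsto_one_div_add_atTop_nhds_zero_nat, ?_⟩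
      exact Eventually.of_forall fun n => hn n
    have h2 := ((tendsto_eth (p.1 x) 3).comp h1).mul_const (‖p.2 x‖ * ‖p.1 x‖ ^ 2)
    simpa only [Function.comp_def, zero_mul] using h2

/-- the first step: the limit `ε → 0` -/
theorem stat_one {S : ℝ → ℝ} (hS : ContDiff ℝ ∞ S) {B : ℝ}
    (hB : ∀ x, |S x| ≤ B) (hS0 : ∀ x, 0 ≤ deriv S x) (hS1 : ∀ x, deriv S x ≤ 1) (c : ℝ)
    {σ : ℝ} (hσ : |σ| = 1) {p : L2V Ω × L2M Ω} (hp : p ∈ graphW Ω)
    {q : Lp ℝ 1 ((volume : Measure E3).restrict Ω) × Lp E3 1 ((volume : Measure E3).restrict Ω)}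
    (hq : q ∈ W11 Ω) :
    ∫⁻ x in Ω, ENNReal.ofReal (deriv S (hd c (p.1 x) (q.1 x))
      * (σ * wk c (p.1 x) (p.2 x) (q.2 x)))
    ≤ ∫⁻ x in Ω, ENNReal.ofReal (-(deriv S (hd c (p.1 x) (q.1 x))
      * (σ * wk c (p.1 x) (p.2 x) (q.2 x)))) := by
  have hn : ∀ n : ℕ, 0 < 1 / ((n : ℝ) + 1) := fun n => by positivity
  have hS1' : ∀ x, |deriv S x| ≤ 1 := fun x => by rw [abs_of_nonneg (hS0 x)]; exact hS1 x
  have e : ∀ (n : ℕ) x, deriv S (hd c (p.1 x) (q.1 x)) * th (1 / ((n : ℝ) + 1)) (p.1 x)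
      * (σ * wk c (p.1 x) (p.2 x) (q.2 x))
      = σ * (deriv S (hd c (p.1 x) (q.1 x))
        * (th (1 / ((n : ℝ) + 1)) (p.1 x) * wk c (p.1 x) (p.2 x) (q.2 x))) := fun n x => by ring
  have hint := fun n : ℕ => stat_int hΩ (hn n) hS hB hS1' c hp hq
  refine fat (ρ := fun n x => deriv S (hd c (p.1 x) (q.1 x)) * th (1 / ((n : ℝ) + 1)) (p.1 x))
    (δ := fun n => B * ∫ x in Ω, (1 / ((n : ℝ) + 1)) * th (1 / ((n : ℝ) + 1)) (p.1 x) ^ 3
      * (‖p.2 x‖ * ‖p.1 x‖ ^ 2)) (fun n => ?_) (fun n x => ?_) (fun n x => ?_) (fun x => ?_) ?_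
    (fun n => ?_)
  · simp only [e]
    exact ((hint n).1.const_mul σ).aestronglyMeasurable.aemeasurable
  · exact mul_nonneg (hS0 _) (th_pos (hn n).le _).le
  · exact mul_le_of_le_one_right (hS0 _) (th_le_one (hn n).le _)
  · have h1 : Tendsto (fun n : ℕ => 1 / ((n : ℝ) + 1)) atTop (𝓝[>] 0) := by
      refine tendsto_nhdsWithin_iff.2 ⟨tendsto_one_div_add_atTop_nhds_zero_nat, ?_⟩
      exact Eventually.of_forall fun n => hn n
    have h2 := ((tendsto_th (p.1 x)).comp h1).const_mul (deriv S (hd c (p.1 x) (q.1 x)))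
    simpa only [Function.comp_def, mul_one] using h2
  · have := (eth_lim hΩ p).const_mul B
    simpa using this
  · simp only [e]
    refine (parts_le ((hint n).1.const_mul σ)).trans ?_
    gcongr
    rw [integral_const_mul, abs_mul, hσ, one_mul]
    exact (hint n).2

/-- the second step -/
theorem stat_two (c : ℝ) {σ : ℝ} (hσ : |σ| = 1) {p : L2V Ω × L2M Ω} (hp : p ∈ graphW Ω)
    {q : Lp ℝ 1 ((volume : Measure E3).restrict Ω) × Lp E3 1 ((volume : Measure E3).restrict Ω)}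
    (hq : q ∈ W11 Ω) :
    ∫⁻ x in Ω, ENNReal.ofReal (σ * wk c (p.1 x) (p.2 x) (q.2 x))
    ≤ ∫⁻ x in Ω, ENNReal.ofReal (-(σ * wk c (p.1 x) (p.2 x) (q.2 x))) := by
  set S : ℕ → ℝ → ℝ := fun n x => ((n : ℝ) + 1) * Real.arctan (x / ((n : ℝ) + 1)) with hS
  have hn : ∀ n : ℕ, 0 < (n : ℝ) + 1 := fun n => by positivity
  have hder : ∀ n x, deriv (S n) x = 1 / (1 + (x / ((n : ℝ) + 1)) ^ 2) := by
    intro n x
    have h1 : HasDerivAt (S n) _ x :=
      (((hasDerivAt_id x).div_const ((n : ℝ) + 1)).arctan).const_mul ((n : ℝ) + 1)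
    rw [h1.deriv]
    have := (hn n).ne'
    simp only [id]
    field_simp
  have hcd : ∀ n, ContDiff ℝ ∞ (S n) := fun n =>
    contDiff_const.mul (Real.contDiff_arctan.comp (contDiff_id.div_const _))
  have hB : ∀ n x, |S n x| ≤ ((n : ℝ) + 1) * (Real.pi / 2) := by
    intro n x
    rw [hS]
    simp only
    rw [abs_mul, abs_of_pos (hn n)]
    have := (hn n).le
    gcongr
    exact (abs_lt.2 ⟨Real.neg_pi_div_two_lt_arctan _, Real.arctan_lt_pi_div_two _⟩).le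
  have h0 : ∀ n x, 0 ≤ deriv (S n) x := fun n x => by rw [hder]; positivity
  have h1 : ∀ n x, deriv (S n) x ≤ 1 := fun n x => by
    rw [hder, div_le_one (by positivity)]
    nlinarith [sq_nonneg (x / ((n : ℝ) + 1))]
  have hm := aesm_hd c p.1 q.1
  have hw := aesm_wk c (Lp.aestronglyMeasurable p.1) (Lp.aestronglyMeasurable p.2)
        (Lp.aestronglyMeasurable q.2)
  have key := fat (μ := (volume : Measure E3).restrict Ω)
    (ρ := fun n x => deriv (S n) (hd c (p.1 x) (q.1 x))) (κ := fun _ => 1)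
    (w := fun x => σ * wk c (p.1 x) (p.2 x) (q.2 x)) (δ := fun _ => 0) (fun n => ?_)
    (fun n x => h0 n _) (fun n x => h1 n _) (fun x => ?_) tendsto_const_nhds (fun n => ?_)
  · simpa only [one_mul] using key
  · exact (((hcd n).continuous_deriv (by simp)).comp_aestronglyMeasurable hm).aemeasurable.mul
      (hw.aemeasurable.const_mul σ)
  · simp only [hder]
    have h2 : Tendsto (fun n : ℕ => hd c (p.1 x) (q.1 x) / ((n : ℝ) + 1)) atTop (𝓝 0) := by
      have := (tendsto_one_div_add_atTop_nhds_zero_nat (𝕜 := ℝ)).const_mul (hd c (p.1 x) (q.1 x))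
      rw [mul_zero] at this
      refine this.congr fun n => ?_
      ring
    have h3 := ((h2.pow 2).const_add 1)
    have h4 := h3.inv₀ (by norm_num)
    simpa using h4
  · rw [ENNReal.ofReal_zero, add_zero]
    exact stat_one hΩ (hcd n) (hB n) (h0 n) (h1 n) c hσ hp hq

/-- the positive and the negative part of the work have the same integral -/
theorem work_eq (c : ℝ) {p : L2V Ω × L2M Ω} (hp : p ∈ graphW Ω)
    {q : Lp ℝ 1 ((volume : Measure E3).restrict Ω) × Lp E3 1 ((volume : Measure E3).restrict Ω)}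
    (hq : q ∈ W11 Ω) :
    ∫⁻ x in Ω, ENNReal.ofReal (wk c (p.1 x) (p.2 x) (q.2 x))
      = ∫⁻ x in Ω, ENNReal.ofReal (-(wk c (p.1 x) (p.2 x) (q.2 x))) := by
  refine le_antisymm ?_ ?_
  · simpa using stat_two hΩ c (σ := 1) (by simp) hp hq
  · simpa using stat_two hΩ c (σ := -1) (by simp) hp hq

end stat

end Pool.Agent.Y303.EA
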